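import Pool.Agent.E8helper60.AW.Fam

/-!
# Approximate equalities
-/

set_option autoImplicit false
set_option linter.unusedSectionVars false

open scoped Classical

noncomputable section

namespace Pool.Agent.E8helper60.AW

open Pool.Agent.Y63.NV Pool.Agent.Y405.NV Pool.Agent.Y63.NV.B48B
open Pool.Agent.Y63.AWC (IsIrreducibleCharacter pSubgroupSetoid numDefectZero numWeights
  numRegularClasses)

/-- the limit argument -/
theorem lim_le (a b P : ℕ) (hP : 1 ≤ P) (h : ∀ ε : ℝ, 0 < ε → ∃ C : ℝ, ∀ n₀ : ℕ, ∃ n, n₀ ≤ n ∧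
    (a : ℝ) ^ n ≤ C * ((P : ℝ) ^ n) ^ ε * (b : ℝ) ^ n) : a ≤ b := by
  by_contra hlt
  push Not at hlt
  have hP0 : (0 : ℝ) < P := by exact_mod_cast hP
  have ha : (0 : ℝ) < a := by
    have : 0 < a := by omega
    exact_mod_cast this
  -- the exponent
  have hc : ContinuousAt (fun ε : ℝ => (P : ℝ) ^ ε * b) 0 :=
    (Real.continuousAt_const_rpow hP0.ne').mul continuousAt_const
  have hlt' : (fun ε : ℝ => (P : ℝ) ^ ε * b) 0 < (a : ℝ) := by
    simp only [Real.rpow_zero, one_mul]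
    exact_mod_cast hlt
  have hev := hc.eventually (gt_mem_nhds hlt')
  obtain ⟨ε, h1, h2⟩ := ((hev.filter_mono (nhdsWithin_le_nhds (s := Set.Ioi 0))).and
    self_mem_nhdsWithin).exists
  have hε : 0 < ε := h2
  obtain ⟨C, hC⟩ := h ε hε
  obtain ⟨t, ht⟩ : ∃ t : ℝ, t = (P : ℝ) ^ ε * b := ⟨_, rfl⟩
  have ht0 : 0 ≤ t := by
    rw [ht]
    positivity
  have hta : t < a := by
    rw [ht]
    exact h1
  have hlim : Filter.Tendsto (fun n : ℕ => C * (t / a) ^ n) Filter.atTop (nhds (C * 0)) :=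
    (tendsto_pow_atTop_nhds_zero_of_lt_one (div_nonneg ht0 ha.le)
      ((div_lt_one ha).2 hta)).const_mul C
  rw [mul_zero] at hlim
  obtain ⟨n₀, hn₀⟩ := (hlim.eventually (gt_mem_nhds one_pos)).exists_forall_of_atTop
  obtain ⟨n, hn, hn2⟩ := hC n₀
  have h3 := hn₀ n hn
  have h4 : C * ((P : ℝ) ^ n) ^ ε * (b : ℝ) ^ n = C * t ^ n := by
    rw [ht, mul_pow, ← Real.rpow_natCast (P : ℝ) n, ← Real.rpow_mul hP0.le,
      mul_comm (n : ℝ) ε, Real.rpow_mul hP0.le, Real.rpow_natCast, mul_assoc]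
  rw [h4] at hn2
  rw [div_pow, ← mul_div_assoc, div_lt_one (pow_pos ha n)] at h3
  exact absurd hn2 (not_le.2 h3)

variable {F : Type} [Field F] [IsAlgClosed F] {p : ℕ} [Fact p.Prime] [CharP F p]
  (red : integralClosure ℤ ℂ →+* F)

theorem card_powF (G : Type) [Finite G] (n : ℕ) : Nat.card (Fin n → G) = Nat.card G ^ n := by
  rw [Nat.card_fun, Nat.card_eq_fintype_card (α := Fin n), Fintype.card_fin]

theorem one_le_cardG (G : Type) [Group G] [Finite G] : 1 ≤ Nat.card G := Nat.card_pos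

/-- the block `B'` of the power lies over the power of the block `B` -/
def OverPow {F : Type} [Field F] {G ι : Type} [Group G] [Fintype ι] (B : (G → F) → F)
    (B' : ((ι → G) → F) → F) : Prop :=
  ∀ f : G → F, IsClassFun f → B' (tens fun _ : ι => f) = B f ^ Fintype.card ι

theorem overpow_of_one (p : ℕ) [Fact p.Prime] [CharP F p] {G ι : Type} [Group G] [Finite G] [Fintype ι] {B : (G → F) → F} {e : G → F}
    (he : Iso B e) {B' : ((ι → G) → F) → F} (hB' : IsBlock B')
    (h1 : B' (tens fun _ : ι => e) = 1) : OverPow B B' := by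
  intro f hf
  have : Fintype G := Fintype.ofFinite _
  have hcf : IsClassFun (tens fun _ : ι => f) := cls_tens hf
  have hce : IsClassFun (tens fun _ : ι => e) := cls_tens he.cls
  have hcen : ofF (tens fun _ : ι => e) ∈ Subring.center (MonoidAlgebra F (ι → G)) :=
    (class_iff _).2 hce
  obtain ⟨c, hc⟩ : ∃ c : F, c = B f ^ Fintype.card ι := ⟨_, rfl⟩
  have hn : IsNilpotent ((ofF (tens fun _ : ι => f) - algebraMap F _ c) *
      ofF (tens fun _ : ι => e) : MonoidAlgebra F (ι → G)) := by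
    apply nilp
    intro φ hφ
    obtain ⟨θ, hθ, rfl⟩ := s_tensp p F ι _ φ hφ
    by_cases hall : ∀ i, InB B (θ i)
    · intro x
      rw [mul_assoc]
      refine hat_zero (fun y => ?_) _
      rw [sub_mul, map_sub, hat_act, act_tens]
      have h2 : ∏ i, ∑ᶠ g : G, f g * θ i (g * y i) = c * tens θ y := by
        rw [Finset.prod_congr rfl fun i _ => hall i f hf (y i), Finset.prod_mul_distrib,
          Finset.prod_const, Finset.card_univ, hc]
        rfl
      rw [h2, ← Algebra.smul_def, map_smul, hat_single, one_mul, smul_eq_mul, sub_self]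
    · push Not at hall
      obtain ⟨i, hi⟩ := hall
      have h3 : ∀ x, ∑ᶠ g : G, e g * θ i (g * x) = 0 := by
        rcases he.act _ (hθ i) with h | h
        · exact h
        · exact absurd h hi
      intro x
      rw [Subring.mem_center_iff.1 hcen _, mul_assoc]
      refine hat_zero (fun y => ?_) _
      rw [hat_act, act_tens]
      exact Finset.prod_eq_zero (Finset.mem_univ i) (h3 _)
  rw [alg_single, ← ofS_eq] at hn
  have hn3 : IsNilpotent ((ofC (tens fun _ : ι => f) hcf - ofS c) *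
      ofC (tens fun _ : ι => e) hce) := by
    obtain ⟨n, hn⟩ := hn
    exact ⟨n, Subtype.ext hn⟩
  have hn4 := hn3.map (toRH hB')
  rw [map_mul, map_sub, toRH_ofC, toRH_ofC, toRH_ofS, h1, mul_one] at hn4
  rw [← hc]
  exact sub_eq_zero.1 hn4.eq_zero

/-- linear inequalities add up -/
theorem lin_sum {G : Type} [Group G] [Finite G] (a b : ℝ) (e : G → F)
    [he : Fact (IsClassFun e)] (h : ∀ B : (G → F) → F, IsBlock B → B e = 1 →
      a * (numIrrBlock B : ℝ) ≤ b * (numWt p red B : ℝ)) :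
    a * (nl e : ℝ) ≤ b * (nwt p red e 1 : ℝ) := by
  obtain ⟨S, lβ, wβ, h1, h2, h3, h4, h5, -, -⟩ := decomp (p := p) red (G := G)
  have h7 : nl e = ∑ β ∈ S, if β ⟨e, he.out⟩ = 1 then lβ β else 0 := h4 ⟨e, he.out⟩
  have h8 : nwt p red e 1 = ∑ β ∈ S, if β ⟨e, he.out⟩ = 1 then wβ β else 0 := by
    rw [nwt_sum]
    exact h5 ⟨e, he.out⟩
  rw [h7, h8]
  push_cast
  rw [Finset.mul_sum, Finset.mul_sum]
  refine Finset.sum_le_sum fun β hβ => ?_
  split_ifs with h9
  · obtain ⟨B, hB, rfl⟩ := h1 β hβ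
    rw [← (h3 B).1, ← (h3 B).2]
    exact h B hB h9
  · simp

theorem nwt_pow {G ι : Type} [Group G] [Finite G] [Fintype ι] {e : G → F} (he : CI p red e)
    [Fact (IsClassFun e)] [Fact (IsClassFun (tens fun _ : ι => e))] :
    nwt p red (tens fun _ : ι => e) 1 = nwt p red e 1 ^ Fintype.card ι := by
  have h1 := wtot_pow (ι := ι) he
  rw [wtot_nwt, wtot_nwt, mul_pow, Nat.card_fun, Nat.card_eq_fintype_card (α := ι)] at h1
  exact Nat.eq_of_mul_eq_mul_right (Nat.pow_pos Nat.card_pos) h1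

/-- the closure property of families under powers -/
def PowClosed {F : Type} [Field F] (Y : ∀ (G : Type) [Group G], ((G → F) → F) → Prop) : Prop :=
  ∀ (G : Type) [Group G] [Finite G] (B : (G → F) → F), IsBlock B → Y G B → ∀ n₀ : ℕ,
    ∃ n, n₀ ≤ n ∧ ∀ B' : ((Fin n → G) → F) → F, IsBlock B' → OverPow B B' → Y (Fin n → G) B'

/-- **Families of blocks: approximate inequalities, upper bounds for `l(B)`.** -/
theorem fam_le (Y : ∀ (G : Type) [Group G], ((G → F) → F) → Prop) (hY : PowClosed Y) :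
    (∀ (G : Type) [Group G] [Finite G] (B : (G → F) → F), IsBlock B → Y G B →
      numIrrBlock B ≤ numWt p red B) ↔
    ∀ ε : ℝ, 0 < ε → ∃ C : ℝ, ∀ (G : Type) [Group G] [Finite G] (B : (G → F) → F), IsBlock B →
      Y G B → (numIrrBlock B : ℝ) ≤ C * (Nat.card G : ℝ) ^ ε * numWt p red B := by
  have hp : p.Prime := Fact.out
  constructor
  · intro h ε hε
    refine ⟨1, fun G _ _ B hB hYB => ?_⟩
    have h1 : (numIrrBlock B : ℝ) ≤ numWt p red B := by exact_mod_cast h G B hB hYB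
    have h2 : (1 : ℝ) ≤ (Nat.card G : ℝ) ^ ε := by
      refine Real.one_le_rpow ?_ hε.le
      exact_mod_cast one_le_cardG G
    rw [one_mul]
    exact h1.trans (le_mul_of_one_le_left (Nat.cast_nonneg _) h2)
  · intro h G _ _ B hB hYB
    obtain ⟨e, he, hi, h1, h2⟩ := isolate' red hB
    have : Fact (IsClassFun e) := ⟨he.cls⟩
    rw [← h1, ← h2]
    refine lim_le _ _ (Nat.card G) (one_le_cardG G) fun ε hε => ?_
    obtain ⟨C, hC⟩ := h ε hε
    refine ⟨C, fun n₀ => ?_⟩
    obtain ⟨n, hn, hn2⟩ := hY G B hB hYB n₀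
    refine ⟨n, hn, ?_⟩
    have hcl : Fact (IsClassFun (tens fun _ : Fin n => e)) := ⟨cls_tens he.cls⟩
    have h3 := lin_sum (p := p) red 1 (C * (Nat.card (Fin n → G) : ℝ) ^ ε)
      (tens fun _ : Fin n => e) fun B' hB' h4 => by
        rw [one_mul]
        exact hC (Fin n → G) B' hB' (hn2 B' hB' (overpow_of_one p hi hB' h4))
    rw [one_mul, nl_pow he, nwt_pow red he, Fintype.card_fin, card_powF] at h3
    push_cast at h3
    exact h3

/-- **Families of blocks: approximate inequalities, lower bounds for `l(B)`.** -/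
theorem fam_ge (Y : ∀ (G : Type) [Group G], ((G → F) → F) → Prop) (hY : PowClosed Y) :
    (∀ (G : Type) [Group G] [Finite G] (B : (G → F) → F), IsBlock B → Y G B →
      numWt p red B ≤ numIrrBlock B) ↔
    ∀ ε : ℝ, 0 < ε → ∃ C : ℝ, ∀ (G : Type) [Group G] [Finite G] (B : (G → F) → F), IsBlock B →
      Y G B → (numWt p red B : ℝ) ≤ C * (Nat.card G : ℝ) ^ ε * numIrrBlock B := by
  have hp : p.Prime := Fact.out
  constructor
  · intro h ε hε
    refine ⟨1, fun G _ _ B hB hYB => ?_⟩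
    have h1 : (numWt p red B : ℝ) ≤ numIrrBlock B := by exact_mod_cast h G B hB hYB
    have h2 : (1 : ℝ) ≤ (Nat.card G : ℝ) ^ ε := by
      refine Real.one_le_rpow ?_ hε.le
      exact_mod_cast one_le_cardG G
    rw [one_mul]
    exact h1.trans (le_mul_of_one_le_left (Nat.cast_nonneg _) h2)
  · intro h G _ _ B hB hYB
    obtain ⟨e, he, hi, h1, h2⟩ := isolate' red hB
    have : Fact (IsClassFun e) := ⟨he.cls⟩
    rw [← h1, ← h2]
    refine lim_le _ _ (Nat.card G) (one_le_cardG G) fun ε hε => ?_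
    obtain ⟨C, hC⟩ := h ε hε
    refine ⟨C, fun n₀ => ?_⟩
    obtain ⟨n, hn, hn2⟩ := hY G B hB hYB n₀
    refine ⟨n, hn, ?_⟩
    have hcl : Fact (IsClassFun (tens fun _ : Fin n => e)) := ⟨cls_tens he.cls⟩
    have h3 := lin_sum (p := p) red (-(C * (Nat.card (Fin n → G) : ℝ) ^ ε)) (-1)
      (tens fun _ : Fin n => e) fun B' hB' h4 => by
        have h5 := hC (Fin n → G) B' hB' (hn2 B' hB' (overpow_of_one p hi hB' h4))
        linarith
    rw [nl_pow he, nwt_pow red he, Fintype.card_fin, card_powF] at h3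
    push_cast at h3
    linarith

end Pool.Agent.E8helper60.AW
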