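import Pool.Agent.E8helper60.AW.Lp4
import Pool.Agent.Y63.NV.Final

/-!
# Blocks and the decomposition of the counts
-/

set_option autoImplicit false
set_option linter.unusedSectionVars false

open scoped Classical

noncomputable section

namespace Pool.Agent.E8helper60.AW

open Pool.Agent.Y63.NV Pool.Agent.Y487.NV Pool.Agent.Y63.NV.B48B
open Pool.Agent.Y63.AWC (IsIrreducibleCharacter pSubgroupSetoid)

variable {F : Type} [Field F] {G : Type} [Group G]

/-- `w(B)`: the number of conjugacy classes of weights of the block `B` -/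
def numWt (p : ℕ) (red : integralClosure ℤ ℂ →+* F) (B : (G → F) → F) : ℕ :=
  ∑ᶠ c : Quotient (pSubgroupSetoid p G), numWtBlock p red c.out.1 B

theorem bawc_def (p : ℕ) (red : integralClosure ℤ ℂ →+* F) :
    BAWC p red G ↔ ∀ B : (G → F) → F, IsBlock B → numIrrBlock B = numWt p red B := Iff.rfl

/-- the weighted sum over all subgroups and the sum over the classes -/
theorem wtot_sum [Finite G] (p : ℕ) (red : integralClosure ℤ ℂ →+* F) {z : G → F}
    (hz : IsClassFun z) (c : F) :
    wtot p red z c = Nat.card G * ∑ᶠ d : Quotient (pSubgroupSetoid p G),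
      Nw p red (d.out.1.subgroupOf (Subgroup.normalizer (d.out.1 : Set G))) (fun x => z x) c := by
  have : Fintype G := Fintype.ofFinite G
  let P : Type := {Q : Subgroup G // IsPGroup p Q}
  have hP : Finite P := inferInstanceAs (Finite {Q : Subgroup G // IsPGroup p Q})
  have : Fintype P := Fintype.ofFinite P
  let _act : MulAction G P :=
    { smul := fun g Q => ⟨Q.1.map (MulAut.conj g).toMonoidHom, Q.2.map _⟩
      one_smul := fun Q => by
        apply Subtype.ext
        change Q.1.map (MulAut.conj (1 : G)).toMonoidHom = Q.1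
        ext x
        simp [Subgroup.mem_map]
      mul_smul := fun g h Q => by
        apply Subtype.ext
        change Q.1.map (MulAut.conj (g * h)).toMonoidHom =
          (Q.1.map (MulAut.conj h).toMonoidHom).map (MulAut.conj g).toMonoidHom
        rw [Subgroup.map_map]
        congr 1
        ext x
        simp [mul_assoc] }
  have hsm : ∀ (g : G) (Q : P), (g • Q).1 = Q.1.map (MulAut.conj g).toMonoidHom := fun _ _ => rfl
  have h6 := orbit_sum (G := G) (Ω := P) (pSubgroupSetoid p G) (by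
    intro Q R
    change (∃ g : G, R.1 = Q.1.map (MulAut.conj g).toMonoidHom) ↔ _
    constructor
    · rintro ⟨g, hg⟩
      exact ⟨g, Subtype.ext (by rw [hsm, hg])⟩
    · rintro ⟨g, hg⟩
      exact ⟨g, by rw [← hg, hsm]⟩)
    (fun Q => Nw p red (Q.1.subgroupOf (Subgroup.normalizer (Q.1 : Set G))) (fun x => z x) c) (by
      rintro Q R ⟨g, hg⟩
      change Nw p red (Q.1.subgroupOf (Subgroup.normalizer (Q.1 : Set G))) (fun x => z x) c =
        Nw p red (R.1.subgroupOf (Subgroup.normalizer (R.1 : Set G))) (fun x => z x) c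
      rw [hg]
      exact nw_conj p red hz c g Q.1)
  have hstab : ∀ Q : P, Nat.card (MulAction.stabilizer G Q) =
      Nat.card (Subgroup.normalizer (Q.1 : Set G)) := by
    intro Q
    refine Nat.card_congr (Equiv.subtypeEquivRight fun g => ?_)
    rw [MulAction.mem_stabilizer_iff, Subtype.ext_iff, hsm, Subgroup.mem_normalizer_iff]
    constructor
    · intro h3 x
      constructor
      · intro hx
        have : g * x * g⁻¹ ∈ Q.1.map (MulAut.conj g).toMonoidHom := ⟨x, hx, rfl⟩
        rw [h3] at this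
        exact this
      · intro hx
        have hx' : g * x * g⁻¹ ∈ Q.1 := hx
        rw [← h3] at hx'
        obtain ⟨y, hy, hyx⟩ := hx'
        have : g * y * g⁻¹ = g * x * g⁻¹ := hyx
        have : y = x := by simpa using this
        rwa [← this]
    · intro h3
      ext x
      constructor
      · rintro ⟨y, hy, rfl⟩
        exact (h3 y).mp hy
      · intro hx
        refine ⟨g⁻¹ * x * g, (h3 _).mpr ?_, ?_⟩
        · have : g * (g⁻¹ * x * g) * g⁻¹ = x := by group
          rw [this]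
          exact hx
        · change g * (g⁻¹ * x * g) * g⁻¹ = x
          group
  have h7 : ∑ Q : P, Nat.card (MulAction.stabilizer G Q) *
      Nw p red (Q.1.subgroupOf (Subgroup.normalizer (Q.1 : Set G))) (fun x => z x) c =
      ∑ Q : P, Nat.card (Subgroup.normalizer (Q.1 : Set G)) *
      Nw p red (Q.1.subgroupOf (Subgroup.normalizer (Q.1 : Set G))) (fun x => z x) c :=
    Finset.sum_congr rfl fun Q _ => by rw [hstab Q]
  rw [h6, h7]
  unfold wtot wl
  have : Fintype (Subgroup G) := Fintype.ofFinite _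
  rw [finsum_eq_sum_of_fintype, ← Finset.sum_filter]
  exact Finset.sum_subtype (p := fun Q : Subgroup G => IsPGroup p Q)
      (Finset.univ.filter fun Q : Subgroup G => IsPGroup p Q) (by simp)
      (fun Q => Nat.card (Subgroup.normalizer (Q : Set G)) *
          Nw p red (Q.subgroupOf (Subgroup.normalizer (Q : Set G))) (fun x => z x) c)

theorem nwt_sum [Finite G] (p : ℕ) (red : integralClosure ℤ ℂ →+* F) {z : G → F}
    [hz : Fact (IsClassFun z)] (c : F) :
    nwt p red z c = ∑ᶠ d : Quotient (pSubgroupSetoid p G),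
      Nw p red (d.out.1.subgroupOf (Subgroup.normalizer (d.out.1 : Set G))) (fun x => z x) c := by
  have h1 := wtot_sum p red hz.out c
  rw [wtot_nwt, mul_comm] at h1
  exact Nat.eq_of_mul_eq_mul_left Nat.card_pos h1

variable [IsAlgClosed F] {p : ℕ} [Fact p.Prime] [CharP F p] (red : integralClosure ℤ ℂ →+* F)

/-- **The decomposition into blocks.** -/
theorem decomp [Finite G] : ∃ (S : Finset (CF G F → F)) (lβ wβ : (CF G F → F) → ℕ),
    (∀ β ∈ S, ∃ B : (G → F) → F, IsBlock B ∧ rs B = β) ∧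
    (∀ β, β ∉ S → lβ β = 0 ∧ wβ β = 0) ∧
    (∀ B : (G → F) → F, numIrrBlock B = lβ (rs B) ∧ numWt p red B = wβ (rs B)) ∧
    (∀ e : CF G F, nl e.1 = ∑ β ∈ S, if β e = 1 then lβ β else 0) ∧
    (∀ e : CF G F, ∑ᶠ d : Quotient (pSubgroupSetoid p G),
      Nw p red (d.out.1.subgroupOf (Subgroup.normalizer (d.out.1 : Set G))) (fun x => e.1 x) 1 =
        ∑ β ∈ S, if β e = 1 then wβ β else 0) ∧
    (∀ e : CF G F, (∀ β ∈ S, β e = 0 ∨ β e = 1) → CI p red e.1) ∧
    (∀ φ : G → F, IsIrrTrace φ → ∃ β ∈ S, ∀ (f : CF G F) (x : G),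
      ∑ᶠ g : G, f.1 g * φ (g * x) = β f * φ x) := by
  have : Fintype G := Fintype.ofFinite G
  have h0 : S_IRR := Pool.Agent.Y914.NV.irr
  -- the irreducible traces
  let X : Type := {φ : G → F // IsIrrTrace φ}
  have hX : Finite X := (h0 F G).1.to_subtype
  have hBX : ∀ φ : X, (∃ x, φ.1 x ≠ 0) ∧ ∃ B : (G → F) → F, IsBlock B ∧
      ∀ f : G → F, IsClassFun f → ∀ x, ∑ᶠ g, f g * φ.1 (g * x) = B f * φ.1 x :=
    fun φ => schur' F G φ.1 φ.2
  choose hne BX hBX1 hBX2 using hBX
  -- the weights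
  let P : Type := {Q : Subgroup G // IsPGroup p Q}
  have hP : Finite P := inferInstanceAs (Finite {Q : Subgroup G // IsPGroup p Q})
  have : Fintype P := Fintype.ofFinite P
  let Y : P → Type := fun Q => {χ : Subgroup.normalizer (Q.1 : Set G) → ℂ //
    IsWt p (Q.1.subgroupOf (Subgroup.normalizer (Q.1 : Set G))) χ}
  have hY : ∀ Q, Finite (Y Q) := fun Q =>
    ((h0 ℂ (Subgroup.normalizer (Q.1 : Set G))).1.subset (fun χ h => h.irr)).to_subtype
  let BY : ∀ Q : P, Y Q → (G → F) → F := fun Q χ f => centralValue red χ.1 (fun x => f x)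
  have hBY : ∀ Q χ, IsBlock (BY Q χ) := fun Q χ => wblk' p F red G Q.1 χ.1 Q.2 χ.2
  have hfX : Fintype X := Fintype.ofFinite X
  have hfY : ∀ Q, Fintype (Y Q) := fun Q => Fintype.ofFinite (Y Q)
  let rX : X → (CF G F → F) := fun φ => rs (BX φ)
  let rY : ∀ Q, Y Q → (CF G F → F) := fun Q χ => rs (BY Q χ)
  let S : Finset (CF G F → F) := Finset.univ.image rX ∪
    (Finset.univ : Finset P).biUnion (fun Q => Finset.univ.image (rY Q))
  have hSX : ∀ φ, rX φ ∈ S := fun φ =>
    Finset.mem_union_left _ (Finset.mem_image_of_mem _ (Finset.mem_univ _))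
  have hSY : ∀ Q χ, rY Q χ ∈ S := fun Q χ =>
    Finset.mem_union_right _ (Finset.mem_biUnion.2 ⟨Q, Finset.mem_univ _,
      Finset.mem_image_of_mem _ (Finset.mem_univ _)⟩)
  have hS : ∀ β ∈ S, ∃ B : (G → F) → F, IsBlock B ∧ rs B = β := by
    intro β hβ
    rcases Finset.mem_union.1 hβ with h | h
    · obtain ⟨φ, -, rfl⟩ := Finset.mem_image.1 h
      exact ⟨BX φ, hBX1 φ, rfl⟩
    · obtain ⟨Q, -, h⟩ := Finset.mem_biUnion.1 h
      obtain ⟨χ, -, rfl⟩ := Finset.mem_image.1 h
      exact ⟨BY Q χ, hBY Q χ, rfl⟩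
  have hfQ : Fintype (Quotient (pSubgroupSetoid p G)) := Fintype.ofFinite _
  refine ⟨S, fun β => Nat.card {φ : X // rX φ = β},
    fun β => ∑ᶠ d : Quotient (pSubgroupSetoid p G), Nat.card {χ : Y d.out // rY d.out χ = β},
    hS, ?_, ?_, ?_, ?_, ?_, fun φ hφ => ⟨_, hSX ⟨φ, hφ⟩, fun f x => hBX2 ⟨φ, hφ⟩ f.1 f.2 x⟩⟩
  · intro β hβ
    constructor
    · have : IsEmpty {φ : X // rX φ = β} := ⟨fun φ => hβ (φ.2 ▸ hSX φ.1)⟩
      exact Nat.card_of_isEmpty
    · refine (finsum_congr fun d => ?_).trans finsum_zero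
      have : IsEmpty {χ : Y d.out // rY d.out χ = β} := ⟨fun χ => hβ (χ.2 ▸ hSY _ χ.1)⟩
      exact Nat.card_of_isEmpty
  · intro B
    constructor
    · unfold numIrrBlock
      refine Nat.card_congr
        { toFun := fun φ => ⟨⟨φ.1, φ.2.1⟩, ?_⟩
          invFun := fun φ => ⟨φ.1.1, φ.1.2, ?_⟩
          left_inv := fun φ => rfl
          right_inv := fun φ => rfl }
      · funext f
        obtain ⟨x, hx⟩ := hne ⟨φ.1, φ.2.1⟩
        have h4 := hBX2 ⟨φ.1, φ.2.1⟩ f.1 f.2 x
        have h5 := φ.2.2 f.1 f.2 x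
        exact mul_right_cancel₀ hx (h4.symm.trans h5)
      · intro f hf x
        have h4 := hBX2 φ.1 f hf x
        have h5 : BX φ.1 f = B f := congrFun φ.2 ⟨f, hf⟩
        rw [← h5]
        exact h4
    · unfold numWt
      refine finsum_congr fun d => ?_
      unfold numWtBlock
      refine Nat.card_congr
        { toFun := fun χ => ⟨⟨χ.1, χ.2.1⟩, ?_⟩
          invFun := fun χ => ⟨χ.1.1, χ.1.2, ?_⟩
          left_inv := fun χ => rfl
          right_inv := fun χ => rfl }
      · funext f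
        exact χ.2.2 f.1 f.2
      · intro w hw
        exact congrFun χ.2 ⟨w, hw⟩
  · intro e
    have h1 : nl e.1 = Nat.card {φ : X // rX φ e = 1} := by
      unfold nl LL
      refine Nat.card_congr
        { toFun := fun φ => ⟨⟨φ.1, φ.2.1⟩, ?_⟩
          invFun := fun φ => ⟨φ.1.1, φ.1.2, ?_⟩
          left_inv := fun φ => rfl
          right_inv := fun φ => rfl }
      · obtain ⟨x, hx⟩ := hne ⟨φ.1, φ.2.1⟩
        have h4 := hBX2 ⟨φ.1, φ.2.1⟩ e.1 e.2 x
        have h5 := φ.2.2 x
        change BX ⟨φ.1, φ.2.1⟩ e.1 = 1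
        apply mul_right_cancel₀ hx
        rw [one_mul]
        exact h4.symm.trans h5
      · intro x
        have h4 := hBX2 φ.1 e.1 e.2 x
        have h5 : BX φ.1 e.1 = 1 := φ.2
        rw [h5, one_mul] at h4
        exact h4
    rw [h1]
    exact card_fib rX S hSX (fun β => β e = 1)
  · intro e
    have e6 : ∀ d : Quotient (pSubgroupSetoid p G),
        Nw p red (d.out.1.subgroupOf (Subgroup.normalizer (d.out.1 : Set G)))
          (fun x => e.1 x) 1 =
        ∑ β ∈ S, if β e = 1 then Nat.card {χ : Y d.out // rY d.out χ = β} else 0 := by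
      intro d
      have e4 : Nw p red (d.out.1.subgroupOf (Subgroup.normalizer (d.out.1 : Set G)))
          (fun x => e.1 x) 1 = Nat.card {χ : Y d.out // rY d.out χ e = 1} := by
        unfold Nw
        exact Nat.card_congr
          { toFun := fun χ => ⟨⟨χ.1, χ.2.1⟩, χ.2.2⟩
            invFun := fun χ => ⟨χ.1.1, χ.1.2, χ.2⟩
            left_inv := fun χ => rfl
            right_inv := fun χ => rfl }
      rw [e4]
      exact card_fib (rY d.out) S (hSY d.out) (fun β => β e = 1)
    rw [finsum_eq_sum_of_fintype, Finset.sum_congr rfl fun d _ => e6 d, Finset.sum_comm]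
    refine Finset.sum_congr rfl fun β hβ => ?_
    by_cases h : β e = 1
    · simp only [if_pos h]
      rw [finsum_eq_sum_of_fintype]
    · simp only [if_neg h]
      rw [Finset.sum_const_zero]
  · intro e he
    refine ⟨e.2, fun φ hφ => ?_, fun Q χ hQ hχ => ?_⟩
    · have h1 := hBX2 ⟨φ, hφ⟩ e.1 e.2
      rcases he _ (hSX ⟨φ, hφ⟩) with h2 | h2
      · left
        intro x
        have h3 : BX ⟨φ, hφ⟩ e.1 = 0 := h2
        rw [h1, h3, zero_mul]
      · right
        intro x
        have h3 : BX ⟨φ, hφ⟩ e.1 = 1 := h2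
        rw [h1, h3, one_mul]
    · exact he _ (hSY ⟨Q, hQ⟩ ⟨χ, hχ⟩)

/-- separating elements -/
theorem sep_blocks [Finite G] (S : Finset (CF G F → F))
    (hS : ∀ β ∈ S, ∃ B : (G → F) → F, IsBlock B ∧ rs B = β) (β₀ : CF G F → F) (h0 : β₀ ∈ S) :
    ∃ e : CF G F, β₀ e = 1 ∧ ∀ β ∈ S, β ≠ β₀ → β e = 0 := by
  have : Fintype G := Fintype.ofFinite G
  have h1 : ∀ T : Finset (CF G F → F), T ⊆ S → ∃ e : CF G F, β₀ e = 1 ∧
      ∀ β ∈ T, β ≠ β₀ → β e = 0 := by
    intro T
    induction T using Finset.induction_on with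
    | empty =>
      intro _
      obtain ⟨B, hB, rfl⟩ := hS β₀ h0
      refine ⟨⟨Pi.single 1 1, ?_⟩, hB.one, fun β hβ => absurd hβ (Finset.notMem_empty β)⟩
      have := Pool.Agent.Y405.NV.class_const (H := G) (1 : F)
      rwa [one_smul] at this
    | insert β₁ T hβ₁ ih =>
      intro hT
      obtain ⟨e, he1, he2⟩ := ih ((Finset.subset_insert _ _).trans hT)
      by_cases h2 : β₁ = β₀
      · refine ⟨e, he1, fun β hβ hne => ?_⟩
        rcases Finset.mem_insert.1 hβ with h3 | h3
        · exact absurd (h3.trans h2) hne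
        · exact he2 β h3 hne
      · obtain ⟨f, hf⟩ := Function.ne_iff.1 h2
        obtain ⟨B₀, hB₀, h3⟩ := hS β₀ h0
        obtain ⟨B₁, hB₁, h4⟩ := hS β₁ (hT (Finset.mem_insert_self _ _))
        have h5 : β₀ f = B₀ f.1 := by rw [← h3]; rfl
        have h6 : β₁ f = B₁ f.1 := by rw [← h4]; rfl
        have hd : B₀ f.1 - B₁ f.1 ≠ 0 := by
          rw [← h5, ← h6, sub_ne_zero]
          exact fun h => hf h.symm
        have hc1 : ∀ c : F, IsClassFun (c • (Pi.single 1 1 : G → F)) :=
          Pool.Agent.Y405.NV.class_const (H := G)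
        have hone : IsClassFun (Pi.single 1 1 : G → F) := by
          have := hc1 1
          rwa [one_smul] at this
        have hadd : IsClassFun (f.1 + (-(B₁ f.1)) • (Pi.single 1 1 : G → F)) := by
          intro g x
          rw [Pi.add_apply, Pi.add_apply, f.2 g x, hc1 _ g x]
        have hsm : IsClassFun ((B₀ f.1 - B₁ f.1)⁻¹ •
            (f.1 + (-(B₁ f.1)) • (Pi.single 1 1 : G → F))) := by
          intro g x
          rw [Pi.smul_apply, Pi.smul_apply, hadd g x]
        have hval : ∀ B : (G → F) → F, IsBlock B → B ((B₀ f.1 - B₁ f.1)⁻¹ •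
            (f.1 + (-(B₁ f.1)) • (Pi.single 1 1 : G → F))) =
              (B₀ f.1 - B₁ f.1)⁻¹ * (B f.1 - B₁ f.1) := by
          intro B hB
          rw [hB.smul _ _ hadd, hB.add _ _ f.2 (hc1 _), hB.smul _ _ hone, hB.one]
          ring
        have hcv : IsClassFun (conv e.1 ((B₀ f.1 - B₁ f.1)⁻¹ •
            (f.1 + (-(B₁ f.1)) • (Pi.single 1 1 : G → F)))) :=
          Pool.Agent.Y705.NV.conv_classFun e.2 hsm
        refine ⟨⟨_, hcv⟩, ?_, fun β hβ hne => ?_⟩
        · have h7 : β₀ ⟨_, hcv⟩ = B₀ (conv e.1 ((B₀ f.1 - B₁ f.1)⁻¹ •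
            (f.1 + (-(B₁ f.1)) • (Pi.single 1 1 : G → F)))) := by rw [← h3]; rfl
          have h8 : β₀ e = B₀ e.1 := by rw [← h3]; rfl
          rw [h7, hB₀.mul _ _ e.2 hsm, hval B₀ hB₀, inv_mul_cancel₀ hd, ← h8, he1, mul_one]
        · obtain ⟨B, hB, h9⟩ := hS β (hT hβ)
          have h7 : β ⟨_, hcv⟩ = B (conv e.1 ((B₀ f.1 - B₁ f.1)⁻¹ •
            (f.1 + (-(B₁ f.1)) • (Pi.single 1 1 : G → F)))) := by rw [← h9]; rfl
          have h8 : β e = B e.1 := by rw [← h9]; rfl
          rw [h7, hB.mul _ _ e.2 hsm, hval B hB, ← h8]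
          rcases Finset.mem_insert.1 hβ with h10 | h10
          · have h11 : B f.1 = B₁ f.1 := by
              rw [← h6, ← h10, ← h9]
              rfl
            rw [h11, sub_self, mul_zero, mul_zero]
          · rw [he2 β h10 hne, zero_mul]
  exact h1 S (Finset.Subset.refl S)

end Pool.Agent.E8helper60.AW
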