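import Pool.Agent.E8helper60.AW.Stm
import Pool.Agent.Y809.NV.ClifL

/-!
# Characters of defect zero over a normal subgroup of prime index `q ≠ p`
-/

open scoped BigOperators Classical
open Pool.Agent.Helper884.IC

set_option autoImplicit false
set_option linter.unusedSectionVars false

noncomputable section

namespace Pool.Agent.E8helper60.AW

open Pool.Agent.Y63.AWC hiding ind
open Pool.Agent.Y564.NV (st_cases iv_iff)
open Pool.Agent.Y809.NV (nw_bot cv_eq)

/-- twisting an irreducible character by a linear character -/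
theorem irr_twist {X : Type} [Group X] (lam : X →* ℂˣ) {chi : X → ℂ} (h : IsIrrChar chi) :
    IsIrrChar (fun x => (lam x : ℂ) * chi x) := by
  obtain ⟨V, i1, i2, i3, ρ, hρ, rfl⟩ := h
  let ρ' : Representation ℂ X V :=
    { toFun := fun x => (lam x : ℂ) • ρ x
      map_one' := by simp
      map_mul' := fun x y => by
        rw [map_mul, map_mul, Units.val_mul, smul_mul_smul_comm] }
  have hρ' : ∀ x, ρ' x = (lam x : ℂ) • ρ x := fun _ => rfl
  refine ⟨V, i1, i2, i3, ρ', ?_, ?_⟩
  · let o : Subrepresentation ρ' ≃o Subrepresentation ρ :=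
      { toFun := fun s => ⟨s.toSubmodule, fun g v hv => by
          have h2 := s.apply_mem_toSubmodule g hv
          rw [hρ', LinearMap.smul_apply] at h2
          have h3 := s.toSubmodule.smul_mem ((lam g : ℂ))⁻¹ h2
          rwa [smul_smul, inv_mul_cancel₀ (Units.ne_zero _), one_smul] at h3⟩
        invFun := fun s => ⟨s.toSubmodule, fun g v hv => by
          rw [hρ', LinearMap.smul_apply]
          exact s.toSubmodule.smul_mem _ (s.apply_mem_toSubmodule g hv)⟩
        left_inv := fun s => rfl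
        right_inv := fun s => rfl
        map_rel_iff' := Iff.rfl }
    exact o.isSimpleOrder_iff.2 hρ
  · funext x
    change _ = LinearMap.trace ℂ V ((lam x : ℂ) • ρ x)
    rw [map_smul]
    rfl

variable {X : Type} [Group X] [Fintype X] (M : Subgroup X) [hM : M.Normal]
  {p q : ℕ} [hp : Fact p.Prime] [hq : Fact q.Prime]

/-- a linear character with kernel `M` -/
theorem exists_lam (hr : Nat.card (X ⧸ M) = q) : ∃ lam : X →* ℂˣ, ∀ x, lam x = 1 ↔ x ∈ M := by
  have hcyc : IsCyclic (X ⧸ M) := isCyclic_of_prime_card (p := q) hr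
  let _ : CommGroup (X ⧸ M) := hcyc.commGroup
  have hnt : Nontrivial (X ⧸ M) := by
    rw [← Finite.one_lt_card_iff_nontrivial, hr]
    exact hq.out.one_lt
  obtain ⟨a, ha⟩ := exists_ne (1 : X ⧸ M)
  obtain ⟨φ, hφ⟩ := CommGroup.exists_apply_ne_one_of_hasEnoughRootsOfUnity (X ⧸ M) ℂ ha
  have hk : φ.ker = ⊥ := by
    have h1 : Nat.card φ.ker ∣ q := hr ▸ Subgroup.card_subgroup_dvd_card φ.ker
    rcases (Nat.dvd_prime hq.out).1 h1 with h | h
    · exact Subgroup.card_eq_one.1 h
    · exfalso
      have h2 : φ.ker = ⊤ := (Subgroup.card_eq_iff_eq_top _).1 (h.trans hr.symm)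
      apply hφ
      have h3 : a ∈ φ.ker := by rw [h2]; trivial
      exact h3
  refine ⟨φ.comp (QuotientGroup.mk' M), fun x => ?_⟩
  rw [MonoidHom.comp_apply, ← MonoidHom.mem_ker, hk, Subgroup.mem_bot]
  exact QuotientGroup.eq_one_iff x

/-- the norm of the restriction -/
theorem norm_res {lam : X →* ℂˣ} (hl : ∀ x, lam x = 1 ↔ x ∈ M)
    (hr : Nat.card X = q * Nat.card M) (hlq : ∀ x, lam x ^ q = 1) {chi : X → ℂ} :
    B (res M chi) (res M chi) =
      ∑ k ∈ Finset.range q, B chi (fun x => ((lam ^ k) x : ℂ) * chi x) := by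
  have h1 : ∀ x : X, ∑ k ∈ Finset.range q, (((lam ^ k) x⁻¹ : ℂˣ) : ℂ) = if x ∈ M then (q : ℂ) else 0 := by
    intro x
    have h2 : ∀ k, (((lam ^ k) x⁻¹ : ℂˣ) : ℂ) = ((lam x⁻¹ : ℂˣ) : ℂ) ^ k := fun k => by
      rw [MonoidHom.pow_apply, Units.val_pow_eq_pow_val]
    simp_rw [h2]
    by_cases hx : x ∈ M
    · rw [if_pos hx, (hl _).2 (M.inv_mem hx)]
      simp
    · rw [if_neg hx]
      have h3 : ((lam x⁻¹ : ℂˣ) : ℂ) ≠ 1 := by
        intro h
        apply hx
        have h4 : lam x⁻¹ = 1 := Units.ext h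
        have h5 := (hl _).1 h4
        exact (inv_mem_iff).1 h5
      rw [geom_sum_eq h3, ← Units.val_pow_eq_pow_val, hlq, Units.val_one, sub_self, zero_div]
  unfold B
  rw [← Finset.mul_sum, Finset.sum_comm]
  have h6 : ∀ x : X, ∑ k ∈ Finset.range q, chi x * ((((lam ^ k) x⁻¹ : ℂˣ) : ℂ) * chi x⁻¹) =
      (if x ∈ M then (q : ℂ) * (chi x * chi x⁻¹) else 0) := by
    intro x
    have h7 : ∀ k, chi x * ((((lam ^ k) x⁻¹ : ℂˣ) : ℂ) * chi x⁻¹) =
        (((lam ^ k) x⁻¹ : ℂˣ) : ℂ) * (chi x * chi x⁻¹) := fun k => by ring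
    rw [Finset.sum_congr rfl fun k _ => h7 k, ← Finset.sum_mul, h1]
    split_ifs <;> simp
  rw [Finset.sum_congr rfl fun x _ => h6 x,
    sum_M M (fun x => if x ∈ M then (q : ℂ) * (chi x * chi x⁻¹) else 0) (fun g hg => if_neg hg)]
  have h8 : ∀ m : M, (if (m : X) ∈ M then (q : ℂ) * (chi m * chi (m : X)⁻¹) else 0) =
      q * (res M chi m * res M chi m⁻¹) := by
    intro m
    rw [if_pos m.2]
    rfl
  rw [Finset.sum_congr rfl fun m _ => h8 m, ← Finset.mul_sum, hr]
  have hq0 : (q : ℂ) ≠ 0 := by exact_mod_cast hq.out.ne_zero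
  have hM0 := cardG_ne (G := M)
  push_cast
  field_simp

/-- invariant characters extend: the multiplicity is one -/
theorem mult_one (hr : Nat.card (X ⧸ M) = q) {theta : M → ℂ} (h : IsIrrChar theta)
    (hst : Nat.card (St M theta) = Nat.card X) {chi : X → ℂ} (hc : IsIrrChar chi)
    (h1 : mult M chi theta ≠ 0) : mult M chi theta = 1 := by
  have hr' : Nat.card X = q * Nat.card M := by
    rw [Subgroup.card_eq_card_quotient_mul_card_subgroup M, hr]
  obtain ⟨lam, hl⟩ := exists_lam M hr
  have hlq : ∀ x, lam x ^ q = 1 := by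
    intro x
    rw [← map_pow, hl, ← QuotientGroup.eq_one_iff, QuotientGroup.mk_pow, ← hr]
    exact pow_card_eq_one'
  -- the orbit is a singleton
  have hO : Orb M theta = {theta} := by
    have h2 := card_Orb_mul M theta
    rw [hst] at h2
    have h3 : (Orb M theta).card = 1 := Nat.eq_of_mul_eq_mul_right Nat.card_pos (h2.trans (one_mul _).symm)
    obtain ⟨t, ht⟩ := Finset.card_eq_one.1 h3
    have h4 : theta ∈ Orb M theta := Finset.mem_image.mpr ⟨1, Finset.mem_univ _, cj_one M theta⟩
    rw [ht, Finset.mem_singleton] at h4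
    rw [ht, h4]
  have hsup := support_eq M hc h h1
  have hres : res M chi = (mult M chi theta : ℂ) • theta := by
    rw [res_eq M hc]
    rw [← Finset.sum_filter_of_ne (p := fun t => mult M chi t ≠ 0), hsup, hO, Finset.sum_singleton]
    intro t _ ht hz
    apply ht
    simp [hz]
  have hn := norm_res M hl hr' hlq (chi := chi)
  have hB1 : B (res M chi) (res M chi) = ((mult M chi theta ^ 2 : ℕ) : ℂ) := by
    rw [hres, B_smul_left, B_comm, B_smul_left, B_irr h h, if_pos rfl]
    push_cast
    ring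
  rw [hB1] at hn
  have hterm : ∀ k, B chi (fun x => ((lam ^ k) x : ℂ) * chi x) =
      if chi = (fun x => ((lam ^ k) x : ℂ) * chi x) then 1 else 0 := fun k =>
    B_irr hc (irr_twist (lam ^ k) hc)
  rw [Finset.sum_congr rfl fun k _ => hterm k, Finset.sum_boole] at hn
  have hn' : mult M chi theta ^ 2 =
      ((Finset.range q).filter fun k => chi = (fun x => ((lam ^ k) x : ℂ) * chi x)).card := by
    exact_mod_cast hn
  by_cases hv : ∀ x, x ∉ M → chi x = 0
  · -- all twists agree
    have hall : ((Finset.range q).filter fun k => chi = (fun x => ((lam ^ k) x : ℂ) * chi x)) =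
        Finset.range q := by
      rw [Finset.filter_eq_self]
      intro k _
      funext x
      by_cases hx : x ∈ M
      · rw [MonoidHom.pow_apply, (hl x).2 hx, one_pow, Units.val_one, one_mul]
      · rw [hv x hx, mul_zero]
    rw [hall, Finset.card_range] at hn'
    exfalso
    have h5 : mult M chi theta ∣ q := by
      rw [← hn', sq]
      exact Dvd.intro _ rfl
    rcases (Nat.dvd_prime hq.out).1 h5 with h6 | h6
    · rw [h6] at hn'
      exact hq.out.one_lt.ne (by simpa using hn')
    · rw [h6] at hn'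
      have := hq.out.one_lt
      nlinarith
  · push Not at hv
    obtain ⟨x, hx, hx0⟩ := hv
    have hone : ((Finset.range q).filter fun k => chi = (fun x => ((lam ^ k) x : ℂ) * chi x)) =
        {0} := by
      ext k
      rw [Finset.mem_filter, Finset.mem_range, Finset.mem_singleton]
      constructor
      · rintro ⟨hk, hk2⟩
        by_contra hk0
        have h6 := congrFun hk2 x
        have h7 : ((lam ^ k) x : ℂ) = 1 := by
          have : ((lam ^ k) x : ℂ) * chi x = 1 * chi x := by rw [one_mul]; exact h6.symm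
          exact mul_right_cancel₀ hx0 this
        rw [MonoidHom.pow_apply] at h7
        have h8 : lam x ^ k = 1 := Units.ext h7
        have h9 : orderOf (lam x) ∣ k := orderOf_dvd_of_pow_eq_one h8
        have h10 : orderOf (lam x) ∣ q := orderOf_dvd_of_pow_eq_one (hlq x)
        rcases (Nat.dvd_prime hq.out).1 h10 with h11 | h11
        · exact hx ((hl x).1 (orderOf_eq_one_iff.1 h11))
        · rw [h11] at h9
          exact absurd (Nat.le_of_dvd (Nat.pos_of_ne_zero hk0) h9) (not_le.2 hk)
      · rintro rfl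
        refine ⟨hq.out.pos, ?_⟩
        funext y
        simp
    rw [hone, Finset.card_singleton] at hn'
    nlinarith [Nat.pos_of_ne_zero h1]

/-- the two types of characters of `M` -/
theorem over_card (hr : Nat.card (X ⧸ M) = q) {theta : M → ℂ} (h : IsIrrChar theta) :
    (Nat.card (St M theta) = Nat.card X ∧ (Orb M theta).card = 1 ∧
      ((Irr X).filter fun chi => mult M chi theta ≠ 0).card = q) ∨
    (Nat.card (St M theta) ≠ Nat.card X ∧ (Orb M theta).card = q ∧
      ((Irr X).filter fun chi => mult M chi theta ≠ 0).card = 1) := by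
  have hr' : Nat.card X = q * Nat.card M := by
    rw [Subgroup.card_eq_card_quotient_mul_card_subgroup M, hr]
  rcases st_cases M hr' h with ⟨h1, h2, h3⟩ | ⟨h1, h2, h3⟩
  · right
    refine ⟨?_, h1, (unique_over M h h3).1⟩
    rw [h3, hr']
    have := hq.out.one_lt
    have h9 : 0 < Nat.card M := Nat.card_pos
    intro h10
    nlinarith
  · left
    refine ⟨h3, h1, ?_⟩
    rw [Finset.card_filter]
    refine Eq.trans (Finset.sum_congr rfl fun chi hc => ?_) h2
    by_cases h4 : mult M chi theta = 0
    · rw [h4, if_neg (by simp)]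
      rfl
    · rw [if_pos h4, mult_one M hr h h3 (mem_Irr.1 hc) h4, one_pow]

theorem mult_one' (hr : Nat.card (X ⧸ M) = q) {theta : M → ℂ} (h : IsIrrChar theta)
    {chi : X → ℂ} (hc : IsIrrChar chi) (h1 : mult M chi theta ≠ 0) : mult M chi theta = 1 := by
  have hr' : Nat.card X = q * Nat.card M := by
    rw [Subgroup.card_eq_card_quotient_mul_card_subgroup M, hr]
  rcases st_cases M hr' h with ⟨-, -, h3⟩ | ⟨-, -, h3⟩
  · exact le_antisymm ((unique_over M h h3).2 chi (mem_Irr.2 hc)) (Nat.pos_of_ne_zero h1)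
  · exact mult_one M hr h h3 hc h1

/-- defect zero is inherited -/
theorem dz_iff (hqp : q ≠ p) (hr : Nat.card (X ⧸ M) = q) {theta : M → ℂ} (h : IsIrrChar theta)
    {chi : X → ℂ} (hc : IsIrrChar chi) (h1 : mult M chi theta ≠ 0) : DZ p chi ↔ DZ p theta := by
  have hr' : Nat.card X = q * Nat.card M := by
    rw [Subgroup.card_eq_card_quotient_mul_card_subgroup M, hr]
  obtain ⟨n, hn0, hn⟩ := deg_nat hc
  obtain ⟨d, hd0, hd⟩ := deg_nat h
  have hdeg := deg_eq M hc h h1 hn hd
  rw [mult_one' M hr h hc h1, mul_one] at hdeg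
  have hqf : q.factorization p = 0 := by
    rw [hq.out.factorization, Finsupp.single_eq_of_ne (Ne.symm hqp)]
  have hX : (Nat.card X).factorization p = (Nat.card M).factorization p := by
    rw [hr', Nat.factorization_mul hq.out.ne_zero Nat.card_pos.ne', Finsupp.add_apply, hqf, zero_add]
  have hO : ((Orb M theta).card).factorization p = 0 := by
    rcases over_card M hr h with h2 | h2
    · rw [h2.2.1, Nat.factorization_one]; rfl
    · rw [h2.2.1, hqf]
  have hO0 : (Orb M theta).card ≠ 0 := by
    rcases over_card M hr h with h2 | h2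
    · rw [h2.2.1]; exact one_ne_zero
    · rw [h2.2.1]; exact hq.out.ne_zero
  have hnf : n.factorization p = d.factorization p := by
    rw [hdeg, Nat.factorization_mul hO0 hd0.ne', Finsupp.add_apply, hO, zero_add]
  constructor
  · rintro ⟨n', hn', hf⟩
    have : n' = n := by exact_mod_cast hn'.symm.trans hn
    subst this
    exact ⟨d, hd, by rw [← hnf, hf, hX]⟩
  · rintro ⟨d', hd', hf⟩
    have : d' = d := by exact_mod_cast hd'.symm.trans hd
    subst this
    exact ⟨n, hn, by rw [hnf, hf, hX]⟩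

/-- **The count.** -/
theorem count_q (hqp : q ≠ p) (hr : Nat.card (X ⧸ M) = q) (P : (X → ℂ) → Prop)
    (Q : (M → ℂ) → Prop)
    (hPQ : ∀ (chi : X → ℂ) (theta : M → ℂ), IsIrrChar chi → IsIrrChar theta →
      mult M chi theta ≠ 0 → (P chi ↔ Q theta)) :
    q * ((Irr X).filter fun chi => DZ p chi ∧ P chi).card =
      ((Irr M).filter fun theta => DZ p theta ∧ Q theta).card + (q ^ 2 - 1) *
      ((Irr M).filter fun theta => (DZ p theta ∧ Q theta) ∧
        Nat.card (St M theta) = Nat.card X).card := by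
  set S := (Irr X).filter fun chi => DZ p chi ∧ P chi with hS
  set T := (Irr M).filter fun theta => DZ p theta ∧ Q theta with hT
  set a : (M → ℂ) → ℕ := fun theta => if Nat.card (St M theta) = Nat.card X then q else 1 with ha
  have hmem : ∀ chi ∈ S, ∀ theta ∈ Irr M, mult M chi theta ≠ 0 → theta ∈ T := by
    intro chi hchi theta ht hm
    obtain ⟨hc, hz, hP⟩ := Finset.mem_filter.mp hchi
    exact Finset.mem_filter.mpr ⟨ht, (dz_iff M hqp hr (mem_Irr.1 ht) (mem_Irr.1 hc) hm).1 hz,
      (hPQ chi theta (mem_Irr.1 hc) (mem_Irr.1 ht) hm).1 hP⟩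
  have hmem' : ∀ theta ∈ T, ∀ chi ∈ Irr X, mult M chi theta ≠ 0 → chi ∈ S := by
    intro theta hth chi hc hm
    obtain ⟨ht, hz, hP⟩ := Finset.mem_filter.mp hth
    exact Finset.mem_filter.mpr ⟨hc, (dz_iff M hqp hr (mem_Irr.1 ht) (mem_Irr.1 hc) hm).2 hz,
      (hPQ chi theta (mem_Irr.1 hc) (mem_Irr.1 ht) hm).2 hP⟩
  have h1 : ∀ chi ∈ S, ∑ theta ∈ T, (if mult M chi theta ≠ 0 then a theta else 0) = q := by
    intro chi hchi
    have hc := mem_Irr.1 (Finset.mem_filter.mp hchi).1
    obtain ⟨theta, ht, hm⟩ := mult_exists M hc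
    rw [← Finset.sum_filter]
    have h2 : (T.filter fun theta => mult M chi theta ≠ 0) = Orb M theta := by
      rw [← support_eq M hc ht hm]
      ext t
      simp only [Finset.mem_filter]
      constructor
      · rintro ⟨h3, h4⟩
        exact ⟨(Finset.mem_filter.mp h3).1, h4⟩
      · rintro ⟨h3, h4⟩
        exact ⟨hmem chi hchi t h3 h4, h4⟩
    rw [h2]
    have h3 : ∀ t ∈ Orb M theta, a t = a theta := by
      intro t ht'
      have ht2 : IsIrrChar t := Orb_irr M ht ht'
      have h4 : (Orb M t).card = (Orb M theta).card := by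
        have h5 : mult M chi t ≠ 0 := by
          rw [← h2] at ht'
          exact (Finset.mem_filter.mp ht').2
        rw [← support_eq M hc ht2 h5, ← support_eq M hc ht hm]
      have h6 := card_Orb_mul M t
      have h7 := card_Orb_mul M theta
      rw [h4, ← h7] at h6
      have hO0 : 0 < (Orb M theta).card := Finset.card_pos.2
        ⟨theta, Finset.mem_image.mpr ⟨1, Finset.mem_univ _, cj_one M theta⟩⟩
      have h8 : Nat.card (St M t) = Nat.card (St M theta) := Nat.eq_of_mul_eq_mul_left hO0 h6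
      simp only [ha, h8]
    rw [Finset.sum_congr rfl h3, Finset.sum_const, smul_eq_mul]
    rcases over_card M hr ht with h5 | h5
    · simp only [ha]
      rw [h5.2.1, if_pos h5.1, one_mul]
    · simp only [ha]
      rw [h5.2.1, if_neg h5.1, mul_one]
  have h2 : ∀ theta ∈ T, ∑ chi ∈ S, (if mult M chi theta ≠ 0 then a theta else 0) =
      if Nat.card (St M theta) = Nat.card X then q ^ 2 else 1 := by
    intro theta hth
    have ht := mem_Irr.1 (Finset.mem_filter.mp hth).1
    rw [← Finset.sum_filter, Finset.sum_const, smul_eq_mul]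
    have h3 : (S.filter fun chi => mult M chi theta ≠ 0) =
        (Irr X).filter fun chi => mult M chi theta ≠ 0 := by
      ext c
      simp only [Finset.mem_filter]
      constructor
      · rintro ⟨h3, h4⟩
        exact ⟨(Finset.mem_filter.mp h3).1, h4⟩
      · rintro ⟨h3, h4⟩
        exact ⟨hmem' theta hth c h3 h4, h4⟩
    rw [h3]
    rcases over_card M hr ht with h5 | h5
    · simp only [ha]
      rw [h5.2.2, if_pos h5.1, if_pos h5.1, sq]
    · simp only [ha]
      rw [h5.2.2, if_neg h5.1, if_neg h5.1, one_mul]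
  have h3 : q * S.card = ∑ theta ∈ T, (if Nat.card (St M theta) = Nat.card X then q ^ 2 else 1) := by
    rw [← Finset.sum_congr rfl h2, Finset.sum_comm, Finset.sum_congr rfl h1, Finset.sum_const,
      smul_eq_mul, mul_comm]
  rw [h3]
  have h4 : ∀ theta ∈ T, (if Nat.card (St M theta) = Nat.card X then q ^ 2 else 1) =
      1 + (q ^ 2 - 1) * (if Nat.card (St M theta) = Nat.card X then 1 else 0) := by
    intro theta _
    have : 1 ≤ q ^ 2 := Nat.one_le_pow _ _ hq.out.pos
    split_ifs
    · omega
    · omega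
  rw [Finset.sum_congr rfl h4, Finset.sum_add_distrib, ← Finset.mul_sum, Finset.sum_const,
    smul_eq_mul, mul_one, ← Finset.card_filter]
  congr 3
  rw [hT, Finset.filter_filter]

end Pool.Agent.E8helper60.AW

open Pool.Agent.Y63.AWC Pool.Agent.Y564.NV Pool.Agent.Y809.NV Pool.Agent.E8helper60.AW in
/-- CLIFQ -/
theorem Pool.Agent.E8helper60.AW.clifq : Pool.Agent.E8helper60.AW.S_CLIFQ := by
  intro p q hp hq F _ _ red Y _ _ X hX z c hqp hr hz
  cases nonempty_fintype Y
  have h1 := count_q (p := p) X hqp hr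
    (fun chi => Pool.Agent.Y63.NV.centralValue red chi z = c)
    (fun theta => Pool.Agent.Y63.NV.centralValue red theta (fun x : X => z x) = c)
    (fun chi theta hc ht hm => by rw [cv_eq X red hc ht hm hz])
  rw [nw_bot, nw_bot, h1]
  have h2 : Pool.Agent.Y63.NV.numInvDzL p red X z c =
      ((Irr X).filter fun theta => (DZ p theta ∧
        Pool.Agent.Y63.NV.centralValue red theta (fun x : X => z x) = c) ∧
        Nat.card (St X theta) = Nat.card Y).card := by
    unfold Pool.Agent.Y63.NV.numInvDzL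
    rw [← Fintype.card_coe, ← Nat.card_eq_fintype_card]
    refine Nat.card_congr (Equiv.subtypeEquivRight fun theta => ?_)
    rw [Finset.mem_filter, mem_Irr]
    constructor
    · rintro ⟨⟨h3, h4, h5⟩, hc⟩
      exact ⟨h3, ⟨h4, hc⟩, (iv_iff X theta).1 h5⟩
    · rintro ⟨h3, ⟨h4, hc⟩, h5⟩
      exact ⟨⟨h3, h4, (iv_iff X theta).2 h5⟩, hc⟩
  rw [h2]
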