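import Pool.Agent.E8helper60.AW.Tot

/-!
# Classes of groups
-/

set_option autoImplicit false
set_option linter.unusedSectionVars false

open scoped Classical

noncomputable section

namespace Pool.Agent.E8helper60.AW

open Pool.Agent.Y63.NV Pool.Agent.Y405.NV Pool.Agent.Y63.NV.B48B
open Pool.Agent.Y63.AWC (IsIrreducibleCharacter pSubgroupSetoid numDefectZero numWeights
  numRegularClasses)

theorem reduced_pow (p : ℕ) [hp : Fact p.Prime] (ι : Type) [Finite ι] (G : Type) [Group G]
    [Finite G] (hG : Reduced p G) : Reduced p (ι → G) := by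
  have : Fintype ι := Fintype.ofFinite _
  constructor
  · intro N hN hi
    have h1 : ∀ (i : ι) (g : G), (Pi.mulSingle i g : ι → G) ∈ N := by
      intro i
      have h2 : (N.comap (MonoidHom.mulSingle (fun _ : ι => G) i)).index ∣ p := by
        rw [Subgroup.index_comap, ← hi]
        exact Subgroup.relIndex_dvd_index_of_normal N _
      have h3 : N.comap (MonoidHom.mulSingle (fun _ : ι => G) i) = ⊤ := by
        rcases (Nat.dvd_prime hp.out).1 h2 with h | h
        · exact Subgroup.index_eq_one.1 h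
        · exact absurd h (hG.perfect _ (hN.comap _))
      intro g
      have h4 : g ∈ N.comap (MonoidHom.mulSingle (fun _ : ι => G) i) := by rw [h3]; trivial
      exact h4
    have h2 : N = ⊤ := by
      rw [eq_top_iff]
      intro x _
      exact Subgroup.pi_mem_of_mulSingle_mem x fun i => h1 i (x i)
    rw [h2, Subgroup.index_top] at hi
    exact hp.out.one_lt.ne hi
  · intro M hM hMp
    rw [Subgroup.eq_bot_iff_forall]
    intro x hx
    funext i
    have h2 : (M.map (Pi.evalMonoidHom (fun _ : ι => G) i)) = ⊥ :=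
      hG.radical _ (hM.map _ (fun g => ⟨fun _ => g, rfl⟩)) (hMp.map _)
    have h3 : x i ∈ (M.map (Pi.evalMonoidHom (fun _ : ι => G) i)) := ⟨x, hx, rfl⟩
    rw [h2, Subgroup.mem_bot] at h3
    exact h3

/-- currying -/
def curryM (G : Type) [Group G] {α β γ : Type} (e : γ ≃ α × β) : (α → β → G) ≃* (γ → G) where
  toFun f c := f (e c).1 (e c).2
  invFun g a b := g (e.symm (a, b))
  left_inv f := by
    funext a b
    simp
  right_inv g := by
    funext c
    simp
  map_mul' _ _ := rfl

theorem pow_class (p : ℕ) (q : ℕ) (hq : q.Prime) (C : Type) [Group C] [Fintype C]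
    (hC : Nat.card C = q) (X : ∀ (G : Type) [Group G], Prop) (hX : Closed p X)
    (hwr : ∀ (G : Type) [Group G] [Finite G], X G → X (RegularWreathProduct G C)) (k : ℕ) :
    ∀ (G : Type) [Group G] [Finite G], X G → X (Fin (q ^ k) → G) := by
  have hbase : ∀ (G : Type) [Group G] [Finite G], X G → X (C → G) := by
    intro G _ _ hG
    exact hX.iso _ _ (hX.sub _ (hwr G hG) (bse G C).range)
      ⟨(MonoidHom.ofInjective (bse_inj (G := G) (C := C))).symm⟩
  induction k with
  | zero =>
    intro G _ _ hG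
    refine hX.iso _ _ hG ⟨?_⟩
    exact
      { toFun := fun g _ => g
        invFun := fun f => f ⟨0, by simp⟩
        left_inv := fun g => rfl
        right_inv := fun f => by
          funext i
          have h1 : (⟨0, by simp⟩ : Fin (q ^ 0)) = i := by
            apply Fin.ext
            have h2 := i.2
            simp only [pow_zero] at h2
            show 0 = i.val
            omega
          exact congrArg f h1
        map_mul' := fun _ _ => rfl }
  | succ k ih =>
    intro G _ _ hG
    have h1 := hbase _ (ih G hG)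
    have hcard : Fintype.card (Fin (q ^ (k + 1))) = Fintype.card (C × Fin (q ^ k)) := by
      rw [Fintype.card_fin, Fintype.card_prod, Fintype.card_fin, ← Nat.card_eq_fintype_card, hC,
        pow_succ']
    exact hX.iso _ _ h1 ⟨curryM G (Fintype.equivOfCardEq hcard)⟩

theorem pow_class' (p : ℕ) (q : ℕ) (hq : q.Prime) (C : Type) [Group C] [Fintype C]
    (hC : Nat.card C = q) (X : ∀ (G : Type) [Group G], Prop) (hX : Closed p X)
    (hwr : ∀ (G : Type) [Group G] [Finite G], X G → X (RegularWreathProduct G C)) :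
    PowClosedG X := by
  intro G _ _ hG n₀
  refine ⟨q ^ n₀, (Nat.lt_pow_self hq.one_lt).le, pow_class p q hq C hC X hX hwr n₀ G hG⟩

variable {F : Type} [Field F] [IsAlgClosed F] {p : ℕ} [Fact p.Prime] [CharP F p]
  (red : integralClosure ℤ ℂ →+* F)

/-- **Classes of groups.** -/
theorem cls_tfae (q : ℕ) (hq : q.Prime) (C : Type) [Group C] [Fintype C]
    (hC : Nat.card C = q) (X : ∀ (G : Type) [Group G], Prop) (hX : Closed p X)
    (hwr : ∀ (G : Type) [Group G] [Finite G], X G → X (RegularWreathProduct G C))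
    (m N : ℕ) (hm : q ∣ m) :
    List.TFAE [
      ∀ (G : Type) [Group G] [Finite G], X G → BAWC p red G,
      ∀ (G : Type) [Group G] [Finite G], N ≤ Nat.card G → X G → (q ≠ p → Reduced p G) →
        ∀ B : (G → F) → F, IsBlock B → ∀ B' : (RegularWreathProduct G C → F) → F, IsBlock B' →
          Over B B' → numIrrBlock B' ≡ numWt p red B' [MOD m],
      ∀ ε : ℝ, 0 < ε → ∃ c : ℝ, ∀ (G : Type) [Group G] [Finite G], X G → Reduced p G →
        ∀ B : (G → F) → F, IsBlock B →
          (numIrrBlock B : ℝ) ≤ c * (Nat.card G : ℝ) ^ ε * numWt p red B ∧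
          (numWt p red B : ℝ) ≤ c * (Nat.card G : ℝ) ^ ε * numIrrBlock B] := by
  have hp : p.Prime := Fact.out
  tfae_have 1 → 2 := by
    intro h G _ _ _ hXG _ B _ B' hB' _
    have h1 := h _ (hwr G hXG)
    rw [bawc_def] at h1
    rw [h1 B' hB']
  tfae_have 1 → 3 := by
    intro h ε hε
    refine ⟨1, fun G _ _ hXG _ B hB => ?_⟩
    have h1 := h G hXG
    rw [bawc_def] at h1
    rw [h1 B hB]
    have h2 : (1 : ℝ) ≤ (Nat.card G : ℝ) ^ ε := by
      refine Real.one_le_rpow ?_ hε.le
      exact_mod_cast one_le_cardG G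
    rw [one_mul]
    exact ⟨le_mul_of_one_le_left (Nat.cast_nonneg _) h2,
      le_mul_of_one_le_left (Nat.cast_nonneg _) h2⟩
  tfae_have 2 → 1 := by
    intro h
    by_cases hqp : q = p
    · have h1 := (fam2 (p := p) red q hq C hC m hm N
        (fun (G : Type) [Group G] (_ : (G → F) → F) => X G) (by
          intro G _ _ B _ hG B' _ _
          exact hwr G hG)).2 fun G _ _ B hN hB hY B' hB' ho =>
            h G hN hY (fun h => absurd hqp h) B hB B' hB' ho
      intro G _ _ hG
      rw [bawc_def]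
      exact fun B hB => h1 G B hB hG
    · exact (reduced_cong (p := p) red q hq hqp C hC m hm N X hX hwr).2
        fun G _ _ hN hXG hR => h G hN hXG fun _ => hR
  tfae_have 3 → 1 := by
    intro h
    have hpc : PowClosed (fun (G : Type) [Group G] (_ : (G → F) → F) => X G ∧ Reduced p G) := by
      rintro G _ _ B _ ⟨h1, h2⟩ n₀
      obtain ⟨n, hn, hn2⟩ := pow_class' p q hq C hC X hX hwr G h1 n₀
      exact ⟨n, hn, fun B' _ _ => ⟨hn2, reduced_pow p (Fin n) G h2⟩⟩
    have h1 := (fam_le (p := p) red _ hpc).2 fun ε hε => by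
      obtain ⟨c, hc⟩ := h ε hε
      exact ⟨c, fun G _ _ B hB hY => (hc G hY.1 hY.2 B hB).1⟩
    have h2 := (fam_ge (p := p) red _ hpc).2 fun ε hε => by
      obtain ⟨c, hc⟩ := h ε hε
      exact ⟨c, fun G _ _ B hB hY => (hc G hY.1 hY.2 B hB).2⟩
    have h3 := (bawc_strong red X hX).1 (fun H _ _ hH hR => by
      rw [bawc_def]
      exact fun B hB => le_antisymm (h1 H B hB ⟨hH, hR⟩) (h2 H B hB ⟨hH, hR⟩))
    intro G _ _ hG
    refine h3 G ⊤ ?_ (pgroup_top p G)
    exact hX.iso _ _ hG ⟨Subgroup.topEquiv.symm⟩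
  tfae_finish

/-- **Principal blocks.** -/
theorem prin_tfae (C : Type) [Group C] [Fintype C] (hC : Nat.card C = p) (m : ℕ) (hpm : p ∣ m)
    (N : ℕ) (X : ∀ (G : Type) [Group G], Prop)
    (hX : ∀ (G : Type) [Group G] [Finite G], X G → X (RegularWreathProduct G C))
    (hpow : PowClosedG X) :
    List.TFAE [
      ∀ (G : Type) [Group G] [Finite G], X G →
        numIrrBlock (prin F G) = numWt p red (prin F G),
      ∀ (G : Type) [Group G] [Finite G], N ≤ Nat.card G → X G →
        numIrrBlock (prin F (RegularWreathProduct G C)) ≡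
          numWt p red (prin F (RegularWreathProduct G C)) [MOD m],
      ∀ ε : ℝ, 0 < ε → ∃ c : ℝ, ∀ (G : Type) [Group G] [Finite G], X G →
          (numIrrBlock (prin F G) : ℝ) ≤ c * (Nat.card G : ℝ) ^ ε * numWt p red (prin F G) ∧
          (numWt p red (prin F G) : ℝ) ≤ c * (Nat.card G : ℝ) ^ ε * numIrrBlock (prin F G)] := by
  have hp : p.Prime := Fact.out
  obtain ⟨ha, hb⟩ := prin_approx (p := p) (F := F) red X hpow
  tfae_have 1 ↔ 2 := prin_cong2 (p := p) red C hC m hpm N X hX
  tfae_have 1 → 3 := by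
    intro h ε hε
    obtain ⟨c, hc⟩ := (ha.1 fun G _ _ hG => (h G hG).le) ε hε
    obtain ⟨d, hd⟩ := (hb.1 fun G _ _ hG => (h G hG).ge) ε hε
    refine ⟨max c d, fun G _ _ hG => ⟨?_, ?_⟩⟩
    · refine (hc G hG).trans ?_
      gcongr
      exact le_max_left _ _
    · refine (hd G hG).trans ?_
      gcongr
      exact le_max_right _ _
  tfae_have 3 → 1 := by
    intro h G _ _ hG
    refine le_antisymm ?_ ?_
    · refine ha.2 (fun ε hε => ?_) G hG
      obtain ⟨c, hc⟩ := h ε hε
      exact ⟨c, fun G _ _ hG => (hc G hG).1⟩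
    · refine hb.2 (fun ε hε => ?_) G hG
      obtain ⟨c, hc⟩ := h ε hε
      exact ⟨c, fun G _ _ hG => (hc G hG).2⟩
  tfae_finish

end Pool.Agent.E8helper60.AW
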