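import Pool.Agent.E8helper60.AW.Ov2

/-!
# Families of blocks
-/

set_option autoImplicit false
set_option linter.unusedSectionVars false

open scoped Classical

noncomputable section

namespace Pool.Agent.E8helper60.AW

open Pool.Agent.Y63.NV Pool.Agent.Y405.NV Pool.Agent.Y63.NV.B48B
open Pool.Agent.Y63.AWC (IsIrreducibleCharacter pSubgroupSetoid numDefectZero numWeights
  numRegularClasses)

variable {F : Type} [Field F] [IsAlgClosed F] {p : ℕ} [Fact p.Prime] [CharP F p]
  (red : integralClosure ℤ ℂ →+* F)

/-- equality upstairs gives equality downstairs -/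
theorem step_eq (q : ℕ) (hq : q.Prime) (C : Type) [Group C] [Fintype C] (hC : Nat.card C = q)
    {G : Type} [Group G] [Finite G] (B : (G → F) → F) (hB : IsBlock B)
    (hk : ∀ B' : (RegularWreathProduct G C → F) → F, IsBlock B' → Over B B' →
      numIrrBlock B' = numWt p red B') : numIrrBlock B = numWt p red B := by
  obtain ⟨e, he, hi, h1, h2⟩ := isolate' red hB
  have : Fact (IsClassFun e) := ⟨he.cls⟩
  have : Fact (IsClassFun (wE G C e)) := ⟨(wE_inz he.cls).conj⟩
  have h3 := nl_wreath (C := C) he q hq hC
  have h4 := nwt_wreath (C := C) he q hq hC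
  have h5 := mod_sum (p := p) red 0 (wE G C e) fun B' hB' h => by
    rw [hk B' hB' (over_of_one p he.cls hi.act hB' h)]
  rw [Nat.modEq_zero_iff] at h5
  rw [← h1, ← h2]
  rw [h5, h4] at h3
  -- strict monotonicity
  rcases lt_trichotomy (nl e) (nwt p red e 1) with h | h | h
  · exfalso
    have h6 : nl e ^ q < nwt p red e 1 ^ q := Nat.pow_lt_pow_left h hq.ne_zero
    have h7 : co p q * nl e ≤ co p q * nwt p red e 1 := Nat.mul_le_mul_left _ h.le
    omega
  · exact h
  · exfalso
    have h6 : nwt p red e 1 ^ q < nl e ^ q := Nat.pow_lt_pow_left h hq.ne_zero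
    have h7 : co p q * nwt p red e 1 ≤ co p q * nl e := Nat.mul_le_mul_left _ h.le
    omega

theorem card_C (q : ℕ) : Nat.card (Multiplicative (ZMod q)) = q := Nat.card_zmod q

theorem eq_of_modEq_pow {q : ℕ} (hq : q.Prime) {a b : ℕ} (h : ∀ k, a ≡ b [MOD q ^ k]) : a = b := by
  have h1 : a + b < q ^ (a + b) := Nat.lt_pow_self hq.one_lt
  exact (h (a + b)).eq_of_lt_of_lt (by omega) (by omega)

/-- **Families of blocks: congruences.** -/
theorem fam (q : ℕ) [hq : Fact q.Prime] (m : ℕ) (hqm : q ∣ m) (N : ℕ)
    (Y : ∀ (G : Type) [Group G], ((G → F) → F) → Prop)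
    (hY : ∀ (G : Type) [Group G] [Finite G] (B : (G → F) → F), IsBlock B → Y G B →
      ∀ B' : (RegularWreathProduct G (Multiplicative (ZMod q)) → F) → F, IsBlock B' → Over B B' →
        Y (RegularWreathProduct G (Multiplicative (ZMod q))) B') :
    (∀ (G : Type) [Group G] [Finite G] (B : (G → F) → F), IsBlock B → Y G B →
      numIrrBlock B = numWt p red B) ↔
    ∀ (G : Type) [Group G] [Finite G] (B : (G → F) → F), N ≤ Nat.card G → IsBlock B → Y G B →
      numIrrBlock B ≡ numWt p red B [MOD m] := by
  constructor
  · intro h G _ _ B _ hB hYB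
    rw [h G B hB hYB]
  · intro h
    have hcard : ∀ (G : Type) [Group G] [Finite G], Nat.card G + 1 ≤
        Nat.card (RegularWreathProduct G (Multiplicative (ZMod q))) := by
      intro G _ _
      rw [RegularWreathProduct.card, card_C]
      have h1 : 1 ≤ Nat.card G := Nat.card_pos
      have h2 : Nat.card G ≤ Nat.card G ^ q := Nat.le_self_pow hq.out.ne_zero _
      have h3 : 2 ≤ q := hq.out.two_le
      nlinarith
    have h1 : ∀ k : ℕ, ∀ (G : Type) [Group G] [Finite G] (B : (G → F) → F), N ≤ Nat.card G →
        IsBlock B → Y G B → numIrrBlock B ≡ numWt p red B [MOD q ^ k] := by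
      intro k
      induction k with
      | zero =>
        intro G _ _ B _ _ _
        rw [pow_zero]
        exact Nat.modEq_one
      | succ k ih =>
        intro G _ _ B hN hB hYB
        refine step (p := p) red q hq.out (Multiplicative (ZMod q)) (card_C q) k B
          ((h G B hN hB hYB).of_dvd hqm) fun B' hB' ho => ?_
        exact ih _ B' (hN.trans ((Nat.le_succ _).trans (hcard G))) hB' (hY G B hB hYB B' hB' ho)
    have h2 : ∀ d : ℕ, ∀ (G : Type) [Group G] [Finite G] (B : (G → F) → F), N ≤ Nat.card G + d →
        IsBlock B → Y G B → numIrrBlock B = numWt p red B := by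
      intro d
      induction d with
      | zero =>
        intro G _ _ B hN hB hYB
        exact eq_of_modEq_pow hq.out fun k => h1 k G B hN hB hYB
      | succ d ih =>
        intro G _ _ B hN hB hYB
        refine step_eq (p := p) red q hq.out (Multiplicative (ZMod q)) (card_C q) B hB
          fun B' hB' ho => ?_
        refine ih _ B' ?_ hB' (hY G B hB hYB B' hB' ho)
        have := hcard G
        omega
    intro G _ _ B hB hYB
    exact h2 N G B (by omega) hB hYB

/-! ### The total numbers -/

include red in
theorem tot_step_eq (q : ℕ) (hq : q.Prime) (C : Type) [Group C] [Fintype C] (hC : Nat.card C = q)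
    {G : Type} [Group G] [Finite G]
    (hk : numRegularClasses p (RegularWreathProduct G C) =
      numWeights p (RegularWreathProduct G C)) :
    numRegularClasses p G = numWeights p G := by
  have h2 := nl_wreath (C := C) (unit_ci (p := p) red (G := G)) q hq hC
  have : Fact (IsClassFun (wE G C (Pi.single 1 1 : G → F))) := ⟨(wE_inz unit_cls).conj⟩
  have h3 := nwt_wreath (C := C) (unit_ci (p := p) red (G := G)) q hq hC
  simp only [wE_unit] at h2 h3
  rw [nl_unit (p := p), nl_unit (p := p)] at h2
  rw [nwt_unit, nwt_unit] at h3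
  rw [hk, h3] at h2
  rcases lt_trichotomy (numRegularClasses p G) (numWeights p G) with h | h | h
  · exfalso
    have h6 := Nat.pow_lt_pow_left h hq.ne_zero
    have h7 : co p q * numRegularClasses p G ≤ co p q * numWeights p G :=
      Nat.mul_le_mul_left _ h.le
    omega
  · exact h
  · exfalso
    have h6 := Nat.pow_lt_pow_left h hq.ne_zero
    have h7 : co p q * numWeights p G ≤ co p q * numRegularClasses p G :=
      Nat.mul_le_mul_left _ h.le
    omega

include red in
/-- **The total numbers: congruences.** -/
theorem tot (q : ℕ) [hq : Fact q.Prime] (m : ℕ) (hqm : q ∣ m) (N : ℕ)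
    (X : ∀ (G : Type) [Group G], Prop)
    (hX : ∀ (G : Type) [Group G] [Finite G], X G →
      X (RegularWreathProduct G (Multiplicative (ZMod q)))) :
    (∀ (G : Type) [Group G] [Finite G], X G → numRegularClasses p G = numWeights p G) ↔
    ∀ (G : Type) [Group G] [Finite G], N ≤ Nat.card G → X G →
      numRegularClasses p G ≡ numWeights p G [MOD m] := by
  constructor
  · intro h G _ _ _ hXG
    rw [h G hXG]
  · intro h
    have hcard : ∀ (G : Type) [Group G] [Finite G], Nat.card G + 1 ≤
        Nat.card (RegularWreathProduct G (Multiplicative (ZMod q))) := by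
      intro G _ _
      rw [RegularWreathProduct.card, card_C]
      have h1 : 1 ≤ Nat.card G := Nat.card_pos
      have h2 : Nat.card G ≤ Nat.card G ^ q := Nat.le_self_pow hq.out.ne_zero _
      have h3 : 2 ≤ q := hq.out.two_le
      nlinarith
    have h1 : ∀ k : ℕ, ∀ (G : Type) [Group G] [Finite G], N ≤ Nat.card G →
        X G → numRegularClasses p G ≡ numWeights p G [MOD q ^ k] := by
      intro k
      induction k with
      | zero =>
        intro G _ _ _ _
        rw [pow_zero]
        exact Nat.modEq_one
      | succ k ih =>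
        intro G _ _ hN hXG
        exact step_tot (p := p) red q hq.out (Multiplicative (ZMod q)) (card_C q) k
          ((h G hN hXG).of_dvd hqm)
          (ih _ (hN.trans ((Nat.le_succ _).trans (hcard G))) (hX G hXG))
    have h2 : ∀ d : ℕ, ∀ (G : Type) [Group G] [Finite G], N ≤ Nat.card G + d →
        X G → numRegularClasses p G = numWeights p G := by
      intro d
      induction d with
      | zero =>
        intro G _ _ hN hXG
        exact eq_of_modEq_pow hq.out fun k => h1 k G hN hXG
      | succ d ih =>
        intro G _ _ hN hXG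
        refine tot_step_eq (p := p) red q hq.out (Multiplicative (ZMod q)) (card_C q) ?_
        refine ih _ ?_ (hX G hXG)
        have := hcard G
        omega
    intro G _ _ hXG
    exact h2 N G (by omega) hXG

/-! ### Principal blocks -/

/-- the principal block of `G` -/
def prin (F : Type) [Field F] (G : Type) [Group G] : (G → F) → F := fun f => ∑ᶠ g : G, f g

omit [IsAlgClosed F] in
theorem prin_block {G : Type} [Group G] [Finite G] : IsBlock (prin F G) := by
  have : Fintype G := Fintype.ofFinite _
  refine ⟨fun f g _ _ => ?_, fun a f _ => ?_, ?_, fun f g _ _ => ?_⟩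
  · exact finsum_add_distrib (Set.toFinite _) (Set.toFinite _)
  · unfold prin
    rw [finsum_eq_sum_of_fintype, finsum_eq_sum_of_fintype, Finset.mul_sum]
    rfl
  · unfold prin
    rw [finsum_eq_single _ 1]
    · exact Pi.single_eq_same _ _
    · intro x hx
      exact Pi.single_eq_of_ne hx _
  · unfold prin conv
    simp only [finsum_eq_sum_of_fintype]
    rw [Finset.sum_comm, Finset.sum_mul_sum]
    refine Finset.sum_congr rfl fun y _ => ?_
    rw [← Equiv.sum_comp (Equiv.mulLeft y)]
    refine Finset.sum_congr rfl fun x _ => ?_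
    simp

omit [IsAlgClosed F] in
theorem prin_over {G C : Type} [Group G] [Finite G] [Group C] [Fintype C] :
    Over (prin F G) (prin F (RegularWreathProduct G C)) := by
  intro f _
  have : Fintype G := Fintype.ofFinite _
  unfold prin
  have h1 := wE_sum (C := C) f (fun _ => (1 : F))
  simp only [mul_one] at h1
  rw [h1, finsum_eq_sum_of_fintype, finsum_eq_sum_of_fintype, Nat.card_eq_fintype_card]
  unfold tens
  have h3 := Finset.prod_univ_sum (fun _ : C => (Finset.univ : Finset G)) (fun _ x => f x)
  rw [Fintype.piFinset_univ] at h3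
  rw [← h3, Finset.prod_const, Finset.card_univ]

/-- agreement of blocks -/
theorem num_congr {G : Type} [Group G] {B B' : (G → F) → F}
    (h : ∀ f : G → F, IsClassFun f → B f = B' f) :
    numIrrBlock B = numIrrBlock B' ∧ numWt p red B = numWt p red B' := by
  constructor
  · unfold numIrrBlock
    refine Nat.card_congr (Equiv.subtypeEquivRight fun φ => ?_)
    exact and_congr Iff.rfl (forall_congr' fun f => forall_congr' fun hf => by rw [h f hf])
  · unfold numWt numWtBlock
    refine finsum_congr fun d => Nat.card_congr (Equiv.subtypeEquivRight fun χ => ?_)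
    exact and_congr Iff.rfl (forall_congr' fun f => forall_congr' fun hf => by rw [h f hf])

/-- **Principal blocks: congruences.** -/
theorem prin_cong (m : ℕ) (hpm : p ∣ m) (N : ℕ) (X : ∀ (G : Type) [Group G], Prop)
    (hX : ∀ (G : Type) [Group G] [Finite G], X G →
      X (RegularWreathProduct G (Multiplicative (ZMod p)))) :
    (∀ (G : Type) [Group G] [Finite G], X G →
      numIrrBlock (prin F G) = numWt p red (prin F G)) ↔
    ∀ (G : Type) [Group G] [Finite G], N ≤ Nat.card G → X G →
      numIrrBlock (prin F G) ≡ numWt p red (prin F G) [MOD m] := by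
  have h := fam (p := p) red p m hpm N
    (fun (G : Type) [Group G] (B : (G → F) → F) => X G ∧ ∀ f : G → F, IsClassFun f →
      B f = prin F G f) (by
    rintro G _ _ B hB ⟨hXG, hp⟩ B' hB' ho
    refine ⟨hX G hXG, fun f hf => ?_⟩
    obtain ⟨B₁, hB₁, -, huniq, -, -⟩ := wreath_p (p := p) red (card_C p) (prin_block (F := F) (G := G))
    rw [huniq B' hB' (fun f hf => (ho f hf).trans (by rw [hp f hf])) f hf,
      huniq _ prin_block prin_over f hf])
  constructor
  · intro h1 G _ _ hN hXG
    rw [h1 G hXG]
  · intro h1 G _ _ hXG
    refine h.2 (fun G _ _ B hN hB hY => ?_) G (prin F G) prin_block ⟨hXG, fun f _ => rfl⟩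
    have h2 := num_congr (p := p) red hY.2
    rw [h2.1, h2.2]
    exact h1 G hN hY.1

end Pool.Agent.E8helper60.AW
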