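import Pool.Agent.E8helper60.AW.Local
import Pool.Agent.Y63.NV.Bawc

/-!
# Weights and normal subgroups of prime index: the global statement
-/

set_option autoImplicit false
set_option linter.unusedSectionVars false

open scoped Classical

noncomputable section

namespace Pool.Agent.E8helper60.AW

open Pool.Agent.Y63.NV Pool.Agent.Y487.NV
open Pool.Agent.Y63.AWC (IsIrreducibleCharacter)

variable {F Γ A : Type} [Field F] [Group Γ] [Group A] [Finite Γ] [Finite A]

/-- the weighted number of weights of `Γ` on which `z` acts as `c` -/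
def wtot (p : ℕ) (red : integralClosure ℤ ℂ →+* F) (z : Γ → F) (c : F) : ℕ :=
  ∑ᶠ Q : Subgroup Γ, if IsPGroup p Q then wl p red z c Q else 0

/-- the weighted number of weights of `A` which are fixed from outside -/
def winvtot (p : ℕ) (red : integralClosure ℤ ℂ →+* F) (j : A →* Γ) (z : Γ → F) (c : F) : ℕ :=
  ∑ᶠ Q : Subgroup A, if IsPGroup p Q then winv p red j z c Q else 0

/-- the coefficient -/
def co (p q : ℕ) : ℕ := if q = p then p - 1 else q ^ 2 - 1

theorem wsum_top (p : ℕ) (red : integralClosure ℤ ℂ →+* F) (z : Γ → F) (c : F) :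
    Wsum p red (⊤ : Subgroup Γ) ⊤ z c = (wtot p red z c : ℤ) := by
  have : Fintype (Subgroup Γ) := Fintype.ofFinite _
  rw [Pool.Agent.Y487.NV.wsum_eq]
  unfold wtot
  rw [finsum_eq_sum_of_fintype]
  congr 1
  refine Finset.sum_congr (by ext; simp) fun Q _ => ?_
  simp only [top_sup_eq, and_true]

/-- the sum over the images of the subgroups of `A` -/
def wmid (p : ℕ) (red : integralClosure ℤ ℂ →+* F) (j : A →* Γ) (z : Γ → F) (c : F) : ℕ :=
  ∑ᶠ Q : Subgroup A, if IsPGroup p Q then wl p red z c (Q.map j) else 0

theorem wmid_eq (p : ℕ) (red : integralClosure ℤ ℂ →+* F) (j : A →* Γ)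
    (hj : Function.Injective j) (z : Γ → F) (c : F) :
    wmid p red j z c = ∑ᶠ Q : Subgroup Γ, if IsPGroup p Q ∧ Q ≤ j.range then
      wl p red z c Q else 0 := by
  unfold wmid
  have : Fintype (Subgroup A) := Fintype.ofFinite _
  have : Fintype (Subgroup Γ) := Fintype.ofFinite _
  rw [finsum_eq_sum_of_fintype, finsum_eq_sum_of_fintype, ← Finset.sum_filter,
    ← Finset.sum_filter]
  symm
  refine Finset.sum_nbij' (fun Q => Q.comap j) (fun Q => Q.map j) ?_ ?_ ?_ ?_ ?_
  · intro Q hQ
    rw [Finset.mem_filter] at hQ ⊢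
    exact ⟨Finset.mem_univ _, hQ.2.1.comap_of_injective j hj⟩
  · intro Q hQ
    rw [Finset.mem_filter] at hQ ⊢
    exact ⟨Finset.mem_univ _, hQ.2.map _, Subgroup.map_le_range j Q⟩
  · intro Q hQ
    rw [Finset.mem_filter] at hQ
    exact Subgroup.map_comap_eq_self hQ.2.2
  · intro Q _
    exact Subgroup.comap_map_eq_self_of_injective hj _
  · intro Q hQ
    rw [Finset.mem_filter] at hQ
    rw [Subgroup.map_comap_eq_self hQ.2.2]

/-- weights for isomorphic groups -/
theorem wtot_equiv (p : ℕ) (red : integralClosure ℤ ℂ →+* F) (e : A ≃* Γ) (z : Γ → F) (c : F)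
    (hz : IsClassFun z) : wtot p red (fun a => z (e a)) c = wtot p red z c := by
  have h1 := wmid_eq p red e.toMonoidHom e.injective z c
  have h2 : wmid p red e.toMonoidHom z c = wtot p red z c := by
    rw [h1]
    unfold wtot
    refine finsum_congr fun Q => ?_
    have : Q ≤ e.toMonoidHom.range := by
      rw [MonoidHom.range_eq_top.2 e.surjective]
      exact le_top
    simp only [this, and_true]
  rw [← h2]
  unfold wmid wtot
  refine finsum_congr fun Q => ?_
  split_ifs with hQ
  · -- the summands agree
    obtain ⟨i, hi⟩ : ∃ i : Subgroup.normalizer (Q : Set A) →* Γ, ∀ x, i x = e (x : A) :=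
      ⟨e.toMonoidHom.comp (Subgroup.subtype _), fun x => rfl⟩
    have hii : Function.Injective i := by
      intro x y hxy
      rw [hi, hi] at hxy
      exact Subtype.ext (e.injective hxy)
    have hAG := Subgroup.comap_normalizer_eq_of_le_range (f := e.toMonoidHom)
      (H := Q.map e.toMonoidHom) (Subgroup.map_le_range _ Q)
    rw [Subgroup.comap_map_eq_self_of_injective e.injective] at hAG
    have hmemQ : ∀ x : A, e x ∈ Q.map e.toMonoidHom ↔ x ∈ Q := by
      intro x
      constructor
      · rintro ⟨y, hy, hyx⟩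
        have : y = x := e.injective hyx
        exact this ▸ hy
      · intro h
        exact ⟨x, h, rfl⟩
    have hV : ∀ n : Γ, (MonoidHom.id Γ) n ∈ Subgroup.normalizer
        ((Q.map e.toMonoidHom : Subgroup Γ) : Set Γ) ↔ n ∈ i.range := by
      intro n
      rw [MonoidHom.id_apply]
      constructor
      · intro hn
        obtain ⟨a, rfl⟩ := e.surjective n
        have : a ∈ Subgroup.normalizer (Q : Set A) := by
          rw [← hAG]
          exact hn
        exact ⟨⟨a, this⟩, hi _⟩
      · rintro ⟨x, rfl⟩
        rw [hi]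
        have h3 : ∀ a : A, a ∈ Subgroup.normalizer (Q : Set A) → e a ∈ Subgroup.normalizer
            ((Q.map e.toMonoidHom : Subgroup Γ) : Set Γ) := by
          intro a ha
          rw [← hAG] at ha
          exact ha
        exact h3 _ x.2
    have hs : Function.Surjective (MonoidHom.id Γ) := Function.surjective_id
    have e1 := card_gen (MonoidHom.id Γ) hs i hii _ hV
    have e2 := nw_gen p red (MonoidHom.id Γ) hs z i hii _ hV
      (Q.subgroupOf (Subgroup.normalizer (Q : Set A)))
      ((Q.map e.toMonoidHom).subgroupOf (Subgroup.normalizer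
        ((Q.map e.toMonoidHom : Subgroup Γ) : Set Γ))) (by
        intro a h
        rw [Subgroup.mem_subgroupOf, Subgroup.mem_subgroupOf]
        change _ ↔ i a ∈ Q.map e.toMonoidHom
        rw [hi, hmemQ]) (fun x => z (e x)) (fun a => by rw [hi]) (fun g x => by
        change z (e ((g * x * g⁻¹ : Subgroup.normalizer (Q : Set A)) : A)) = z (e (x : A))
        have : ((g * x * g⁻¹ : Subgroup.normalizer (Q : Set A)) : A) = g * x * (g : A)⁻¹ := rfl
        rw [this, map_mul, map_mul, map_inv]
        exact hz _ _) c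
    have e3 : ∀ y : Γ, fib (MonoidHom.id Γ) z y = z y := by
      intro y
      unfold fib
      rw [finsum_eq_single _ y]
      · rw [if_pos (MonoidHom.id_apply Γ y)]
      · intro x hx
        rw [if_neg]
        rw [MonoidHom.id_apply]
        exact hx
    simp only [e3] at e2
    have e4 : (MonoidHom.id Γ).ker = ⊥ := by
      rw [MonoidHom.ker_eq_bot_iff]
      exact Function.injective_id
    rw [e4, Subgroup.card_bot, one_mul] at e1
    unfold wl
    rw [e2, e1]
  · rfl

/-- **Weights and normal subgroups of prime index.** -/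
theorem wtot_index (p q : ℕ) [hp : Fact p.Prime] [hq : Fact q.Prime] [CharP F p]
    (red : integralClosure ℤ ℂ →+* F) (j : A →* Γ)
    (hj : Function.Injective j) (hjn : j.range.Normal) (z : Γ → F) (c : F)
    (hz : InZ j.range z) (hG : Nat.card (Γ ⧸ j.range) = q) :
    wtot p red z c = wtot p red (fun a : A => z (j a)) c + co p q * winvtot p red j z c := by
  have hGtop : j.range ≠ ⊤ := by
    intro h
    have h3 : j.range.index = q := hG
    rw [h, Subgroup.index_top] at h3
    exact hq.out.one_lt.ne h3
  have : Fintype (Subgroup A) := Fintype.ofFinite _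
  have : Fintype (Subgroup Γ) := Fintype.ofFinite _
  have hld := fun Q₁ : Subgroup A => local_data p q hq.out red j hj hjn z c hz hG Q₁
  by_cases hqp : q = p
  · -- index `p`
    subst hqp
    unfold co
    rw [if_pos rfl]
    have hloc : wmid q red j z c + winvtot q red j z c = wtot q red (fun a : A => z (j a)) c := by
      unfold wmid winvtot wtot
      rw [finsum_eq_sum_of_fintype, finsum_eq_sum_of_fintype, finsum_eq_sum_of_fintype,
        ← Finset.sum_add_distrib]
      refine Finset.sum_congr rfl fun Q₁ _ => ?_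
      split_ifs with hQ₁
      · rcases hld Q₁ with ⟨h1, h2⟩ | ⟨Y, i1, i2, X, i3, zY, m, h1, h2, h3, h4, h5⟩
        · rw [h1, h2, add_zero]
        · have h6 := Pool.Agent.Y809.NV.clifL q F red Y X zY c h1 h2
          rw [h3, h4, h5, ← h6]
          ring
      · rfl
    have hpe := pewL' q F red Γ j.range z c hG hz
    rw [wsum_top, wsum_top] at hpe
    -- the subgroup `j.range` and `A`
    have hiso : wtot q red (fun x : j.range => z x) c = wtot q red (fun a : A => z (j a)) c := by
      have e : A ≃* j.range := MonoidHom.ofInjective hj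
      have he : ∀ a, ((MonoidHom.ofInjective hj a : j.range) : Γ) = j a := fun a => rfl
      have h1 := wtot_equiv q red (MonoidHom.ofInjective hj) (fun x : j.range => z x) c
        (fun g x => hz.conj _ _)
      simp only [he] at h1
      exact h1.symm
    rw [hiso] at hpe
    obtain ⟨cov, hcov⟩ : ∃ cov : ℕ, cov =
      ∑ Q : Subgroup Γ, if IsPGroup q Q ∧ j.range ⊔ Q = ⊤ then wl q red z c Q else 0 := ⟨_, rfl⟩
    have hcov2 : Wsum q red j.range ⊤ z c = (cov : ℤ) := by
      rw [Pool.Agent.Y487.NV.wsum_eq, hcov]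
      congr 1
      exact Finset.sum_congr (by ext; simp) fun _ _ => rfl
    rw [hcov2] at hpe
    have hsplit : wtot q red z c = cov + wmid q red j z c := by
      rw [wmid_eq q red j hj, hcov]
      unfold wtot
      rw [finsum_eq_sum_of_fintype, finsum_eq_sum_of_fintype, ← Finset.sum_add_distrib]
      refine Finset.sum_congr rfl fun Q _ => ?_
      by_cases hQ : IsPGroup q Q
      · by_cases hQG : Q ≤ j.range
        · have h3 : ¬ j.range ⊔ Q = ⊤ := by
            rw [sup_eq_left.2 hQG]
            exact hGtop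
          rw [if_pos hQ, if_neg fun h => h3 h.2, if_pos ⟨hQ, hQG⟩, zero_add]
        · rw [if_pos hQ, if_pos ⟨hQ, sup_eq_top j.range hq.out hG Q hQG⟩, if_neg fun h => hQG h.2,
            add_zero]
      · rw [if_neg hQ, if_neg fun h => hQ h.1, if_neg fun h => hQ h.1]
    have hq1 : 1 ≤ q := hq.out.one_lt.le
    zify [hq1]
    have hs : (wtot q red z c : ℤ) = cov + wmid q red j z c := by exact_mod_cast hsplit
    have hl : (wmid q red j z c : ℤ) + winvtot q red j z c =
      wtot q red (fun a : A => z (j a)) c := by exact_mod_cast hloc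
    have hq0 : (q : ℤ) ≠ 0 := by exact_mod_cast hq.out.ne_zero
    -- `cov = q * winvtot`
    have hc : (cov : ℤ) = q * winvtot q red j z c := by
      rw [hs, ← hl] at hpe
      linear_combination hpe
    rw [hs, hc, ← hl]
    ring
  · -- index `q ≠ p`
    unfold co
    rw [if_neg hqp]
    have hle : ∀ Q : Subgroup Γ, IsPGroup p Q → Q ≤ j.range := by
      intro Q hQ x hx
      obtain ⟨k, hk⟩ := hQ ⟨x, hx⟩
      have hk' : x ^ p ^ k = 1 := congrArg Subtype.val hk
      rw [← QuotientGroup.eq_one_iff]
      have h1 : orderOf (x : Γ ⧸ j.range) ∣ p ^ k := by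
        apply orderOf_dvd_of_pow_eq_one
        rw [← QuotientGroup.mk_pow, hk', QuotientGroup.mk_one]
      have h2 : orderOf (x : Γ ⧸ j.range) ∣ q := hG ▸ orderOf_dvd_natCard _
      have h3 : Nat.Coprime (p ^ k) q :=
        Nat.Coprime.pow_left k ((Nat.coprime_primes hp.out hq.out).2 (Ne.symm hqp))
      exact orderOf_eq_one_iff.1 (Nat.eq_one_of_dvd_coprimes h3 h1 h2)
    have hsplit : wtot p red z c = wmid p red j z c := by
      rw [wmid_eq p red j hj]
      unfold wtot
      refine finsum_congr fun Q => ?_
      by_cases hQ : IsPGroup p Q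
      · rw [if_pos hQ, if_pos ⟨hQ, hle Q hQ⟩]
      · rw [if_neg hQ, if_neg fun h => hQ h.1]
    rw [hsplit]
    unfold wmid winvtot wtot
    rw [finsum_eq_sum_of_fintype, finsum_eq_sum_of_fintype, finsum_eq_sum_of_fintype,
      Finset.mul_sum, ← Finset.sum_add_distrib]
    refine Finset.sum_congr rfl fun Q₁ _ => ?_
    split_ifs with hQ₁
    · rcases hld Q₁ with ⟨h1, h2⟩ | ⟨Y, i1, i2, X, i3, zY, m, h1, h2, h3, h4, h5⟩
      · rw [h1, h2, mul_zero, add_zero]
      · have h6 := clifq p q F red Y X zY c hqp h1 h2
        rw [h3, h4, h5]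
        calc q * m * Nw p red (⊥ : Subgroup Y) zY c
            = m * (q * Nw p red (⊥ : Subgroup Y) zY c) := by ring
          _ = _ := by rw [h6]; ring
    · rfl

end Pool.Agent.E8helper60.AW
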