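import Pool.Agent.E8helper60.AW.Clifq
import Pool.Agent.Y487.NV.PewL

/-!
# Weights and normal subgroups of prime index: the local statement
-/

set_option autoImplicit false
set_option linter.unusedSectionVars false

open scoped Classical

noncomputable section

namespace Pool.Agent.E8helper60.AW

open Pool.Agent.Y63.NV Pool.Agent.Y487.NV
open Pool.Agent.Y210.NV3 (nw_comap wt_iff wt_exists)
open Pool.Agent.Y63.AWC (IsIrreducibleCharacter)

variable {F Γ A : Type} [Field F] [Group Γ] [Group A] [Finite Γ] [Finite A]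

/-- the characters in question are fixed by an element outside of the range -/
def FixedOut (j : A →* Γ) (Q : Subgroup A) (χ : Subgroup.normalizer (Q : Set A) → ℂ) : Prop :=
  ∃ s : Γ, s ∉ j.range ∧ (∀ a b : A, j b = s * j a * s⁻¹ → (a ∈ Q ↔ b ∈ Q)) ∧
    ∀ x y : Subgroup.normalizer (Q : Set A), j (y : A) = s * j (x : A) * s⁻¹ → χ y = χ x

/-- the weighted number of weights with the subgroup `Q` which are fixed from outside -/
def winv (p : ℕ) (red : integralClosure ℤ ℂ →+* F) (j : A →* Γ) (z : Γ → F) (c : F)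
    (Q : Subgroup A) : ℕ :=
  Nat.card (Subgroup.normalizer (Q : Set A)) *
    Nat.card {χ : Subgroup.normalizer (Q : Set A) → ℂ //
      (IsWt p (Q.subgroupOf (Subgroup.normalizer (Q : Set A))) χ ∧
        centralValue red χ (fun x => z (j x)) = c) ∧ FixedOut j Q χ}

/-- inflation with a further condition -/
theorem nw_comap_pred {J K : Type} [Group J] [Group K] (π : J →* K) (hπ : Function.Surjective π)
    [Finite J] (p : ℕ) (red : integralClosure ℤ ℂ →+* F) (Q : Subgroup K) (f : J → F)
    (hf : IsClassFun f) (c : F) (R : (K → ℂ) → Prop) (R' : (J → ℂ) → Prop)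
    (hR : ∀ χ : K → ℂ, IsWt p Q χ → (R χ ↔ R' (fun x => χ (π x)))) :
    Nat.card {χ : J → ℂ // (IsWt p (Q.comap π) χ ∧ centralValue red χ f = c) ∧ R' χ} =
      Nat.card {χ : K → ℂ // (IsWt p Q χ ∧
        centralValue red χ (fun y => fib π f y) = c) ∧ R χ} := by
  unfold fib
  have hK : Finite K := Finite.of_surjective π hπ
  have h1 := Pool.Agent.Y930.NV.inf
  symm
  refine Nat.card_congr (Equiv.ofBijective
    (fun χ => ⟨fun x => χ.1 (π x), ⟨(wt_iff π hπ p Q χ.1).2 χ.2.1.1, ?_⟩,
      (hR χ.1 χ.2.1.1).1 χ.2.2⟩) ⟨?_, ?_⟩)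
  · rw [h1 F red J K π χ.1 f hπ χ.2.1.1.irr hf]
    exact χ.2.1.2
  · intro χ χ' h
    apply Subtype.ext
    funext y
    obtain ⟨x, rfl⟩ := hπ y
    exact congrFun (congrArg Subtype.val h) x
  · rintro ⟨χ, ⟨h2, h3⟩, h4⟩
    obtain ⟨χ', rfl⟩ := wt_exists π hπ p Q h2
    have h5 := (wt_iff π hπ p Q χ').1 h2
    refine ⟨⟨χ', ⟨h5, ?_⟩, (hR χ' h5).2 h4⟩, rfl⟩
    rw [← h1 F red J K π χ' f hπ h5.irr hf]
    exact h3

theorem fib_eq {N Y B : Type} [Group N] [Group Y] [Group B] (π : N →* Y) (zN : N → F)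
    (i : B →* N) (hi : Function.Injective i) (V : Subgroup Y)
    (hV : ∀ n, π n ∈ V ↔ n ∈ i.range) (φ : B →* V) (hφ : ∀ a, (φ a : Y) = π (i a)) (fA : B → F)
    (hfA : ∀ a, fA a = zN (i a)) (y : V) : fib φ fA y = fib π zN y := by
  unfold fib
  have e1 : ∀ n : N, (if π n = (y : Y) then zN n else 0) =
      ∑ᶠ (_ : n ∈ Set.range i), (if π n = (y : Y) then zN n else 0) := by
    intro n
    rw [finsum_eq_if]
    by_cases hn : n ∈ Set.range i
    · rw [if_pos hn]
    · rw [if_neg hn, if_neg]
      intro h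
      apply hn
      have h2 : π n ∈ V := by rw [h]; exact y.2
      exact (hV n).1 h2
  rw [finsum_congr e1, finsum_mem_range hi]
  refine finsum_congr fun a => ?_
  have h3 : φ a = y ↔ π (i a) = (y : Y) := by
    rw [Subtype.ext_iff, hφ]
  rw [hfA]
  by_cases h4 : φ a = y
  · rw [if_pos h4, if_pos (h3.1 h4)]
  · rw [if_neg h4, if_neg fun h5 => h4 (h3.2 h5)]

theorem idx_sub (G : Subgroup Γ) [hGn : G.Normal] {q : ℕ} (hq : q.Prime)
    (hG : Nat.card (Γ ⧸ G) = q) (N : Subgroup Γ) (hN : ¬ N ≤ G) : (G.subgroupOf N).index = q := by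
  have h1 : G.index = q := hG
  have h2 : G.relIndex N ∣ G.index := Subgroup.relIndex_dvd_index_of_normal G N
  rw [h1] at h2
  rcases (Nat.dvd_prime hq).1 h2 with h3 | h3
  · exact absurd (Subgroup.relIndex_eq_one.1 h3) hN
  · exact h3

/-- **The local data.** -/
theorem local_data (p q : ℕ) (hq : q.Prime) (red : integralClosure ℤ ℂ →+* F) (j : A →* Γ)
    (hj : Function.Injective j) (hjn : j.range.Normal) (z : Γ → F) (c : F)
    (hz : InZ j.range z) (hG : Nat.card (Γ ⧸ j.range) = q) (Q₁ : Subgroup A) :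
    (wl p red z c (Q₁.map j) = wl p red (fun a : A => z (j a)) c Q₁ ∧
      winv p red j z c Q₁ = 0) ∨
    ∃ (Y : Type) (_ : Group Y) (_ : Finite Y) (X : Subgroup Y) (_ : X.Normal) (zY : Y → F) (m : ℕ),
      Nat.card (Y ⧸ X) = q ∧ InZ X zY ∧
      wl p red z c (Q₁.map j) = q * m * Nw p red (⊥ : Subgroup Y) zY c ∧
      wl p red (fun a : A => z (j a)) c Q₁ = m * Nw p red (⊥ : Subgroup X) (fun x => zY x) c ∧
      winv p red j z c Q₁ = m * numInvDzL p red X zY c := by
  obtain ⟨G, hGdef⟩ : ∃ G : Subgroup Γ, G = j.range := ⟨_, rfl⟩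
  have hGn : G.Normal := by rw [hGdef]; exact hjn
  rw [← hGdef] at hz hG
  have hmemG : ∀ x : Γ, x ∈ G ↔ ∃ a, j a = x := by
    intro x
    rw [hGdef]
    rfl
  obtain ⟨Q, hQ⟩ : ∃ Q : Subgroup Γ, Q = Q₁.map j := ⟨_, rfl⟩
  rw [← hQ]
  have hQG : Q ≤ G := by
    rw [hQ, hGdef]
    exact Subgroup.map_le_range j Q₁
  have hQcomap : Q.comap j = Q₁ := by
    rw [hQ]
    exact Subgroup.comap_map_eq_self_of_injective hj Q₁
  have hmemQ : ∀ x : A, j x ∈ Q ↔ x ∈ Q₁ := by
    intro x
    rw [← hQcomap]
    rfl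
  have hAG := Subgroup.comap_normalizer_eq_of_le_range (f := j) (H := Q)
    (by rw [← hGdef]; exact hQG)
  rw [hQcomap] at hAG
  have hA0 : ∀ x : A, x ∈ Subgroup.normalizer (Q₁ : Set A) ↔
      j x ∈ Subgroup.normalizer (Q : Set Γ) := by
    intro x
    rw [← hAG]
    rfl
  -- elements which preserve `Q₁` normalise `Q`
  have hnor : ∀ s : Γ, (∀ a b : A, j b = s * j a * s⁻¹ → (a ∈ Q₁ ↔ b ∈ Q₁)) ↔
      s ∈ Subgroup.normalizer (Q : Set Γ) := by
    intro s
    rw [Subgroup.mem_normalizer_iff]
    constructor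
    · intro h x
      by_cases hx : x ∈ G
      · obtain ⟨a, rfl⟩ := (hmemG x).1 hx
        obtain ⟨b, hb⟩ := (hmemG _).1 (hGn.conj_mem _ hx s)
        rw [← hb, hmemQ, hmemQ]
        exact h a b hb
      · constructor
        · intro h2
          exact absurd (hQG h2) hx
        · intro h2
          have h3 := hGn.conj_mem _ (hQG h2) s⁻¹
          have h4 : s⁻¹ * (s * x * s⁻¹) * s⁻¹⁻¹ = x := by group
          rw [h4] at h3
          exact absurd h3 hx
    · intro h a b hb
      rw [← hmemQ, ← hmemQ, hb]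
      exact h (j a)
  by_cases hN : Subgroup.normalizer (Q : Set Γ) ≤ G
  · left
    obtain ⟨i, hi⟩ : ∃ i : Subgroup.normalizer (Q₁ : Set A) →* Γ, ∀ x, i x = j (x : A) :=
      ⟨j.comp (Subgroup.subtype _), fun x => rfl⟩
    have hii : Function.Injective i := by
      intro x y hxy
      rw [hi, hi] at hxy
      exact Subtype.ext (hj hxy)
    have hV : ∀ n : Γ, (MonoidHom.id Γ) n ∈ Subgroup.normalizer (Q : Set Γ) ↔ n ∈ i.range := by
      intro n
      rw [MonoidHom.id_apply]
      constructor
      · intro hn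
        obtain ⟨a, rfl⟩ := (hmemG n).1 (hN hn)
        exact ⟨⟨a, (hA0 _).2 hn⟩, hi _⟩
      · rintro ⟨x, rfl⟩
        rw [hi]
        exact (hA0 _).1 x.2
    have hs : Function.Surjective (MonoidHom.id Γ) := Function.surjective_id
    have e1 := card_gen (MonoidHom.id Γ) hs i hii _ hV
    have e2 := nw_gen p red (MonoidHom.id Γ) hs z i hii _ hV
      (Q₁.subgroupOf (Subgroup.normalizer (Q₁ : Set A)))
      (Q.subgroupOf (Subgroup.normalizer (Q : Set Γ))) (by
        intro a h
        rw [Subgroup.mem_subgroupOf, Subgroup.mem_subgroupOf]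
        change _ ↔ i a ∈ Q
        rw [hi, hmemQ]) (fun x => z (j x)) (fun a => by rw [hi]) (fun g x => by
        change z (j ((g * x * g⁻¹ : Subgroup.normalizer (Q₁ : Set A)) : A)) = z (j (x : A))
        have : ((g * x * g⁻¹ : Subgroup.normalizer (Q₁ : Set A)) : A) = g * x * (g : A)⁻¹ := rfl
        rw [this, map_mul, map_mul, map_inv]
        exact hz.conj _ _) c
    have e3 : ∀ y : Γ, fib (MonoidHom.id Γ) z y = z y := by
      intro y
      unfold fib
      rw [finsum_eq_single _ y]
      · rw [if_pos (MonoidHom.id_apply Γ y)]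
      · intro x hx
        rw [if_neg]
        rw [MonoidHom.id_apply]
        exact hx
    simp only [e3] at e2
    have e4 : (MonoidHom.id Γ).ker = ⊥ := by
      rw [MonoidHom.ker_eq_bot_iff]
      exact Function.injective_id
    rw [e4, Subgroup.card_bot, one_mul] at e1
    refine ⟨?_, ?_⟩
    · unfold wl
      rw [e2, e1]
    · unfold winv
      rw [Nat.mul_eq_zero]
      right
      rw [Nat.card_eq_zero]
      left
      refine ⟨fun χ => ?_⟩
      obtain ⟨s, hs1, hs2, -⟩ := χ.2.2
      apply hs1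
      rw [← hGdef]
      exact hN ((hnor s).1 hs2)
  · right
    obtain ⟨N, hNdef⟩ : ∃ N : Subgroup Γ, N = Subgroup.normalizer (Q : Set Γ) := ⟨_, rfl⟩
    rw [← hNdef] at hN hA0 hnor
    have hQN : Q ≤ N := by rw [hNdef]; exact Subgroup.le_normalizer
    have hnorm : (Q.subgroupOf N).Normal := by
      subst hNdef
      infer_instance
    have hwQ : wl p red z c Q = Nat.card N * Nw p red (Q.subgroupOf N) (fun x => z x) c := by
      subst hNdef
      rfl
    obtain ⟨π, hπ⟩ : ∃ π : N →* N ⧸ Q.subgroupOf N, π = QuotientGroup.mk' (Q.subgroupOf N) :=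
      ⟨_, rfl⟩
    have hπs : Function.Surjective π := by
      rw [hπ]; exact QuotientGroup.mk'_surjective _
    have hπk : π.ker = Q.subgroupOf N := by
      rw [hπ]; exact QuotientGroup.ker_mk' _
    have hπ1 : ∀ x : N, π x = 1 ↔ (x : Γ) ∈ Q := by
      intro x
      rw [← MonoidHom.mem_ker, hπk, Subgroup.mem_subgroupOf]
    have hcardQ : Nat.card (Q.subgroupOf N) = Nat.card Q :=
      Nat.card_congr (Subgroup.subgroupOfEquivOfLe hQN).toEquiv
    -- the image of `G ∩ N`
    obtain ⟨X, hX⟩ : ∃ X : Subgroup (N ⧸ Q.subgroupOf N), X = (G.subgroupOf N).map π := ⟨_, rfl⟩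
    have hXn : X.Normal := by
      rw [hX]
      exact Subgroup.Normal.map inferInstance π hπs
    have hXm : ∀ x : N, π x ∈ X ↔ (x : Γ) ∈ G := by
      intro x
      rw [hX]
      constructor
      · rintro ⟨y, hy, hyx⟩
        have h3 : π (y⁻¹ * x) = 1 := by rw [map_mul, map_inv, hyx, inv_mul_cancel]
        have h4 : ((y⁻¹ * x : N) : Γ) ∈ G := hQG ((hπ1 _).1 h3)
        have h5 : (y : Γ) ∈ G := hy
        have h6 := G.mul_mem h5 h4
        have h7 : (y : Γ) * ((y⁻¹ * x : N) : Γ) = x := by
          push_cast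
          group
        rwa [h7] at h6
      · intro hx
        exact ⟨x, hx, rfl⟩
    have hXc : X.comap π = G.subgroupOf N := by
      ext x
      rw [Subgroup.mem_comap, hXm, Subgroup.mem_subgroupOf]
    have hXidx : Nat.card ((N ⧸ Q.subgroupOf N) ⧸ X) = q := by
      have h3 : (X.comap π).index = X.index := Subgroup.index_comap_of_surjective X hπs
      rw [hXc] at h3
      have h4 : X.index = q := by
        rw [← h3]
        exact idx_sub G hq hG N hN
      exact h4
    have hcardN : Nat.card N = Nat.card Q * Nat.card (N ⧸ Q.subgroupOf N) := by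
      rw [Subgroup.card_eq_card_quotient_mul_card_subgroup (Q.subgroupOf N), hcardQ, mul_comm]
    have hcardY : Nat.card (N ⧸ Q.subgroupOf N) = q * Nat.card X := by
      rw [Subgroup.card_eq_card_quotient_mul_card_subgroup X, hXidx]
    -- the label function
    obtain ⟨zY, hzY⟩ : ∃ zY : N ⧸ Q.subgroupOf N → F, zY = fib π (fun x : N => z x) := ⟨_, rfl⟩
    have hInZ : InZ X zY := by
      constructor
      · intro g x
        obtain ⟨g', rfl⟩ := hπs g
        rw [hzY]
        unfold fib
        rw [← finsum_comp_equiv (MulAut.conj g').toEquiv]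
        refine finsum_congr fun n => ?_
        have h3 : (MulAut.conj g').toEquiv n = g' * n * g'⁻¹ := rfl
        rw [h3, map_mul, map_mul, map_inv]
        have h4 : (fun x : N => z (x : Γ)) (g' * n * g'⁻¹) = (fun x : N => z (x : Γ)) n :=
          hz.conj g' n
        rw [h4]
        have h5 : π g' * π n * (π g')⁻¹ = π g' * x * (π g')⁻¹ ↔ π n = x := by
          rw [mul_left_inj, mul_right_inj]
        by_cases h6 : π n = x
        · rw [if_pos h6, if_pos (h5.2 h6)]
        · rw [if_neg h6, if_neg fun h7 => h6 (h5.1 h7)]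
      · intro x hx
        rw [hzY]
        unfold fib
        refine (finsum_congr fun n => ?_).trans finsum_zero
        split_ifs with h4
        · refine hz.supp n fun h5 => hx ?_
          rw [← h4, hXm]
          exact h5
        · rfl
    -- the group `N_A(Q₁)`
    obtain ⟨i, hi⟩ : ∃ i : Subgroup.normalizer (Q₁ : Set A) →* N, ∀ x, (i x : Γ) = j (x : A) :=
      ⟨(j.comp (Subgroup.subtype _)).codRestrict N fun x => (hA0 x).1 x.2, fun x => rfl⟩
    have hii : Function.Injective i := by
      intro x y hxy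
      have h3 := congrArg (fun t : N => (t : Γ)) hxy
      simp only [hi] at h3
      exact Subtype.ext (hj h3)
    have hiV : ∀ n : N, π n ∈ X ↔ n ∈ i.range := by
      intro n
      rw [hXm]
      constructor
      · intro hn
        obtain ⟨a, ha⟩ := (hmemG _).1 hn
        exact ⟨⟨a, (hA0 _).2 (by rw [ha]; exact n.2)⟩, Subtype.ext ((hi _).trans ha)⟩
      · rintro ⟨x, rfl⟩
        rw [hi]
        exact (hmemG _).2 ⟨_, rfl⟩
    have hcl : IsClassFun (fun x : Subgroup.normalizer (Q₁ : Set A) => z (j (x : A))) := by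
      intro g x
      change z (j ((g * x * g⁻¹ : Subgroup.normalizer (Q₁ : Set A)) : A)) = z (j (x : A))
      have : ((g * x * g⁻¹ : Subgroup.normalizer (Q₁ : Set A)) : A) = g * x * (g : A)⁻¹ := rfl
      rw [this, map_mul, map_mul, map_inv]
      exact hz.conj _ _
    have hdzX := nw_gen p red π hπs (fun x : N => z x) i hii X hiV
      (Q₁.subgroupOf (Subgroup.normalizer (Q₁ : Set A))) ⊥ (by
        intro a h
        rw [Subgroup.mem_bot, Subtype.ext_iff]
        change _ ↔ π (i a) = 1
        rw [hπ1, hi, hmemQ, Subgroup.mem_subgroupOf]) (fun x => z (j x)) (fun a => by rw [hi])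
        hcl c
    have hcardA := card_gen π hπs i hii X hiV
    rw [hπk, hcardQ] at hcardA
    have hdzY : Nw p red (Q.subgroupOf N) (fun x => z x) c =
        Nw p red (⊥ : Subgroup (N ⧸ Q.subgroupOf N)) zY c := by
      have h3 := nw_comap π hπs Pool.Agent.Y930.NV.inf p red ⊥ (fun x : N => z x)
        (fun g x => hz.conj _ _) c
      have h4 : (⊥ : Subgroup (N ⧸ Q.subgroupOf N)).comap π = Q.subgroupOf N := hπk
      rw [h4] at h3
      rw [h3, hzY]
      rfl
    -- the surjection `N_A(Q₁) → X`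
    obtain ⟨φ, hφ⟩ : ∃ φ : Subgroup.normalizer (Q₁ : Set A) →* X, ∀ a, (φ a : N ⧸ Q.subgroupOf N) =
        π (i a) := ⟨(π.comp i).codRestrict X (fun a => (hiV _).2 ⟨a, rfl⟩), fun a => rfl⟩
    have hφs : Function.Surjective φ := by
      rintro ⟨v, hv⟩
      obtain ⟨n, rfl⟩ := hπs v
      obtain ⟨a, rfl⟩ := (hiV n).1 hv
      exact ⟨a, Subtype.ext (hφ a)⟩
    have hSφ : (⊥ : Subgroup X).comap φ = Q₁.subgroupOf (Subgroup.normalizer (Q₁ : Set A)) := by
      ext a
      rw [Subgroup.mem_comap, Subgroup.mem_bot, Subtype.ext_iff, hφ]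
      change π (i a) = 1 ↔ _
      rw [hπ1, hi, hmemQ, Subgroup.mem_subgroupOf]
    have hfz : (fun y : X => fib φ (fun x : Subgroup.normalizer (Q₁ : Set A) => z (j (x : A))) y) =
        fun y : X => zY y := by
      funext y
      rw [hzY]
      exact fib_eq π (fun x : N => z x) i hii X hiV φ hφ _ (fun a => by rw [hi]) y
    have hYfin : Finite (N ⧸ Q.subgroupOf N) := inferInstance
    -- the invariant characters
    have hinv : Nat.card {χ : Subgroup.normalizer (Q₁ : Set A) → ℂ //
        (IsWt p (Q₁.subgroupOf (Subgroup.normalizer (Q₁ : Set A))) χ ∧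
          centralValue red χ (fun x => z (j x)) = c) ∧ FixedOut j Q₁ χ} =
        numInvDzL p red X zY c := by
      have h3 := nw_comap_pred φ hφs p red (⊥ : Subgroup X)
        (fun x : Subgroup.normalizer (Q₁ : Set A) => z (j (x : A))) hcl c
        (fun χ => ∀ (y : N ⧸ Q.subgroupOf N) (a b : X), (b : N ⧸ Q.subgroupOf N) = y * a * y⁻¹ →
          χ b = χ a)
        (FixedOut j Q₁) ?_
      · rw [hSφ, hfz] at h3
        rw [h3]
        unfold numInvDzL
        refine Nat.card_congr (Equiv.subtypeEquivRight fun χ => ?_)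
        have h0 : (Nat.card (⊥ : Subgroup X)).factorization p = 0 := by
          rw [Subgroup.card_bot, Nat.factorization_one, Finsupp.coe_zero, Pi.zero_apply]
        constructor
        · rintro ⟨⟨h5, h6⟩, h7⟩
          obtain ⟨n, hn, hn2⟩ := h5.defectZero
          rw [h0, add_zero] at hn2
          exact ⟨⟨h5.irr, ⟨n, hn, hn2⟩, h7⟩, h6⟩
        · rintro ⟨⟨h5, ⟨n, hn, hn2⟩, h7⟩, h6⟩
          refine ⟨⟨⟨h5, fun t ht x => ?_, n, hn, ?_⟩, h6⟩, h7⟩
          · rw [Subgroup.mem_bot.1 ht, one_mul]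
          · rw [h0, add_zero, hn2]
      · intro χ hχ
        constructor
        · intro h
          obtain ⟨s, hsN, hsG⟩ := SetLike.not_le_iff_exists.1 hN
          refine ⟨s, by rw [← hGdef]; exact hsG, (hnor s).2 hsN, fun x y hxy => ?_⟩
          refine h (π ⟨s, hsN⟩) (φ x) (φ y) ?_
          rw [hφ, hφ, ← map_mul, ← map_inv, ← map_mul]
          congr 1
          apply Subtype.ext
          rw [hi, hxy]
          change _ = s * (i x : Γ) * s⁻¹
          rw [hi]
        · rintro ⟨s, hs1, hs2, hs3⟩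
          rw [← hGdef] at hs1
          have hsN := (hnor s).1 hs2
          have : Fintype (N ⧸ Q.subgroupOf N) := Fintype.ofFinite _
          have hqF : Fact q.Prime := ⟨hq⟩
          have hr : Nat.card (N ⧸ Q.subgroupOf N) = q * Nat.card X := hcardY
          have hirr : Pool.Agent.Helper884.IC.IsIrrChar χ := hχ.irr
          have hmem : π ⟨s, hsN⟩ ∈ Pool.Agent.Y63.AWC.St X χ := by
            rw [Pool.Agent.Y63.AWC.mem_St]
            funext m
            unfold Pool.Agent.Y63.AWC.cj
            obtain ⟨x, rfl⟩ := hφs m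
            obtain ⟨y, hy⟩ := hφs (MulAut.conjNormal (π ⟨s, hsN⟩) (φ x))
            rw [← hy]
            -- choose `y` such that `j y = s * j x * s⁻¹`
            obtain ⟨b, hb⟩ := (hmemG _).1 (hGn.conj_mem (j (x : A)) ((hmemG _).2 ⟨_, rfl⟩) s)
            have hbN : b ∈ Subgroup.normalizer (Q₁ : Set A) := by
              rw [hA0, hb]
              exact N.mul_mem (N.mul_mem hsN ((hA0 _).1 x.2)) (N.inv_mem hsN)
            have hb2 : φ ⟨b, hbN⟩ = φ y := by
              rw [hy]
              apply Subtype.ext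
              rw [MulAut.conjNormal_apply, hφ, hφ, ← map_mul, ← map_inv, ← map_mul]
              congr 1
              apply Subtype.ext
              rw [hi]
              change j b = s * (i x : Γ) * s⁻¹
              rw [hb, hi]
            rw [← hb2]
            exact hs3 x ⟨b, hbN⟩ hb
          have hiv : Pool.Agent.Y564.NV.Iv X χ := by
            rw [Pool.Agent.Y564.NV.iv_iff]
            rcases Pool.Agent.Y564.NV.st_cases X hr hirr with h6 | h6
            · exfalso
              have h7 : X ≤ Pool.Agent.Y63.AWC.St X χ := Pool.Agent.Y63.AWC.le_St X hirr.isClass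
              have h8 : X = Pool.Agent.Y63.AWC.St X χ :=
                Subgroup.eq_of_le_of_card_ge h7 (le_of_eq h6.2.2)
              rw [← h8, hXm] at hmem
              exact hs1 hmem
            · exact h6.2.2
          exact hiv
    refine ⟨_, _, hYfin, X, hXn, zY, Nat.card (Subgroup.normalizer (Q₁ : Set A)), hXidx, hInZ,
      ?_, ?_, ?_⟩
    · rw [hwQ, hdzY, hcardN, hcardY, hcardA]
      ring
    · unfold wl
      rw [hdzX, ← hzY]
    · unfold winv
      rw [hinv]

end Pool.Agent.E8helper60.AW
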