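import Pool.Agent.E8helper60.AW.Wr
import Pool.Agent.Y63.NV.Pell77

/-!
# Irreducible traces and powers
-/

set_option autoImplicit false
set_option linter.unusedSectionVars false

open scoped Classical

noncomputable section

namespace Pool.Agent.E8helper60.AW

open Pool.Agent.Y63.NV

theorem span0 : S_SPAN := fun p _ F _ _ _ N _ _ f hf hf' =>
  Pool.Agent.Y275.NV.wed F N f hf (Pool.Agent.Y705.NV.nil p F N f hf hf')

theorem schur0 : S_SCHUR := Pool.Agent.Y705.NV.schur Pool.Agent.Y914.NV.irr

variable {F : Type} [Field F]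

theorem irr_cls {G : Type} [Group G] {φ : G → F} (h : IsIrrTrace φ) : IsClassFun φ := by
  obtain ⟨V, _, _, _, ρ, _, rfl⟩ := h
  exact fun g x => ρ.char_conj x g

/-- the irreducible traces on which `e` acts as the identity -/
def LL {G : Type} [Group G] (e : G → F) : Type :=
  {φ : G → F // IsIrrTrace φ ∧ ∀ x, ∑ᶠ g : G, e g * φ (g * x) = φ x}

/-- the number of these irreducible traces -/
def nl {G : Type} [Group G] (e : G → F) : ℕ := Nat.card (LL e)

instance LL_fin [IsAlgClosed F] {G : Type} [Group G] [Finite G] (e : G → F) : Finite (LL e) := by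
  have h1 := (Pool.Agent.Y914.NV.irr F G).1.to_subtype
  exact Finite.of_injective (β := {φ : G → F | IsIrrTrace φ}) (fun φ => ⟨φ.1, φ.2.1⟩)
    fun φ φ' h => Subtype.ext (congrArg (fun t : {φ : G → F | IsIrrTrace φ} => t.1) h)

/-- invariance under isomorphisms -/
theorem nl_equiv {G H : Type} [Group G] [Group H] (α : G ≃* H) (e : H → F) :
    nl (fun x => e (α x)) = nl e := by
  unfold nl LL
  symm
  refine Nat.card_congr
    { toFun := fun φ => ⟨fun x => φ.1 (α x), B77.irr_comp' α φ.2.1, fun x => ?_⟩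
      invFun := fun φ => ⟨fun x => φ.1 (α.symm x), B77.irr_comp' α.symm φ.2.1, fun x => ?_⟩
      left_inv := fun φ => Subtype.ext (funext fun x => by simp)
      right_inv := fun φ => Subtype.ext (funext fun x => by simp) }
  · have h1 := φ.2.2 (α x)
    rw [← finsum_comp_equiv α.toEquiv] at h1
    refine Eq.trans (finsum_congr fun g => ?_) h1
    change e (α g) * φ.1 (α (g * x)) = e (α g) * φ.1 (α g * α x)
    rw [map_mul]
  · have h1 := φ.2.2 (α.symm x)
    refine Eq.trans ?_ h1
    rw [← finsum_comp_equiv α.toEquiv]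
    refine finsum_congr fun g => ?_
    change e (α g) * φ.1 (α.symm (α g * x)) = e (α g) * φ.1 (g * α.symm x)
    rw [map_mul, α.symm_apply_apply]

section prod

variable [IsAlgClosed F] {G : Type} [Group G] [Finite G] {ι : Type} [Fintype ι] {p : ℕ}
  [Fact p.Prime] [CharP F p] {red : integralClosure ℤ ℂ →+* F} {e : G → F}

theorem act_tens (e : G → F) (φ : ι → G → F) (x : ι → G) :
    ∑ᶠ g : ι → G, (tens fun _ : ι => e) g * tens φ (g * x) =
      ∏ i, ∑ᶠ g : G, e g * φ i (g * x i) := by
  have : Fintype G := Fintype.ofFinite _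
  rw [finsum_eq_sum_of_fintype, Finset.prod_congr rfl fun i _ => finsum_eq_sum_of_fintype _]
  rw [Finset.prod_univ_sum, Fintype.piFinset_univ]
  refine Finset.sum_congr rfl fun g _ => ?_
  unfold tens
  rw [← Finset.prod_mul_distrib]
  rfl

/-- the tensor product -/
def tensMap (e : G → F) (θ : ι → LL e) : LL (tens fun _ : ι => e) :=
  ⟨tens fun i => (θ i).1, s_tens F ι _ _ fun i => (θ i).2.1, fun x => by
    rw [act_tens]
    exact Finset.prod_congr rfl fun i _ => (θ i).2.2 (x i)⟩

theorem tensMap_bij (he : CI p red e) : Function.Bijective (tensMap (ι := ι) e) := by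
  constructor
  · intro θ θ' h
    have h0 : tens (fun i => (θ i).1) = tens fun i => (θ' i).1 := congrArg Subtype.val h
    have h1 : ∀ i, ∃ x, (θ i).1 x ≠ 0 := fun i => (schur0 F G _ (θ i).2.1).1
    choose x hx using h1
    funext i
    apply Subtype.ext
    have hval : ∀ (η : ι → LL e) (y : G), tens (fun i => (η i).1) (Function.update x i y) =
        (η i).1 y * ∏ k ∈ Finset.univ.erase i, (η k).1 (x k) := by
      intro η y
      unfold tens
      rw [← Finset.mul_prod_erase _ _ (Finset.mem_univ i), Function.update_self]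
      congr 1
      refine Finset.prod_congr rfl fun k hk => ?_
      rw [Function.update_of_ne (Finset.ne_of_mem_erase hk)]
    have ha : ∏ k ∈ Finset.univ.erase i, (θ k).1 (x k) ≠ 0 :=
      Finset.prod_ne_zero_iff.2 fun k _ => hx k
    have h5 : (θ i).1 ∈ ({(θ' i).1} : Set (G → F)) := by
      refine mem_of_span (θ i).2.1 _ ?_ ?_
      · intro ψ hψ
        rw [Set.mem_singleton_iff] at hψ
        rw [hψ]
        exact (θ' i).2.1
      · rw [Submodule.mem_span_singleton]
        refine ⟨(∏ k ∈ Finset.univ.erase i, (θ' k).1 (x k)) *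
          (∏ k ∈ Finset.univ.erase i, (θ k).1 (x k))⁻¹, ?_⟩
        funext y
        rw [Pi.smul_apply, smul_eq_mul]
        have h4 : tens (fun i => (θ i).1) (Function.update x i y) =
          tens (fun i => (θ' i).1) (Function.update x i y) := by rw [h0]
        rw [hval, hval] at h4
        field_simp
        linear_combination -h4
    exact h5
  · rintro ⟨φ, h1, h2⟩
    obtain ⟨θ, hθ, rfl⟩ := s_tensp p F ι _ φ h1
    have h3 : ∀ i, ∀ x, ∑ᶠ g : G, e g * θ i (g * x) = θ i x := by
      intro i
      rcases he.irr _ (hθ i) with h4 | h4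
      · exfalso
        obtain ⟨x, hx⟩ := (schur0 F _ _ h1).1
        apply hx
        rw [← h2 x, act_tens]
        exact Finset.prod_eq_zero (Finset.mem_univ i) (h4 _)
      · exact h4
    exact ⟨fun i => ⟨θ i, hθ i, h3 i⟩, rfl⟩

theorem nl_pow (he : CI p red e) : nl (tens fun _ : ι => e) = nl e ^ Fintype.card ι := by
  unfold nl
  rw [← Nat.card_congr (Equiv.ofBijective _ (tensMap_bij (ι := ι) he)), Nat.card_fun,
    Nat.card_eq_fintype_card (α := ι)]

end prod

/-! ### The space of functions -/

section space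

/-- the functions on which `e` acts as the identity -/
def VV (p : ℕ) {G : Type} [Group G] [Finite G] (e : G → F) : Submodule F (G → F) where
  carrier := {f | (∀ g x : G, f (g * x * g⁻¹) = f x) ∧ (∀ x, f (pp p x) = f x) ∧
    ∀ x, ∑ᶠ g : G, e g * f (g * x) = f x}
  zero_mem' := ⟨fun _ _ => rfl, fun _ => rfl, fun x => by simp⟩
  add_mem' := by
    rintro a b ⟨h1, h2, h3⟩ ⟨h4, h5, h6⟩
    refine ⟨fun g x => ?_, fun x => ?_, fun x => ?_⟩
    · rw [Pi.add_apply, Pi.add_apply, h1, h4]
    · rw [Pi.add_apply, Pi.add_apply, h2, h5]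
    · simp only [Pi.add_apply, mul_add]
      rw [finsum_add_distrib (Set.toFinite _) (Set.toFinite _), h3, h6]
  smul_mem' := by
    rintro c a ⟨h1, h2, h3⟩
    refine ⟨fun g x => ?_, fun x => ?_, fun x => ?_⟩
    · rw [Pi.smul_apply, Pi.smul_apply, h1]
    · rw [Pi.smul_apply, Pi.smul_apply, h2]
    · have h4 : ∀ g, e g * (c • a) (g * x) = c * (e g * a (g * x)) := by
        intro g
        rw [Pi.smul_apply, smul_eq_mul]
        ring
      have h5 := smul_finsum' c (f := fun g => e g * a (g * x)) (Set.toFinite _)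
      simp only [smul_eq_mul] at h5
      rw [finsum_congr h4, Pi.smul_apply, smul_eq_mul, ← h3 x]
      exact h5.symm

variable [IsAlgClosed F] {p : ℕ} [Fact p.Prime] [CharP F p] {G : Type} [Group G] [Finite G]

theorem VV_span (e : G → F) (he : IsClassFun e) :
    VV p e = Submodule.span F (Set.range fun φ : LL e => φ.1) := by
  have : Fintype G := Fintype.ofFinite _
  apply le_antisymm
  · rintro f ⟨h1, h2, h3⟩
    have h4 := span0 p F G f h1 h2
    have hli := (Pool.Agent.Y914.NV.irr F G).2
    have hf := (Pool.Agent.Y914.NV.irr F G).1.to_subtype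
    have hft : Finite {φ : G → F // IsIrrTrace φ} := hf
    have : Fintype {φ : G → F // IsIrrTrace φ} := Fintype.ofFinite _
    have h5 : f ∈ Submodule.span F (Set.range fun φ : {φ : G → F // IsIrrTrace φ} => φ.1) := by
      rw [Subtype.range_coe_subtype]
      exact h4
    obtain ⟨a, ha⟩ := (Submodule.mem_span_range_iff_exists_fun F).1 h5
    have h6 : ∀ φ : {φ : G → F // IsIrrTrace φ}, ∃ l : F, ∀ x, ∑ᶠ g : G, e g * φ.1 (g * x) =
        l * φ.1 x := by
      intro φ
      obtain ⟨B, _, hB⟩ := (schur0 F G φ.1 φ.2).2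
      exact ⟨B e, hB e he⟩
    choose l hl using h6
    have h7 : ∑ φ : {φ : G → F // IsIrrTrace φ}, (a φ * (l φ - 1)) • φ.1 = 0 := by
      funext x
      have h8 := h3 x
      rw [← ha, finsum_eq_sum_of_fintype] at h8
      simp only [Finset.sum_apply, Pi.smul_apply, smul_eq_mul] at h8
      rw [Finset.sum_apply]
      simp only [Pi.smul_apply, smul_eq_mul, Pi.zero_apply]
      have h9 : ∀ φ : {φ : G → F // IsIrrTrace φ}, a φ * (l φ - 1) * φ.1 x =
          ∑ g : G, e g * (a φ * φ.1 (g * x)) - a φ * φ.1 x := by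
        intro φ
        have h10 := hl φ x
        rw [finsum_eq_sum_of_fintype] at h10
        have h11 : ∑ g : G, e g * (a φ * φ.1 (g * x)) = a φ * ∑ g : G, e g * φ.1 (g * x) := by
          rw [Finset.mul_sum]
          exact Finset.sum_congr rfl fun g _ => by ring
        rw [h11, h10]
        ring
      rw [Finset.sum_congr rfl fun φ _ => h9 φ, Finset.sum_sub_distrib, Finset.sum_comm, sub_eq_zero]
      rw [← h8]
      exact Finset.sum_congr rfl fun g _ => (Finset.mul_sum _ _ _).symm
    have h8 := Fintype.linearIndependent_iff.1 hli _ h7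
    rw [← ha]
    refine Submodule.sum_mem _ fun φ _ => ?_
    rcases mul_eq_zero.1 (h8 φ) with h9 | h9
    · rw [h9, zero_smul]
      exact Submodule.zero_mem _
    · refine Submodule.smul_mem _ _ (Submodule.subset_span ⟨⟨φ.1, φ.2, fun x => ?_⟩, rfl⟩)
      rw [hl φ x, sub_eq_zero.1 h9, one_mul]
  · rw [Submodule.span_le]
    rintro _ ⟨φ, rfl⟩
    exact ⟨fun g x => irr_cls φ.2.1 g x, Pool.Agent.Y705.NV.ppt p F G φ.1 φ.2.1, φ.2.2⟩

theorem LL_li (e : G → F) : LinearIndependent F (fun φ : LL e => φ.1) :=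
  (Pool.Agent.Y914.NV.irr F G).2.comp (fun φ : LL e => (⟨φ.1, φ.2.1⟩ : {φ : G → F // IsIrrTrace φ}))
    fun φ φ' h => Subtype.ext (congrArg (fun t : {φ : G → F // IsIrrTrace φ} => t.1) h)

theorem VV_rank (e : G → F) (he : IsClassFun e) : Module.finrank F (VV p e) = nl e := by
  have : Fintype (LL e) := Fintype.ofFinite _
  rw [VV_span e he, finrank_span_eq_card (LL_li e), nl, Nat.card_eq_fintype_card]

end space

/-! ### The shift -/

/-- the action of `C` on tuples -/
@[reducible] def shiftAct (C X : Type) [Group C] : MulAction C (C → X) where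
  smul c θ := fun i => θ (c⁻¹ * i)
  one_smul θ := funext fun i => congrArg θ (by rw [inv_one, one_mul])
  mul_smul c d θ := funext fun i => congrArg θ (by rw [mul_inv_rev, mul_assoc])

theorem orbC {C X : Type} [Group C] [Finite C] [Finite X] (q : ℕ) (hq : q.Prime)
    (hC : Nat.card C = q) :
    letI := shiftAct C X
    q * Nat.card (Quotient (MulAction.orbitRel C (C → X))) =
      Nat.card X ^ q + (q - 1) * Nat.card X := by
  let _ := shiftAct C X
  have hb := B77.burn (Γ := C) (X := C → X) hq (⊥ : Subgroup C) (by rw [Subgroup.index_bot, hC])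
    (by
      intro g hg x
      rw [Subgroup.mem_bot.1 hg, one_smul])
  have hfix : Nat.card (MulAction.fixedPoints C (C → X)) = Nat.card X := by
    refine Nat.card_congr
      { toFun := fun θ => θ.1 1
        invFun := fun x => ⟨fun _ => x, fun c => rfl⟩
        left_inv := fun θ => ?_
        right_inv := fun x => rfl }
    apply Subtype.ext
    funext i
    have h := congrFun (θ.2 i) i
    change θ.1 (i⁻¹ * i) = θ.1 i at h
    rw [inv_mul_cancel] at h
    exact h
  rw [hfix, hC, Nat.card_fun, hC, Subgroup.card_bot] at hb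
  have hq1 : 1 ≤ q := hq.one_lt.le
  zify [hq1]
  push_cast at hb
  linear_combination hb

section shift

variable [IsAlgClosed F] {G C : Type} [Group G] [Finite G] [Group C] [Fintype C] {p : ℕ}
  [Fact p.Prime] [CharP F p] {red : integralClosure ℤ ℂ →+* F} {e : G → F}

/-- the invariant functions -/
def V0 (p : ℕ) {G C : Type} [Group G] [Finite G] [Group C] [Fintype C] (e : G → F) :
    Submodule F ((C → G) → F) where
  carrier := {f | f ∈ VV p (tens fun _ : C => e) ∧ ∀ (c : C) x, f (fun i => x (c * i)) = f x}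
  zero_mem' := ⟨Submodule.zero_mem _, fun _ _ => rfl⟩
  add_mem' := fun {a b} ha hb => ⟨Submodule.add_mem _ ha.1 hb.1, fun c x => by
    rw [Pi.add_apply, Pi.add_apply, ha.2, hb.2]⟩
  smul_mem' := fun t a ha => ⟨Submodule.smul_mem _ t ha.1, fun c x => by
    rw [Pi.smul_apply, Pi.smul_apply, ha.2]⟩

theorem V0_rank (he : CI p red e) :
    letI := shiftAct C (LL e)
    Module.finrank F (V0 (C := C) p e) = Nat.card (Quotient (MulAction.orbitRel C (C → LL e))) := by
  let _ := shiftAct C (LL e)
  obtain ⟨ρ, hρ⟩ : ∃ ρ : C → ((C → G) → F) →ₗ[F] ((C → G) → F),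
      ∀ c f x, ρ c f x = f (fun i => x (c * i)) :=
    ⟨fun c => LinearMap.funLeft F F (fun x i => x (c * i)), fun _ _ _ => rfl⟩
  refine B77.orb (Γ := C) (ι := C → LL e) ρ _ (fun θ => (tensMap e θ).1)
    ((LL_li _).comp _ (tensMap_bij he).1) ?_ ?_
  · intro c θ
    funext x
    rw [hρ]
    change ∏ i, (θ i).1 (x (c * i)) = ∏ i, (θ (c⁻¹ * i)).1 (x i)
    exact Fintype.prod_equiv (Equiv.mulLeft c) _ _ fun i => by simp
  · intro v
    have hcl : IsClassFun (tens fun _ : C => e) := cls_tens he.cls
    have h1 : VV p (tens fun _ : C => e) =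
        Submodule.span F (Set.range fun θ : C → LL e => (tensMap e θ).1) := by
      rw [VV_span _ hcl]
      congr 1
      ext w
      constructor
      · rintro ⟨φ, rfl⟩
        obtain ⟨θ, rfl⟩ := (tensMap_bij he).2 φ
        exact ⟨θ, rfl⟩
      · rintro ⟨θ, rfl⟩
        exact ⟨tensMap e θ, rfl⟩
    rw [← h1]
    constructor
    · rintro ⟨h2, h3⟩
      exact ⟨h2, fun c => funext fun x => by rw [hρ, h3]⟩
    · rintro ⟨h2, h3⟩
      exact ⟨h2, fun c x => (hρ c v x).symm.trans (congrFun (h3 c) x)⟩

theorem V0_rank' (he : CI p red e) (q : ℕ) (hq : q.Prime) (hC : Nat.card C = q) :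
    q * Module.finrank F (V0 (C := C) p e) = nl e ^ q + (q - 1) * nl e := by
  rw [V0_rank he]
  exact orbC q hq hC

end shift

end Pool.Agent.E8helper60.AW
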