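import Pool.Agent.E8helper60.AW.Lp1

/-!
# Irreducible traces of wreath products, index `p`
-/

set_option autoImplicit false
set_option linter.unusedSectionVars false

open scoped Classical

noncomputable section

namespace Pool.Agent.E8helper60.AW

open Pool.Agent.Y63.NV

variable {F : Type} [Field F]

theorem Lnum_nl {K : Type} [Group K] (z : K → F) : Lnum (⊤ : Subgroup K) ⊤ z 1 = nl z := by
  rw [B77.Lnum_top]
  unfold nl LL
  refine Nat.card_congr
    { toFun := fun φ => ⟨φ.1.1, φ.1.2, fun x => by rw [φ.2 x, one_mul]⟩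
      invFun := fun φ => ⟨⟨φ.1, φ.2.1⟩, fun x => by rw [φ.2.2 x, one_mul]⟩
      left_inv := fun _ => rfl
      right_inv := fun _ => rfl }

variable [IsAlgClosed F] {G C : Type} [Group G] [Finite G] [Group C] [Fintype C] {p : ℕ}
  [Fact p.Prime] [CharP F p] {red : integralClosure ℤ ℂ →+* F} {e : G → F}

/-- the invariant irreducible traces of the base group -/
theorem Lnum_inv (he : CI p red e) [Nonempty C] :
    Lnum (bse G C).range ⊤ (wE G C e) 1 = nl e := by
  obtain ⟨α, hα⟩ : ∃ α : (C → G) ≃* (bse G C).range, ∀ x, ((α x : _) : RegularWreathProduct G C) =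
    bse G C x := ⟨MonoidHom.ofInjective bse_inj, fun _ => rfl⟩
  unfold Lnum nl
  symm
  -- from `LL e` to the invariant traces
  have hsh : ∀ (θ : LL e) (s : RegularWreathProduct G C) (x y : (bse G C).range),
      (y : RegularWreathProduct G C) = s * x * s⁻¹ →
      (tensMap (ι := C) e fun _ => θ).1 (α.symm y) =
        (tensMap (ι := C) e fun _ => θ).1 (α.symm x) := by
    intro θ s x y hxy
    obtain ⟨a, rfl⟩ := α.surjective x
    obtain ⟨b, rfl⟩ := α.surjective y
    rw [hα, hα, conj_bse] at hxy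
    rw [α.symm_apply_apply, α.symm_apply_apply]
    change ∏ i, θ.1 (b i) = ∏ i, θ.1 (a i)
    rw [Finset.prod_congr rfl fun i _ => by rw [hxy i, irr_cls θ.2.1]]
    exact Fintype.prod_equiv (Equiv.mulLeft s.right⁻¹) _ _ fun i => rfl
  have hact : ∀ (φ : (C → G) → F) (x : (bse G C).range),
      ∑ᶠ g : (bse G C).range, wE G C e g * φ (α.symm (g * x)) =
      ∑ᶠ g : C → G, (tens fun _ : C => e) g * φ (g * α.symm x) := by
    intro φ x
    rw [← finsum_comp_equiv α.toEquiv]
    refine finsum_congr fun g => ?_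
    change wE G C e (α g) * φ (α.symm (α g * x)) = _
    rw [hα, wE_bse, map_mul, α.symm_apply_apply]
  refine Nat.card_congr (Equiv.ofBijective (fun θ => ⟨fun x =>
    (tensMap (ι := C) e fun _ => θ).1 (α.symm x), B77.irr_comp' α.symm (tensMap e _).2.1,
      fun s _ x y hxy => hsh θ s x y hxy, fun x => ?_⟩) ⟨?_, ?_⟩)
  · rw [hact, (tensMap (ι := C) e fun _ => θ).2.2, one_mul]
  · intro θ θ' h
    have h1 := congrArg Subtype.val h
    have h2 : tensMap (ι := C) e (fun _ => θ) = tensMap e fun _ => θ' := by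
      apply Subtype.ext
      funext x
      have h3 := congrFun h1 (α x)
      simp only [α.symm_apply_apply] at h3
      exact h3
    obtain ⟨i⟩ := (inferInstance : Nonempty C)
    exact congrFun ((tensMap_bij he).1 h2) i
  · rintro ⟨φ, h1, h2, h3⟩
    have h4 : ∀ x, ∑ᶠ g : C → G, (tens fun _ : C => e) g * (fun y => φ (α y)) (g * x) =
        φ (α x) := by
      intro x
      have h5 := h3 (α x)
      rw [one_mul] at h5
      have h6 := hact (fun y => φ (α y)) (α x)
      simp only [α.apply_symm_apply, α.symm_apply_apply] at h6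
      rw [← h6, h5]
    obtain ⟨θ, hθ⟩ := (tensMap_bij he).2 ⟨fun y => φ (α y), B77.irr_comp' α h1, h4⟩
    have hθ2 : ∀ y, φ (α y) = ∏ i, (θ i).1 (y i) := fun y => (congrFun (congrArg Subtype.val hθ) y).symm
    -- invariance
    have h7 : ∀ c : C, (fun i => θ (c⁻¹ * i)) = θ := by
      intro c
      apply (tensMap_bij he).1
      apply Subtype.ext
      funext y
      change ∏ i, (θ (c⁻¹ * i)).1 (y i) = ∏ i, (θ i).1 (y i)
      have h8 : ∏ i, (θ (c⁻¹ * i)).1 (y i) = ∏ i, (θ i).1 (y (c * i)) :=
        Fintype.prod_equiv (Equiv.mulLeft c⁻¹) _ _ fun i => by simp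
      rw [h8, ← hθ2 (fun i => y (c * i)), ← hθ2]
      refine (h2 ⟨1, c⟩ trivial _ _ ?_).symm
      rw [hα, hα, conj_bse]
      intro i
      simp
    have h8 : θ = fun _ => θ 1 := by
      funext i
      have h9 := congrFun (h7 i) i
      simp only [inv_mul_cancel] at h9
      exact h9.symm
    refine ⟨θ 1, ?_⟩
    apply Subtype.ext
    funext x
    obtain ⟨y, rfl⟩ := α.surjective x
    change (tensMap (ι := C) e fun _ => θ 1).1 (α.symm (α y)) = φ (α y)
    rw [α.symm_apply_apply, ← h8, hθ]

/-- **Irreducible traces of wreath products, index `p`.** -/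
theorem nl_wreath_p (he : CI p red e) (hC : Nat.card C = p) :
    p * nl (wE G C e) = nl e ^ p + (p - 1) * nl e := by
  have hp : p.Prime := Fact.out
  have hCn : Nonempty C := ⟨1⟩
  have h := B77.pell p F (RegularWreathProduct G C) (bse G C).range (wE G C e) 1
    (bse_card.trans hC) (wE_inz he.cls)
  obtain ⟨α, hα⟩ : ∃ α : (C → G) ≃* (bse G C).range, ∀ x, ((α x : _) : RegularWreathProduct G C) =
    bse G C x := ⟨MonoidHom.ofInjective bse_inj, fun _ => rfl⟩
  have h1 : nl (fun x : (bse G C).range => wE G C e x) = nl e ^ p := by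
    have h2 := nl_equiv α (fun x : (bse G C).range => wE G C e x)
    simp only [hα, wE_bse] at h2
    rw [← h2]
    refine (nl_pow he).trans ?_
    rw [← Nat.card_eq_fintype_card, hC]
  have h2 := Lnum_inv (C := C) he
  unfold Lsum at h
  rw [sup_top_eq, sup_top_eq, sup_top_eq, if_pos rfl, if_pos rfl, if_pos rfl, inf_top_eq,
    inf_top_eq, inf_top_eq, Subgroup.card_top, Subgroup.card_top, Lnum_nl, Lnum_nl, h1, h2] at h
  have h3 : Nat.card (RegularWreathProduct G C) = p * Nat.card (bse G C).range := by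
    have h7 := Subgroup.card_eq_card_quotient_mul_card_subgroup (bse G C).range
    rwa [bse_card, hC] at h7
  rw [h3] at h
  have h4 : (Nat.card (bse G C).range : ℤ) ≠ 0 := by
    exact_mod_cast Nat.card_pos.ne'
  have h5 : (p : ℤ) ≠ 0 := by exact_mod_cast hp.ne_zero
  have hp1 : 1 ≤ p := hp.one_lt.le
  zify [hp1]
  push_cast at h
  have h6 : (p : ℤ) * (Nat.card (bse G C).range : ℤ) ≠ 0 := mul_ne_zero h5 h4
  apply mul_left_cancel₀ h6
  linear_combination h

end Pool.Agent.E8helper60.AW
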