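import Pool.Agent.E8helper60.AW.Lp2

/-!
# Irreducible traces of wreath products, index `q ≠ p`: ordered products
-/

set_option autoImplicit false
set_option linter.unusedSectionVars false

open scoped Classical

noncomputable section

namespace Pool.Agent.E8helper60.AW

open Pool.Agent.Y63.NV

variable {F : Type} [Field F]

/-! ### Ordered products -/

theorem cls_comm {G : Type} [Group G] {h : G → F} (hh : IsClassFun h) (u v : G) :
    h (u * v) = h (v * u) := by
  have := hh u (v * u)
  rw [← this]
  congr 1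
  group

/-- the ordered sum for an eigenfunction -/
theorem ord_sum {G : Type} [Group G] [Finite G] (e h : G → F) (hh : IsClassFun h) (l : F)
    (hl : ∀ x, ∑ᶠ g : G, e g * h (g * x) = l * h x) (n : ℕ) (x : Fin n → G) (t : G) :
    ∑ᶠ a : Fin n → G, (∏ k, e (a k)) * h ((List.ofFn fun k => a k * x k).prod * t) =
      l ^ n * h ((List.ofFn x).prod * t) := by
  have : Fintype G := Fintype.ofFinite _
  induction n generalizing t with
  | zero =>
    rw [finsum_eq_sum_of_fintype]
    simp
  | succ n ih =>
    rw [finsum_eq_sum_of_fintype, ← Equiv.sum_comp (Fin.consEquiv fun _ : Fin (n + 1) => G),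
      Fintype.sum_prod_type]
    have h1 : ∀ a0 : G, ∑ a : Fin n → G, (∏ k, e ((Fin.consEquiv fun _ : Fin (n + 1) => G) (a0, a) k))
        * h ((List.ofFn fun k => (Fin.consEquiv fun _ : Fin (n + 1) => G) (a0, a) k * x k).prod *
          t) = l ^ n * (e a0 * h (a0 * (x 0 * (List.ofFn fun k : Fin n => x k.succ).prod * t))) := by
      intro a0
      have h2 := ih (fun k => x k.succ) (t * (a0 * x 0))
      rw [finsum_eq_sum_of_fintype] at h2
      have h3 : h ((List.ofFn fun k : Fin n => x k.succ).prod * (t * (a0 * x 0))) =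
          h (a0 * (x 0 * (List.ofFn fun k : Fin n => x k.succ).prod * t)) := by
        rw [← mul_assoc, cls_comm hh]
        congr 1
        simp only [mul_assoc]
      rw [← h3]
      calc _ = ∑ a : Fin n → G, e a0 * ((∏ k, e (a k)) *
            h ((List.ofFn fun k => a k * x k.succ).prod * (t * (a0 * x 0)))) := by
            refine Finset.sum_congr rfl fun a _ => ?_
            rw [Fin.prod_univ_succ, List.ofFn_succ, List.prod_cons]
            change (e a0 * ∏ k, e (a k)) * h ((a0 * x 0) * (List.ofFn fun k => a k * x k.succ).prod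
              * t) = _
            have h4 : h ((a0 * x 0) * (List.ofFn fun k => a k * x k.succ).prod * t) =
                h ((List.ofFn fun k => a k * x k.succ).prod * (t * (a0 * x 0))) := by
              rw [mul_assoc, cls_comm hh, mul_assoc]
            rw [h4]
            ring
        _ = _ := by
            rw [← Finset.mul_sum, h2]
            ring
    rw [Finset.sum_congr rfl fun a0 _ => h1 a0, ← Finset.mul_sum]
    have h5 := hl (x 0 * (List.ofFn fun k : Fin n => x k.succ).prod * t)
    rw [finsum_eq_sum_of_fintype] at h5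
    rw [h5, List.ofFn_succ, List.prod_cons, pow_succ]
    ring

variable [IsAlgClosed F] {p : ℕ} [Fact p.Prime] [CharP F p] {red : integralClosure ℤ ℂ →+* F}

/-- the ordered sum for all functions -/
theorem ord_all {G : Type} [Group G] [Finite G] {e : G → F} (he : CI p red e) (n : ℕ) (hn : n ≠ 0)
    (h : G → F) (h1 : IsClassFun h) (h2 : ∀ x, h (pp p x) = h x) (x : Fin n → G) (t : G) :
    ∑ᶠ a : Fin n → G, (∏ k, e (a k)) * h ((List.ofFn fun k => a k * x k).prod * t) =
      ∑ᶠ g : G, e g * h (g * ((List.ofFn x).prod * t)) := by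
  have : Fintype G := Fintype.ofFinite _
  have h3 := span0 p F G h h1 h2
  rw [finsum_eq_sum_of_fintype, finsum_eq_sum_of_fintype]
  clear h1 h2
  induction h3 using Submodule.span_induction with
  | mem φ hφ =>
    rcases he.irr φ hφ with h4 | h4
    · have h5 := ord_sum e φ (irr_cls hφ) 0 (fun x => by rw [h4, zero_mul]) n x t
      rw [finsum_eq_sum_of_fintype] at h5
      have h6 := h4 ((List.ofFn x).prod * t)
      rw [finsum_eq_sum_of_fintype] at h6
      rw [h5, h6, zero_pow hn, zero_mul]
    · have h5 := ord_sum e φ (irr_cls hφ) 1 (fun x => by rw [h4, one_mul]) n x t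
      rw [finsum_eq_sum_of_fintype] at h5
      have h6 := h4 ((List.ofFn x).prod * t)
      rw [finsum_eq_sum_of_fintype] at h6
      rw [h5, h6, one_pow, one_mul]
  | zero => simp
  | add a b _ _ ha hb =>
    simp only [Pi.add_apply, mul_add, Finset.sum_add_distrib]
    rw [ha, hb]
  | smul c a _ ha =>
    simp only [Pi.smul_apply, smul_eq_mul]
    have h4 : ∀ b : Fin n → G, (∏ k, e (b k)) * (c * a ((List.ofFn fun k => b k * x k).prod * t)) =
        c * ((∏ k, e (b k)) * a ((List.ofFn fun k => b k * x k).prod * t)) := fun b => by ring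
    have h5 : ∀ g : G, e g * (c * a (g * ((List.ofFn x).prod * t))) =
        c * (e g * a (g * ((List.ofFn x).prod * t))) := fun g => by ring
    rw [Finset.sum_congr rfl fun b _ => h4 b, Finset.sum_congr rfl fun g _ => h5 g,
      ← Finset.mul_sum, ← Finset.mul_sum, ha]

/-! ### Powers in the wreath product -/

section powers

variable {G C : Type} [Group G] [Group C]

theorem pow_right (s : RegularWreathProduct G C) (n : ℕ) : (s ^ n).right = s.right ^ n := by
  induction n with
  | zero => simp
  | succ n ih => rw [pow_succ, RegularWreathProduct.mul_right, ih, pow_succ]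

theorem pow_left_succ (s : RegularWreathProduct G C) (n : ℕ) (i : C) :
    (s ^ (n + 1)).left i = (s ^ n).left i * s.left ((s.right ^ n)⁻¹ * i) := by
  rw [pow_succ, RegularWreathProduct.mul_left, Pi.mul_apply, pow_right]

theorem pow_left (s : RegularWreathProduct G C) (n : ℕ) :
    (s ^ n).left 1 = (List.ofFn fun k : Fin n => s.left ((s.right ^ (k : ℕ))⁻¹)).prod := by
  induction n with
  | zero => simp
  | succ n ih =>
    rw [pow_left_succ, ih, List.ofFn_succ', List.concat_eq_append, List.prod_append]
    simp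

/-- the product along the cycle -/
def cyc (q : ℕ) (s : RegularWreathProduct G C) : G := (s ^ q).left 1

variable {q : ℕ} (hq : q.Prime) (hC : Nat.card C = q)

include hq hC

theorem fin_C : Finite C := Nat.finite_of_card_ne_zero (by rw [hC]; exact hq.ne_zero)

theorem pow_q (c : C) : c ^ q = 1 := by
  have := fin_C hq hC
  rw [← hC]
  exact pow_card_eq_one'

theorem ord_c {c : C} (hc : c ≠ 1) : orderOf c = q := by
  have := Fact.mk hq
  exact orderOf_eq_prime (pow_q hq hC c) hc

theorem comm_C (a b : C) : a * b = b * a := by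
  have := Fact.mk hq
  have h := isCyclic_of_prime_card (α := C) hC
  obtain ⟨g, hg⟩ := h.exists_generator
  obtain ⟨m, rfl⟩ := Subgroup.mem_zpowers_iff.1 (hg a)
  obtain ⟨n, rfl⟩ := Subgroup.mem_zpowers_iff.1 (hg b)
  rw [← zpow_add, ← zpow_add, add_comm]

theorem gen_C {c : C} (hc : c ≠ 1) (S : Subgroup C) (hS : c ∈ S) : S = ⊤ := by
  have := Fact.mk hq
  have hCF : Fact (Nat.card C).Prime := ⟨hC ▸ hq⟩
  rcases S.eq_bot_or_eq_top_of_prime_card with h | h
  · rw [h, Subgroup.mem_bot] at hS
    exact absurd hS hc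
  · exact h

/-- exponents -/
theorem exps {c : C} (hc : c ≠ 1) (i : C) : ∃ k, 1 ≤ k ∧ k ≤ q ∧ (c ^ k)⁻¹ = i := by
  have hf := fin_C hq hC
  have h1 : Subgroup.zpowers c = ⊤ := gen_C hq hC hc _ (Subgroup.mem_zpowers c)
  have h2 : i⁻¹ ∈ Subgroup.zpowers c := by rw [h1]; trivial
  rw [← mem_powers_iff_mem_zpowers] at h2
  obtain ⟨n, hn⟩ := h2
  have hn' : c ^ n = i⁻¹ := hn
  have ho := ord_c hq hC hc
  by_cases h3 : n % q = 0
  · refine ⟨q, hq.one_lt.le, le_rfl, ?_⟩
    rw [pow_q hq hC, inv_one]
    have h4 : c ^ n = 1 := by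
      rw [← orderOf_dvd_iff_pow_eq_one, ho]
      exact Nat.dvd_of_mod_eq_zero h3
    rw [h4] at hn'
    exact (inv_eq_one.1 hn'.symm).symm
  · refine ⟨n % q, Nat.one_le_iff_ne_zero.2 h3, (Nat.mod_lt _ hq.pos).le, ?_⟩
    have h4 : c ^ (n % q) = c ^ n := by
      rw [← ho]
      exact pow_mod_orderOf c n
    rw [h4, hn', inv_inv]

theorem exps_uniq {c : C} (hc : c ≠ 1) {a b : ℕ} (ha : 1 ≤ a) (ha' : a ≤ q) (hb : 1 ≤ b)
    (hb' : b ≤ q) (h : (c ^ a)⁻¹ = (c ^ b)⁻¹) : a = b := by
  have h1 := inv_injective h
  rw [pow_eq_pow_iff_modEq, ord_c hq hC hc] at h1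
  have h2 : (a - 1) ≡ (b - 1) [MOD q] := by
    apply Nat.ModEq.add_right_cancel' 1
    rwa [Nat.sub_add_cancel ha, Nat.sub_add_cancel hb]
  have h3 := h2.eq_of_lt_of_lt (by omega) (by omega)
  omega

/-- all elements outside of the base group have a normal form up to conjugation -/
theorem normal_form (s : RegularWreathProduct G C) (hs : s.right ≠ 1) :
    ∃ σ : C → G, bse G C σ * s * (bse G C σ)⁻¹ = ⟨Pi.mulSingle 1 (cyc q s), s.right⟩ := by
  choose k hk1 hk2 hk3 using fun i => exps hq hC hs i
  refine ⟨fun i => (s ^ k i).left 1, ?_⟩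
  apply RegularWreathProduct.ext
  · funext i
    have h1 : (bse G C (fun i => (s ^ k i).left 1) * s *
        (bse G C (fun i => (s ^ k i).left 1))⁻¹).left i =
        (s ^ k i).left 1 * s.left i * ((s ^ k (s.right⁻¹ * i)).left 1)⁻¹ := by
      simp [mul_assoc]
    rw [h1]
    change _ = (Pi.mulSingle 1 (cyc q s) : C → G) i
    by_cases hi : i = 1
    · subst hi
      rw [Pi.mulSingle_eq_same]
      have h2 : k 1 = q := by
        refine exps_uniq hq hC hs (hk1 1) (hk2 1) hq.one_lt.le le_rfl ?_
        rw [hk3, pow_q hq hC, inv_one]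
      have h3 : k (s.right⁻¹ * 1) = 1 := by
        refine exps_uniq hq hC hs (hk1 _) (hk2 _) le_rfl hq.one_lt.le ?_
        rw [hk3, pow_one, mul_one]
      rw [h2, h3, pow_one, mul_inv_cancel_right]
      rfl
    · rw [Pi.mulSingle_eq_of_ne hi]
      have h2 : k i < q := by
        refine lt_of_le_of_ne (hk2 i) fun h => hi ?_
        rw [← hk3 i, h, pow_q hq hC, inv_one]
      have h3 : k (s.right⁻¹ * i) = k i + 1 := by
        refine exps_uniq hq hC hs (hk1 _) (hk2 _) (by omega) (by omega) ?_
        rw [hk3, pow_succ, mul_inv_rev, hk3]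
      rw [h3, pow_left_succ, mul_one, hk3, mul_inv_cancel]
  · simp

theorem cyc_single {c : C} (hc : c ≠ 1) (g : G) :
    cyc q (⟨Pi.mulSingle 1 g, c⟩ : RegularWreathProduct G C) = g := by
  have h : ∀ n, 1 ≤ n → n ≤ q →
      ((⟨Pi.mulSingle 1 g, c⟩ : RegularWreathProduct G C) ^ n).left 1 = g := by
    intro n hn
    induction n, hn using Nat.le_induction with
    | base =>
      intro _
      rw [pow_one]
      change (Pi.mulSingle 1 g : C → G) 1 = g
      exact Pi.mulSingle_eq_same _ _
    | succ n hn ih =>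
      intro h1
      rw [pow_left_succ, ih (by omega), mul_one]
      have h2 : (c ^ n)⁻¹ ≠ 1 := by
        intro h3
        have h4 : n = q := by
          refine exps_uniq hq hC hc hn (by omega) hq.one_lt.le le_rfl ?_
          rw [h3, pow_q hq hC, inv_one]
        omega
      change g * (Pi.mulSingle 1 g : C → G) ((c ^ n)⁻¹) = g
      rw [Pi.mulSingle_eq_of_ne h2, mul_one]
  exact h q hq.one_lt.le le_rfl

theorem pow_q_base (s : RegularWreathProduct G C) : s ^ q = bse G C (s ^ q).left := by
  apply RegularWreathProduct.ext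
  · rfl
  · rw [pow_right, pow_q hq hC]
    rfl

/-- all coordinates of the `q`-th power are conjugate -/
theorem cyc_conj (s : RegularWreathProduct G C) (hs : s.right ≠ 1) {h : G → F}
    (hh : IsClassFun h) (m : ℕ) (i : C) : h ((s ^ q).left i ^ m) = h ((s ^ q).left 1 ^ m) := by
  obtain ⟨S, hS⟩ : ∃ S : Subgroup C, ∀ d, d ∈ S ↔ ∀ i, h ((s ^ q).left (d * i) ^ m) =
      h ((s ^ q).left i ^ m) :=
    ⟨{ carrier := {d | ∀ i, h ((s ^ q).left (d * i) ^ m) = h ((s ^ q).left i ^ m)}
       one_mem' := fun i => by rw [one_mul]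
       mul_mem' := fun {a b} ha hb i => by rw [mul_assoc, ha, hb]
       inv_mem' := fun {a} ha i => by
        have := ha (a⁻¹ * i)
        rw [mul_inv_cancel_left] at this
        exact this.symm }, fun _ => Iff.rfl⟩
  have h1 : s.right ∈ S := by
    rw [hS]
    intro i
    have h2 := congrFun (congrArg RegularWreathProduct.left (pow_succ s q)) (s.right * i)
    have h3 := congrFun (congrArg RegularWreathProduct.left (pow_succ' s q)) (s.right * i)
    rw [h2] at h3
    rw [RegularWreathProduct.mul_left, RegularWreathProduct.mul_left, Pi.mul_apply, Pi.mul_apply,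
      pow_right, pow_q hq hC, inv_one, one_mul, inv_mul_cancel_left] at h3
    have h4 : (s ^ q).left (s.right * i) = s.left (s.right * i) * (s ^ q).left i *
        (s.left (s.right * i))⁻¹ := by
      rw [← h3, mul_inv_cancel_right]
    rw [h4, conj_pow, hh]
  have h2 : i ∈ S := by
    rw [gen_C hq hC hs S h1]
    trivial
  have h3 := (hS i).1 h2 1
  rwa [mul_one] at h3

end powers

end Pool.Agent.E8helper60.AW
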