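import Pool.Agent.E8helper60.AW.Lp3

/-!
# Irreducible traces of wreath products, index `q ≠ p`
-/

set_option autoImplicit false
set_option linter.unusedSectionVars false

open scoped Classical

noncomputable section

namespace Pool.Agent.E8helper60.AW

open Pool.Agent.Y63.NV

variable {F : Type} [Field F]

theorem pow_pexp (p : ℕ) [Fact p.Prime] {A B : Type} [Group A] [Finite A] [Group B] [Finite B]
    (x : A) (h : Nat.card A ∣ Nat.card B) : x ^ pexp p B = pp p x := by
  unfold pp
  refine Pool.Agent.Y77.NV.pow_congr (p := p) x _ _ fun e m hd hm => ?_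
  have h1 := Pool.Agent.Y77.NV.pexp_modEq p A e m hd hm
  have h2 := Pool.Agent.Y77.NV.pexp_modEq p B e m (hd.trans h) hm
  exact ⟨h2.1.trans h1.1.symm, h2.2.trans h1.2.symm⟩

section

variable {G C : Type} [Group G] [Finite G] [Group C] [Fintype C] {e : G → F}

/-- sums over the base group -/
theorem wE_sum (e : G → F) (φ : RegularWreathProduct G C → F) :
    ∑ᶠ s : RegularWreathProduct G C, wE G C e s * φ s =
      ∑ᶠ a : C → G, (tens fun _ : C => e) a * φ (bse G C a) := by
  have e1 : ∀ s : RegularWreathProduct G C, wE G C e s * φ s =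
      ∑ᶠ (_ : s ∈ Set.range (bse G C)), wE G C e s * φ s := by
    intro s
    rw [finsum_eq_if]
    by_cases hs : s ∈ Set.range (bse G C)
    · rw [if_pos hs]
    · rw [if_neg hs]
      unfold wE
      rw [if_neg, zero_mul]
      intro h
      exact hs ((mem_bse s).2 h)
  rw [finsum_congr e1, finsum_mem_range bse_inj]
  exact finsum_congr fun a => by rw [wE_bse]

theorem card_dvd : Nat.card G ∣ Nat.card (RegularWreathProduct G C) := by
  rw [RegularWreathProduct.card]
  have hCn : Nat.card C ≠ 0 := Nat.card_pos.ne'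
  exact (dvd_pow_self _ hCn).mul_right _

theorem card_dvd_C : Nat.card C ∣ Nat.card (RegularWreathProduct G C) := by
  rw [RegularWreathProduct.card]
  exact dvd_mul_left _ _

theorem card_dvd_B : Nat.card (C → G) ∣ Nat.card (RegularWreathProduct G C) := by
  rw [RegularWreathProduct.card, Nat.card_fun]
  exact dvd_mul_right _ _

variable {p : ℕ} [Fact p.Prime]

theorem pp_bse (x : C → G) : pp p (bse G C x) = bse G C (pp p x) := by
  rw [← pow_pexp p x (card_dvd_B (G := G) (C := C)), map_pow]
  rfl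

theorem pp_right (s : RegularWreathProduct G C) : (pp p s).right = pp p s.right := by
  rw [← pow_pexp p s.right (card_dvd_C (G := G) (C := C))]
  exact pow_right s _

end

section main

variable [IsAlgClosed F] {G C : Type} [Group G] [Finite G] [Group C] [Fintype C] {p : ℕ}
  [Fact p.Prime] [CharP F p] {red : integralClosure ℤ ℂ →+* F} {e : G → F}

variable {q : ℕ} (hq : q.Prime) (hC : Nat.card C = q) (hqp : q ≠ p)

include hq hC

/-- the sum over the base group and the products along the cycle -/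
theorem cyc_sum (he : CI p red e) (h : G → F) (h1 : IsClassFun h) (h2 : ∀ x, h (pp p x) = h x)
    (s : RegularWreathProduct G C) (hs : s.right ≠ 1) :
    ∑ᶠ a : C → G, (tens fun _ : C => e) a * h (cyc q (bse G C a * s)) =
      ∑ᶠ g : G, e g * h (g * cyc q s) := by
  have : Fintype G := Fintype.ofFinite _
  obtain ⟨κ, hκ⟩ : ∃ κ : Fin q ≃ C, ∀ k, κ k = (s.right ^ (k : ℕ))⁻¹ := by
    refine ⟨Equiv.ofBijective (fun k : Fin q => (s.right ^ (k : ℕ))⁻¹) ?_, fun _ => rfl⟩
    rw [Fintype.bijective_iff_injective_and_card]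
    constructor
    · intro a b hab
      have h3 := inv_injective hab
      rw [pow_eq_pow_iff_modEq, ord_c hq hC hs] at h3
      exact Fin.ext (h3.eq_of_lt_of_lt a.2 b.2)
    · rw [Fintype.card_fin, ← Nat.card_eq_fintype_card, hC]
  have h3 := ord_all he q hq.ne_zero h h1 h2 (fun k => s.left (κ k)) 1
  have h4 : (List.ofFn fun k : Fin q => s.left (κ k)).prod = cyc q s := by
    unfold cyc
    rw [pow_left]
    simp only [hκ]
  rw [h4] at h3
  simp only [mul_one] at h3
  rw [← h3, finsum_eq_sum_of_fintype, finsum_eq_sum_of_fintype]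
  refine Fintype.sum_equiv (κ.symm.arrowCongr (Equiv.refl G)) _ _ fun a => ?_
  have h5 : cyc q (bse G C a * s) = (List.ofFn fun k : Fin q =>
      (κ.symm.arrowCongr (Equiv.refl G)) a k * s.left (κ k)).prod := by
    unfold cyc
    rw [pow_left]
    congr 1
    congr 1
    funext k
    rw [RegularWreathProduct.mul_left, RegularWreathProduct.mul_right, bse_right, bse_left,
      one_mul, Pi.mul_apply, inv_one, one_mul, hκ]
    simp [Equiv.arrowCongr_apply, hκ]
  rw [h5]
  congr 1
  unfold tens
  refine (Fintype.prod_equiv κ _ _ fun k => ?_).symm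
  simp [Equiv.arrowCongr_apply]

include hqp

theorem pp_c (c : C) : pp p c = c := by
  have hp : p.Prime := Fact.out
  refine Pool.Agent.Y77.NV.pp_reg c fun h => ?_
  have h1 : p ∣ q := h.trans (hC ▸ orderOf_dvd_natCard c)
  rcases (Nat.dvd_prime hq).1 h1 with h2 | h2
  · exact hp.one_lt.ne' h2
  · exact hqp h2.symm

/-- the `p'`-part and the product along the cycle -/
theorem cyc_pp (s : RegularWreathProduct G C) : cyc q (pp p s) = pp p (cyc q s) := by
  unfold cyc
  rw [← pow_pexp p ((s ^ q).left 1) (card_dvd (G := G) (C := C))]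
  change ((s ^ pexp p (RegularWreathProduct G C)) ^ q).left 1 = _
  rw [← pow_mul, mul_comm, pow_mul, pow_q_base hq hC s, ← map_pow]
  rfl

/-- the restriction to a coset -/
theorem rest_c (he : CI p red e) {f : RegularWreathProduct G C → F} (hf : f ∈ VV p (wE G C e))
    {c : C} (hc : c ≠ 1) :
    (fun g => f ⟨Pi.mulSingle 1 g, c⟩) ∈ VV p e ∧
      ∀ s : RegularWreathProduct G C, s.right = c → f s = f ⟨Pi.mulSingle 1 (cyc q s), c⟩ := by
  obtain ⟨hf1, hf2, hf3⟩ := hf
  have hnf : ∀ s : RegularWreathProduct G C, s.right = c →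
      f s = f ⟨Pi.mulSingle 1 (cyc q s), c⟩ := by
    intro s hs
    obtain ⟨σ, hσ⟩ := normal_form hq hC s (by rw [hs]; exact hc)
    rw [hs] at hσ
    rw [← hσ, hf1]
  refine ⟨?_, hnf⟩
  have hcl : IsClassFun (fun g => f (⟨Pi.mulSingle 1 g, c⟩ : RegularWreathProduct G C)) := by
    intro t g
    change f ⟨Pi.mulSingle 1 (t * g * t⁻¹), c⟩ = f ⟨Pi.mulSingle 1 g, c⟩
    rw [← hf1 (bse G C fun _ => t) ⟨Pi.mulSingle 1 g, c⟩]
    congr 1
    apply RegularWreathProduct.ext
    · funext i
      by_cases hi : i = 1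
      · subst hi
        simp [mul_assoc]
      · simp [Pi.mulSingle_eq_of_ne hi]
    · simp
  have hpp : ∀ g, f (⟨Pi.mulSingle 1 (pp p g), c⟩ : RegularWreathProduct G C) =
      f ⟨Pi.mulSingle 1 g, c⟩ := by
    intro g
    rw [← hf2 ⟨Pi.mulSingle 1 g, c⟩, hnf (pp p ⟨Pi.mulSingle 1 g, c⟩) (by
      rw [pp_right, pp_c hq hC hqp])]
    rw [cyc_pp hq hC hqp, cyc_single hq hC hc]
  refine ⟨hcl, hpp, fun g => ?_⟩
  have h1 := hf3 ⟨Pi.mulSingle 1 g, c⟩
  rw [wE_sum e (fun s : RegularWreathProduct G C => f (s * ⟨Pi.mulSingle 1 g, c⟩))] at h1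
  have h2 : ∀ a : C → G, f (bse G C a * ⟨Pi.mulSingle 1 g, c⟩) =
      (fun g => f (⟨Pi.mulSingle 1 g, c⟩ : RegularWreathProduct G C))
        (cyc q (bse G C a * ⟨Pi.mulSingle 1 g, c⟩)) := by
    intro a
    exact hnf _ (by simp)
  simp only [h2] at h1
  have h3 := cyc_sum hq hC he (fun g => f (⟨Pi.mulSingle 1 g, c⟩ : RegularWreathProduct G C)) hcl
    hpp ⟨Pi.mulSingle 1 g, c⟩ hc
  rw [cyc_single hq hC hc] at h3
  exact h3.symm.trans h1

omit hqp in
/-- the restriction to the base group -/
theorem rest_1 {f : RegularWreathProduct G C → F} (hf : f ∈ VV p (wE G C e)) :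
    (fun x => f (bse G C x)) ∈ V0 (C := C) p e := by
  obtain ⟨hf1, hf2, hf3⟩ := hf
  refine ⟨⟨fun g x => ?_, fun x => ?_, fun x => ?_⟩, fun c x => ?_⟩
  · change f (bse G C (g * x * g⁻¹)) = _
    rw [map_mul, map_mul, map_inv, hf1]
  · change f (bse G C (pp p x)) = _
    rw [← pp_bse, hf2]
  · have h1 := hf3 (bse G C x)
    rw [wE_sum e (fun s => f (s * bse G C x))] at h1
    simp only [← map_mul] at h1
    exact h1
  · change f (bse G C (fun i => x (c * i))) = f (bse G C x)
    rw [← hf1 (⟨1, c⁻¹⟩ : RegularWreathProduct G C) (bse G C x)]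
    congr 1
    rw [conj_bse]
    intro i
    simp

/-- the function with given restrictions -/
theorem ext_c (he : CI p red e) {h1 : (C → G) → F} (hh1 : h1 ∈ V0 (C := C) p e)
    {h : C → G → F} (hh : ∀ c, c ≠ 1 → h c ∈ VV p e) :
    (fun s : RegularWreathProduct G C => if s.right = 1 then h1 s.left else h s.right (cyc q s)) ∈
      VV p (wE G C e) := by
  obtain ⟨⟨k1, k2, k3⟩, k4⟩ := hh1
  refine ⟨fun t s => ?_, fun s => ?_, fun s => ?_⟩
  · have hr : (t * s * t⁻¹).right = s.right := by
      rw [RegularWreathProduct.mul_right, RegularWreathProduct.mul_right,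
        RegularWreathProduct.inv_right, comm_C hq hC t.right s.right, mul_inv_cancel_right]
    beta_reduce
    rw [hr]
    by_cases hs : s.right = 1
    · rw [if_pos hs, if_pos hs]
      obtain ⟨x, rfl⟩ := (mem_bse s).2 hs
      have h2 := (conj_bse t x (fun i => t.left i * x (t.right⁻¹ * i) * (t.left i)⁻¹)).2
        fun i => rfl
      rw [← h2, bse_left, bse_left]
      have h3 := k1 t.left (fun i => x (t.right⁻¹ * i))
      have h4 := k4 t.right⁻¹ x
      rw [h4] at h3
      exact h3
    · rw [if_neg hs, if_neg hs]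
      obtain ⟨m1, _, _⟩ := hh s.right hs
      have h2 : cyc q (t * s * t⁻¹) = t.left 1 * (s ^ q).left t.right⁻¹ * (t.left 1)⁻¹ := by
        unfold cyc
        rw [conj_pow]
        have h3 : (s ^ q).right = 1 := by rw [pow_right, pow_q hq hC]
        simp [h3, mul_assoc]
      rw [h2, m1]
      have h3 := cyc_conj hq hC s hs (h := h s.right) m1 1 t.right⁻¹
      rw [pow_one, pow_one] at h3
      exact h3
  · beta_reduce
    rw [pp_right, pp_c hq hC hqp]
    by_cases hs : s.right = 1
    · rw [if_pos hs, if_pos hs]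
      obtain ⟨x, rfl⟩ := (mem_bse s).2 hs
      rw [pp_bse]
      exact k2 x
    · rw [if_neg hs, if_neg hs, cyc_pp hq hC hqp]
      exact (hh s.right hs).2.1 _
  · beta_reduce
    rw [wE_sum e (fun t : RegularWreathProduct G C => if (t * s).right = 1 then h1 (t * s).left else
      h (t * s).right (cyc q (t * s)))]
    have hr : ∀ a, (bse G C a * s).right = s.right := fun a => by simp
    simp only [hr]
    by_cases hs : s.right = 1
    · simp only [if_pos hs]
      obtain ⟨x, rfl⟩ := (mem_bse s).2 hs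
      have h2 := k3 x
      simp only [← map_mul, bse_left]
      exact h2
    · simp only [if_neg hs]
      obtain ⟨m1, m2, m3⟩ := hh s.right hs
      rw [cyc_sum hq hC he (h s.right) m1 m2 s hs, m3]

/-- the dimension -/
theorem VV_wreath (he : CI p red e) : Module.finrank F (VV p (wE G C e)) =
    Module.finrank F (V0 (C := C) p e) + (q - 1) * Module.finrank F (VV p e) := by
  obtain ⟨Ψ, hΨ⟩ : ∃ Ψ : VV p (wE G C e) →ₗ[F] (V0 (C := C) p e) × ({c : C // c ≠ 1} → VV p e),
      ∀ f, (∀ x, (Ψ f).1.1 x = f.1 (bse G C x)) ∧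
        ∀ c g, ((Ψ f).2 c).1 g = f.1 ⟨Pi.mulSingle 1 g, c.1⟩ :=
    ⟨{ toFun := fun f => (⟨fun x => f.1 (bse G C x), rest_1 hq hC f.2⟩,
        fun c => ⟨fun g => f.1 ⟨Pi.mulSingle 1 g, c.1⟩, (rest_c hq hC hqp he f.2 c.2).1⟩)
       map_add' := fun _ _ => rfl
       map_smul' := fun _ _ => rfl }, fun f => ⟨fun _ => rfl, fun _ _ => rfl⟩⟩
  have hb : Function.Bijective Ψ := by
    constructor
    · intro f f' hff
      apply Subtype.ext
      funext s
      by_cases hs : s.right = 1
      · obtain ⟨x, rfl⟩ := (mem_bse s).2 hs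
        rw [← (hΨ f).1, ← (hΨ f').1, hff]
      · rw [(rest_c hq hC hqp he f.2 hs).2 s rfl, (rest_c hq hC hqp he f'.2 hs).2 s rfl]
        have h1 := (hΨ f).2 ⟨s.right, hs⟩ (cyc q s)
        have h2 := (hΨ f').2 ⟨s.right, hs⟩ (cyc q s)
        rw [← h1, ← h2, hff]
    · rintro ⟨h1, h⟩
      obtain ⟨k, hk⟩ : ∃ k : C → G → F, ∀ c : {c : C // c ≠ 1}, k c.1 = (h c).1 :=
        ⟨fun c => if hc : c ≠ 1 then (h ⟨c, hc⟩).1 else 0, fun c => dif_pos c.2⟩
      refine ⟨⟨_, ext_c hq hC hqp he h1.2 (h := k) fun c hc => ?_⟩, ?_⟩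
      · rw [hk ⟨c, hc⟩]
        exact (h ⟨c, hc⟩).2
      · apply Prod.ext
        · apply Subtype.ext
          funext x
          rw [(hΨ _).1]
          exact if_pos rfl
        · funext c
          apply Subtype.ext
          funext g
          rw [(hΨ _).2]
          refine (if_neg c.2).trans ?_
          change k c.1 (cyc q ⟨Pi.mulSingle 1 g, c.1⟩) = _
          rw [cyc_single hq hC c.2, hk]
  rw [(LinearEquiv.ofBijective Ψ hb).finrank_eq, Module.finrank_prod, Module.finrank_pi_fintype,
    Finset.sum_const, Finset.card_univ, smul_eq_mul]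
  congr 2
  rw [Fintype.card_subtype_compl, Fintype.card_subtype_eq, ← Nat.card_eq_fintype_card, hC]

end main

section final

variable [IsAlgClosed F] {G C : Type} [Group G] [Finite G] [Group C] [Fintype C] {p : ℕ}
  [Fact p.Prime] [CharP F p] {red : integralClosure ℤ ℂ →+* F} {e : G → F}

/-- **Irreducible traces of wreath products.** -/
theorem nl_wreath (he : CI p red e) (q : ℕ) (hq : q.Prime) (hC : Nat.card C = q) :
    q * nl (wE G C e) = nl e ^ q + co p q * nl e := by
  unfold co
  by_cases hqp : q = p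
  · subst hqp
    rw [if_pos rfl]
    exact nl_wreath_p he hC
  · rw [if_neg hqp]
    have h1 := VV_rank (p := p) (wE G C e) (wE_inz (C := C) he.cls).conj
    have h2 := VV_wreath hq hC hqp he
    have h3 := V0_rank' (C := C) he q hq hC
    rw [← h1, h2, VV_rank e he.cls, mul_add, h3]
    have hq1 : 1 ≤ q := hq.one_lt.le
    have hq2 : 1 ≤ q ^ 2 := Nat.one_le_pow _ _ hq.pos
    zify [hq1, hq2]
    ring

end final

end Pool.Agent.E8helper60.AW
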