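import Pool.Agent.E8helper60.AW.Nilp
import Pool.Agent.Y63.NV.Pe

/-!
# Congruences and approximate equalities
-/

set_option autoImplicit false
set_option linter.unusedSectionVars false

open scoped Classical

noncomputable section

namespace Pool.Agent.E8helper60.AW

open Pool.Agent.Y63.NV Pool.Agent.Y487.NV Pool.Agent.Y63.NV.B48B
open Pool.Agent.Y63.AWC (IsIrreducibleCharacter pSubgroupSetoid numDefectZero numWeights
  numRegularClasses)

/-! ### Arithmetic -/

theorem co_succ (p q : ℕ) (hp : p.Prime) (hq : q.Prime) : (q : ℤ) ∣ (co p q : ℤ) + 1 := by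
  unfold co
  split_ifs with h
  · subst h
    have h1 : 1 ≤ q := hq.one_lt.le
    push_cast [Nat.cast_sub h1]
    exact ⟨1, by ring⟩
  · have h1 : 1 ≤ q ^ 2 := Nat.one_le_pow _ _ hq.pos
    push_cast [Nat.cast_sub h1]
    exact ⟨q, by ring⟩

theorem arith (p q : ℕ) (hp : p.Prime) (hq : q.Prime) (l w l' w' k : ℕ)
    (hl : q * l' = l ^ q + co p q * l) (hw : q * w' = w ^ q + co p q * w)
    (h1 : l ≡ w [MOD q]) (hk : l' ≡ w' [MOD q ^ k]) : l ≡ w [MOD q ^ (k + 1)] := by
  have h1' : (q : ℤ) ∣ (l : ℤ) - w := by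
    have := (Nat.modEq_iff_dvd.1 h1.symm)
    exact this
  have hk' : ((q : ℤ) ^ k) ∣ (l' : ℤ) - w' := by
    have := (Nat.modEq_iff_dvd.1 hk.symm)
    push_cast at this
    exact this
  have hl' : (q : ℤ) * l' = (l : ℤ) ^ q + co p q * l := by exact_mod_cast hl
  have hw' : (q : ℤ) * w' = (w : ℤ) ^ q + co p q * w := by exact_mod_cast hw
  obtain ⟨s, hs⟩ : ∃ s : ℤ, s = ∑ i ∈ Finset.range q, (l : ℤ) ^ i * (w : ℤ) ^ (q - 1 - i) :=
    ⟨_, rfl⟩
  have hs1 : s * ((l : ℤ) - w) = (l : ℤ) ^ q - (w : ℤ) ^ q := by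
    rw [hs]
    exact (Commute.all (l : ℤ) (w : ℤ)).geom_sum₂_mul q
  have hs2 : (q : ℤ) ∣ s := by
    rw [hs]
    exact dvd_geom_sum₂_self h1'
  have hkey : (q : ℤ) * ((l' : ℤ) - w') = (s + co p q) * ((l : ℤ) - w) := by
    linear_combination hl' - hw' - hs1
  have hcop : IsCoprime ((q : ℤ) ^ (k + 1)) (s + co p q) := by
    apply IsCoprime.pow_left
    obtain ⟨a, ha⟩ := hs2
    obtain ⟨b, hb⟩ := co_succ p q hp hq
    refine ⟨a + b, -1, ?_⟩
    rw [ha]
    linear_combination -hb
  have h2 : ((q : ℤ) ^ (k + 1)) ∣ (s + co p q) * ((l : ℤ) - w) := by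
    rw [← hkey, pow_succ']
    exact mul_dvd_mul_left _ hk'
  have h3 := hcop.dvd_of_dvd_mul_left h2
  apply Nat.ModEq.symm
  rw [Nat.modEq_iff_dvd]
  push_cast
  exact h3

/-! ### One step -/

variable {F : Type} [Field F] [IsAlgClosed F] {p : ℕ} [Fact p.Prime] [CharP F p]

variable (red : integralClosure ℤ ℂ →+* F)

theorem mod_sum {G : Type} [Group G] [Finite G] (m : ℕ) (e : G → F)
    [he : Fact (IsClassFun e)] (h : ∀ B : (G → F) → F, IsBlock B → B e = 1 →
      numIrrBlock B ≡ numWt p red B [MOD m]) : nl e ≡ nwt p red e 1 [MOD m] := by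
  obtain ⟨S, lβ, wβ, h1, h2, h3, h4, h5, -, -⟩ := decomp (p := p) red (G := G)
  rw [nwt_sum]
  have h7 := h4 ⟨e, he.out⟩
  have h8 := h5 ⟨e, he.out⟩
  refine (show nl e = _ from h7) ▸ (show _ = _ from h8) ▸ ?_
  refine Nat.ModEq.sum fun β hβ => ?_
  split_ifs with h9
  · obtain ⟨B, hB, rfl⟩ := h1 β hβ
    rw [← (h3 B).1, ← (h3 B).2]
    exact h B hB h9
  · rfl

/-- the class of elements which isolates a block -/
theorem isolate {G : Type} [Group G] [Finite G] (B : (G → F) → F) :
    (numIrrBlock B = 0 ∧ numWt p red B = 0) ∨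
    ∃ e : CF G F, CI p red e.1 ∧ B e.1 = 1 ∧ nl e.1 = numIrrBlock B ∧
      ∑ᶠ d : Quotient (pSubgroupSetoid p G),
      Nw p red (d.out.1.subgroupOf (Subgroup.normalizer (d.out.1 : Set G))) (fun x => e.1 x) 1 =
        numWt p red B ∧
      ∀ φ : G → F, IsIrrTrace φ → (∀ x, ∑ᶠ g : G, e.1 g * φ (g * x) = 0) ∨
        ∀ f : G → F, IsClassFun f → ∀ x, ∑ᶠ g : G, f g * φ (g * x) = B f * φ x := by
  obtain ⟨S, lβ, wβ, h1, h2, h3, h4, h5, h6, h7⟩ := decomp (p := p) red (G := G)
  by_cases hB : rs B ∈ S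
  · right
    obtain ⟨e, he1, he2⟩ := sep_blocks S h1 (rs B) hB
    have h01 : ∀ β ∈ S, β e = 1 ↔ β = rs B := by
      intro β hβ
      constructor
      · intro h
        by_contra hne
        rw [he2 β hβ hne] at h
        exact zero_ne_one h
      · rintro rfl
        exact he1
    refine ⟨e, h6 e fun β hβ => ?_, he1, ?_, ?_, fun φ hφ => ?_⟩
    · by_cases h : β = rs B
      · right
        rw [h]
        exact he1
      · left
        exact he2 β hβ h
    · rw [h4, (h3 B).1, Finset.sum_eq_single (rs B)]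
      · rw [if_pos he1]
      · intro β hβ hne
        exact if_neg fun h => hne ((h01 β hβ).1 h)
      · exact fun h => absurd hB h
    · rw [h5, (h3 B).2, Finset.sum_eq_single (rs B)]
      · rw [if_pos he1]
      · intro β hβ hne
        exact if_neg fun h => hne ((h01 β hβ).1 h)
      · exact fun h => absurd hB h
    · obtain ⟨β, hβ, hβ2⟩ := h7 φ hφ
      by_cases h : β = rs B
      · right
        intro f hf x
        rw [hβ2 ⟨f, hf⟩ x, h]
        rfl
      · left
        intro x
        rw [hβ2 e x, he2 β hβ h, zero_mul]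
  · left
    rw [(h3 B).1, (h3 B).2]
    exact h2 _ hB

/-- **One step.** -/
theorem step (q : ℕ) (hq : q.Prime) (C : Type) [Group C] [Fintype C] (hC : Nat.card C = q)
    {G : Type} [Group G] [Finite G] (k : ℕ) (B : (G → F) → F)
    (h1 : numIrrBlock B ≡ numWt p red B [MOD q])
    (hk : ∀ B' : (RegularWreathProduct G C → F) → F, IsBlock B' → Over B B' →
      numIrrBlock B' ≡ numWt p red B' [MOD q ^ k]) :
    numIrrBlock B ≡ numWt p red B [MOD q ^ (k + 1)] := by
  rcases isolate (p := p) red B with ⟨h2, h3⟩ | ⟨e, he, -, h2, h3, h4⟩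
  · rw [h2, h3]
  · have : Fact (IsClassFun e.1) := ⟨e.2⟩
    have : Fact (IsClassFun (wE G C e.1)) := ⟨(wE_inz e.2).conj⟩
    have h5 := mod_sum (p := p) red (q ^ k) (wE G C e.1) fun B' hB' h =>
      hk B' hB' (over_of_one p e.2 h4 hB' h)
    have h7 : nwt p red e.1 1 = numWt p red B := by
      rw [nwt_sum]
      exact h3
    have h6 := arith p q Fact.out hq _ _ _ _ k (nl_wreath he q hq hC) (nwt_wreath he q hq hC)
      (by rw [h2, h7]; exact h1) h5
    rw [h2, h7] at h6
    exact h6

/-! ### The total numbers -/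

theorem nl_unit {G : Type} [Group G] [Finite G] :
    nl (Pi.single 1 1 : G → F) = numRegularClasses p G := by
  rw [← Lnum_nl, lreg' p F G ⊤ (pgroup_top p G), invReg_top]

theorem unit_cls {G : Type} [Group G] : IsClassFun (Pi.single 1 1 : G → F) :=
  fun g x => Pool.Agent.Y63.NV.B532.single_conj g x

instance fact_unit {G : Type} [Group G] : Fact (IsClassFun (Pi.single 1 1 : G → F)) := ⟨unit_cls⟩

theorem unit_sub {G : Type} [Group G] (Q : Subgroup G) :
    (fun x : Q => (Pi.single 1 1 : G → F) x) = Pi.single 1 1 := by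
  funext x
  by_cases hx : x = 1
  · subst hx
    simp
  · have hx' : (x : G) ≠ 1 := fun h => hx (Subtype.ext h)
    rw [Pi.single_eq_of_ne hx', Pi.single_eq_of_ne hx]

theorem nwt_unit {G : Type} [Group G] [Finite G] :
    nwt p red (Pi.single 1 1 : G → F) 1 = numWeights p G := by
  rw [nwt_sum]
  unfold numWeights
  refine finsum_congr fun d => ?_
  refine Pool.Agent.Y63.NV.B532.nw_one p red _ _ ((unit_sub _).trans ?_)
  funext x
  unfold Pi.single Function.update
  by_cases hx : x = 1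
  · rw [dif_pos hx, dif_pos hx]
  · rw [dif_neg hx, dif_neg hx]

theorem unit_ci {G : Type} [Group G] [Finite G] : CI p red (Pi.single 1 1 : G → F) := by
  refine ⟨unit_cls, fun φ _ => Or.inr fun x => ?_, fun Q χ hQ hχ => Or.inr ?_⟩
  · rw [finsum_eq_single _ 1]
    · rw [Pi.single_eq_same, one_mul, one_mul]
    · intro g hg
      rw [Pi.single_eq_of_ne hg, zero_mul]
  · exact (wblk' p F red G Q χ hQ hχ).one

theorem wE_unit {G C : Type} [Group G] [Group C] [Fintype C] :
    wE G C (Pi.single 1 1 : G → F) = Pi.single 1 1 := by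
  funext s
  unfold wE
  by_cases hs : s = 1
  · subst hs
    rw [Pi.single_eq_same, RegularWreathProduct.one_right, if_pos rfl]
    exact Finset.prod_eq_one fun i _ => Pi.single_eq_same _ _
  · rw [Pi.single_eq_of_ne hs]
    by_cases hr : s.right = 1
    · rw [if_pos hr]
      have h1 : ∃ i, s.left i ≠ 1 := by
        by_contra hcon
        push Not at hcon
        exact hs (RegularWreathProduct.ext (funext hcon) hr)
      obtain ⟨i, hi⟩ := h1
      exact Finset.prod_eq_zero (Finset.mem_univ i) (Pi.single_eq_of_ne hi _)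
    · rw [if_neg hr]

include red in
/-- **One step for the total numbers.** -/
theorem step_tot (q : ℕ) (hq : q.Prime) (C : Type) [Group C] [Finite C] (hC : Nat.card C = q)
    {G : Type} [Group G] [Finite G] (k : ℕ) (h1 : numRegularClasses p G ≡ numWeights p G [MOD q])
    (hk : numRegularClasses p (RegularWreathProduct G C) ≡
      numWeights p (RegularWreathProduct G C) [MOD q ^ k]) :
    numRegularClasses p G ≡ numWeights p G [MOD q ^ (k + 1)] := by
  have : Fintype C := Fintype.ofFinite C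
  have h2 := nl_wreath (C := C) (unit_ci (p := p) red (G := G)) q hq hC
  have : Fact (IsClassFun (wE G C (Pi.single 1 1 : G → F))) := ⟨(wE_inz unit_cls).conj⟩
  have h3 := nwt_wreath (C := C) (unit_ci (p := p) red (G := G)) q hq hC
  simp only [wE_unit] at h2 h3
  rw [nl_unit (p := p), nl_unit (p := p)] at h2
  rw [nwt_unit, nwt_unit] at h3
  exact arith p q Fact.out hq _ _ _ _ k h2 h3 h1 hk

end Pool.Agent.E8helper60.AW
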