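import Pool.Agent.E8helper60.AW.Cls
import Pool.Agent.Y63.NV.PeL

/-!
# Navarro's equality for extensions by `p`-groups
-/

set_option autoImplicit false
set_option linter.unusedSectionVars false

open scoped Classical

noncomputable section

namespace Pool.Agent.E8helper60.AW

open Pool.Agent.Y63.NV Pool.Agent.Y405.NV Pool.Agent.Y63.NV.B48B
open Pool.Agent.Y63.AWC (IsIrreducibleCharacter pSubgroupSetoid numDefectZero numWeights
  numRegularClasses)

/-- the right hand side of Navarro's equality -/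
def thSum (p : ℕ) {F : Type} [Field F] (red : integralClosure ℤ ℂ →+* F) {Γ : Type} [Group Γ]
    (G : Subgroup Γ) (B : (G → F) → F) : ℕ :=
  ∑ᶠ c : Quotient (pSubgroupSetoid p Γ),
    if G ⊔ c.out.1 = ⊤ ∧ InDefect p G B c.out.1 then numDz p red G c.out.1 B else 0

variable {F : Type} [Field F] [IsAlgClosed F] {p : ℕ} [Fact p.Prime] [CharP F p]
  (red : integralClosure ℤ ℂ →+* F)

theorem th_top {H : Type} [Group H] [Finite H] {B : (H → F) → F} (hB : IsBlock B) :
    numIBr (⊤ : Subgroup H) (up B) = numIrrBlock B ∧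
      thSum p red (⊤ : Subgroup H) (up B) = numWt p red B := by
  refine ⟨numIBr_eq (up B), ?_⟩
  unfold thSum numWt
  refine finsum_congr fun c => ?_
  have e3 : numDz p red (⊤ : Subgroup H) c.out.1 (up B) = numWtBlock p red c.out.1 B :=
    numDz_eq p red c.out.1 (up B)
  by_cases h2 : InDefect p ⊤ (up B) c.out.1
  · rw [if_pos ⟨top_sup_eq _, h2⟩, e3]
  · rw [if_neg (fun h' => h2 h'.2), ← e3]
    by_contra h3
    exact h2 (wdef' p F red H ⊤ (up B) (up_block hB) (up_inv B) c.out.1 c.out.2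
      (fun h => h3 h.symm))

theorem nav_tfae (q : ℕ) (hq : q.Prime) (C : Type) [Group C] [Fintype C]
    (hC : Nat.card C = q) (X : ∀ (G : Type) [Group G], Prop) (hX : Closed p X)
    (hwr : ∀ (G : Type) [Group G] [Finite G], X G → X (RegularWreathProduct G C))
    (m n₀ : ℕ) (hm : q ∣ m) :
    List.TFAE [
      ∀ (Γ : Type) [Group Γ] [Finite Γ] (N G : Subgroup Γ) [N.Normal] [G.Normal], N ≤ G → X N →
        IsPGroup p (Γ ⧸ N) → NavarroTheta p red G,
      ∀ (Γ : Type) [Group Γ] [Finite Γ] (N G : Subgroup Γ) [N.Normal] [G.Normal], N ≤ G → X N →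
        IsPGroup p (Γ ⧸ N) → n₀ ≤ Nat.card G → ∀ B : (G → F) → F, IsBlock B → IsInvBlock G B →
        numIBr G B ≡ thSum p red G B [MOD m],
      ∀ ε : ℝ, 0 < ε → ∃ c : ℝ, ∀ (Γ : Type) [Group Γ] [Finite Γ] (N G : Subgroup Γ) [N.Normal]
        [G.Normal], N ≤ G → X N → IsPGroup p (Γ ⧸ N) → ∀ B : (G → F) → F, IsBlock B →
        IsInvBlock G B →
        (numIBr G B : ℝ) ≤ c * (Nat.card G : ℝ) ^ ε * thSum p red G B ∧
        (thSum p red G B : ℝ) ≤ c * (Nat.card G : ℝ) ^ ε * numIBr G B,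
      ∀ (H : Type) [Group H] [Finite H], n₀ ≤ Nat.card H → X H → (q ≠ p → Reduced p H) →
        ∀ B : (H → F) → F, IsBlock B → ∀ B' : (RegularWreathProduct H C → F) → F, IsBlock B' →
          Over B B' → numIrrBlock B' ≡ numWt p red B' [MOD m],
      ∀ ε : ℝ, 0 < ε → ∃ c : ℝ, ∀ (H : Type) [Group H] [Finite H], X H → Reduced p H →
        ∀ B : (H → F) → F, IsBlock B →
          (numIrrBlock B : ℝ) ≤ c * (Nat.card H : ℝ) ^ ε * numWt p red B ∧
          (numWt p red B : ℝ) ≤ c * (Nat.card H : ℝ) ^ ε * numIrrBlock B] := by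
  have hcls := cls_tfae (p := p) red q hq C hC X hX hwr m n₀ hm
  have hback : (∀ (G : Type) [Group G] [Finite G], X G → BAWC p red G) →
      ∀ (Γ : Type) [Group Γ] [Finite Γ] (N G : Subgroup Γ) [N.Normal] [G.Normal], N ≤ G → X N →
        IsPGroup p (Γ ⧸ N) → NavarroTheta p red G := by
    intro h
    refine (block_strong red X hX).mp fun H _ _ hH _ => ?_
    rw [theta_iff, ← bawc_iff]
    exact h H hH
  tfae_have 1 → 2 := by
    intro h Γ _ _ N G _ _ hNG hN hp _ B hB hI
    have h1 := h Γ N G hNG hN hp B hB hI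
    unfold thSum
    rw [h1]
  tfae_have 1 → 3 := by
    intro h ε hε
    refine ⟨1, fun Γ _ _ N G _ _ hNG hN hp B hB hI => ?_⟩
    have h1 : numIBr G B = thSum p red G B := h Γ N G hNG hN hp B hB hI
    rw [h1]
    have h2 : (1 : ℝ) ≤ (Nat.card G : ℝ) ^ ε := by
      refine Real.one_le_rpow ?_ hε.le
      exact_mod_cast one_le_cardG G
    rw [one_mul]
    exact ⟨le_mul_of_one_le_left (Nat.cast_nonneg _) h2,
      le_mul_of_one_le_left (Nat.cast_nonneg _) h2⟩
  tfae_have 2 → 4 := by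
    intro h H _ _ hn hH _ B _ B' hB' _
    have h1 := th_top (p := p) red hB'
    rw [← h1.1, ← h1.2]
    refine h (RegularWreathProduct H C) ⊤ ⊤ le_rfl
      (hX.iso _ _ (hwr H hH) ⟨Subgroup.topEquiv.symm⟩) (pgroup_top p _) ?_ (up B')
      (up_block hB') (up_inv B')
    rw [Subgroup.card_top]
    exact hn.trans ((Nat.le_succ _).trans (card_wr q hq C hC H))
  tfae_have 3 → 5 := by
    intro h ε hε
    obtain ⟨c, hc⟩ := h ε hε
    refine ⟨c, fun H _ _ hH _ B hB => ?_⟩
    have h1 := th_top (p := p) red hB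
    have h2 := hc H ⊤ ⊤ le_rfl (hX.iso _ _ hH ⟨Subgroup.topEquiv.symm⟩) (pgroup_top p _) (up B)
      (up_block hB) (up_inv B)
    rw [h1.1, h1.2, Subgroup.card_top] at h2
    exact h2
  tfae_have 4 → 1 := fun h => hback ((hcls.out 1 0).1 h)
  tfae_have 5 → 1 := fun h => hback ((hcls.out 2 0).1 h)
  tfae_finish

end Pool.Agent.E8helper60.AW
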