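import Pool.Agent.E8helper60.AW.Blk

/-!
# Blocks of the wreath product over a power of a block
-/

set_option autoImplicit false
set_option linter.unusedSectionVars false

open scoped Classical

noncomputable section

namespace Pool.Agent.E8helper60.AW

open Pool.Agent.Y63.NV Pool.Agent.Y405.NV

section

variable {F : Type} [Field F] {N : Type} [Group N] [Fintype N]

theorem ofF_sum (u : N → F) : ofF u = ∑ g : N, MonoidAlgebra.single g (u g) := by
  apply MonoidAlgebra.coeff_injective
  rw [MonoidAlgebra.coeff_sum]
  simp only [MonoidAlgebra.coeff_single]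
  exact (Finsupp.univ_sum_single (ofF u).coeff).symm

/-- a function as a functional on the group algebra -/
def hat (φ : N → F) : MonoidAlgebra F N →ₗ[F] F where
  toFun := fun a => ∑ g, a.coeff g * φ g
  map_add' := fun a b => by
    simp only [MonoidAlgebra.coeff_add, Finsupp.add_apply, add_mul, Finset.sum_add_distrib]
  map_smul' := fun c a => by
    simp only [MonoidAlgebra.coeff_smul, Finsupp.smul_apply, smul_eq_mul, mul_assoc,
      RingHom.id_apply, Finset.mul_sum]

theorem hat_single (φ : N → F) (g : N) (c : F) : hat φ (MonoidAlgebra.single g c) = c * φ g := by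
  change ∑ h, (MonoidAlgebra.single g c).coeff h * φ h = _
  rw [Finset.sum_eq_single g]
  · rw [MonoidAlgebra.coeff_single, Finsupp.single_eq_same]
  · intro h _ hne
    rw [MonoidAlgebra.coeff_single, Finsupp.single_eq_of_ne hne, zero_mul]
  · intro h
    exact absurd (Finset.mem_univ g) h

theorem hat_act (φ u : N → F) (x : N) :
    hat φ (ofF u * MonoidAlgebra.single x 1) = ∑ᶠ g : N, u g * φ (g * x) := by
  rw [ofF_sum, Finset.sum_mul, map_sum, finsum_eq_sum_of_fintype]
  refine Finset.sum_congr rfl fun g _ => ?_
  rw [MonoidAlgebra.single_mul_single, mul_one, hat_single]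

theorem hat_zero {φ : N → F} {a : MonoidAlgebra F N}
    (h : ∀ x, hat φ (a * MonoidAlgebra.single x 1) = 0) (y : MonoidAlgebra F N) :
    hat φ (a * y) = 0 := by
  induction y using MonoidAlgebra.induction_linear with
  | zero => rw [mul_zero, map_zero]
  | add x y hx hy => rw [mul_add, map_add, hx, hy, add_zero]
  | single g c =>
    have h1 : (MonoidAlgebra.single g c : MonoidAlgebra F N) = c • MonoidAlgebra.single g 1 := by
      rw [MonoidAlgebra.smul_single, smul_eq_mul, mul_one]
    rw [h1, mul_smul_comm, map_smul, h, smul_zero]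

/-- elements which vanish on all irreducible representations are nilpotent -/
theorem nilp [IsAlgClosed F] (u : MonoidAlgebra F N)
    (h : ∀ φ : N → F, IsIrrTrace φ → ∀ x, hat φ (u * MonoidAlgebra.single x 1) = 0) :
    IsNilpotent u := by
  have : FiniteDimensional F (MonoidAlgebra F N) := by
    infer_instance
  have : IsArtinianRing (MonoidAlgebra F N) := IsArtinianRing.of_finite F (MonoidAlgebra F N)
  have hJn : ∀ a ∈ Ring.jacobson (MonoidAlgebra F N), IsNilpotent a := by
    obtain ⟨n, hn⟩ := IsSemiprimaryRing.isNilpotent (R := MonoidAlgebra F N)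
    intro a ha
    have h1 := Ideal.pow_mem_pow ha n
    rw [hn] at h1
    exact ⟨n, h1⟩
  have : IsSemisimpleRing (MonoidAlgebra F N ⧸ Ring.jacobson (MonoidAlgebra F N)) :=
    IsSemiprimaryRing.isSemisimpleRing
  have : FiniteDimensional F (MonoidAlgebra F N ⧸ Ring.jacobson (MonoidAlgebra F N)) :=
    Module.Finite.of_surjective
      (Ideal.Quotient.mkₐ F (Ring.jacobson (MonoidAlgebra F N))).toLinearMap
      (Ideal.Quotient.mkₐ_surjective F _)
  obtain ⟨n, d, hd, ⟨e⟩⟩ := IsSemisimpleRing.exists_algEquiv_pi_matrix_of_isAlgClosed F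
    (MonoidAlgebra F N ⧸ Ring.jacobson (MonoidAlgebra F N))
  let π : MonoidAlgebra F N →ₐ[F] (Π i, Matrix (Fin (d i)) (Fin (d i)) F) :=
    e.toAlgHom.comp (Ideal.Quotient.mkₐ F (Ring.jacobson (MonoidAlgebra F N)))
  have hπs : Function.Surjective π :=
    e.surjective.comp (Ideal.Quotient.mkₐ_surjective F _)
  let πi : ∀ i, MonoidAlgebra F N →ₐ[F] Matrix (Fin (d i)) (Fin (d i)) F := fun i =>
    (Pi.evalAlgHom F (fun i => Matrix (Fin (d i)) (Fin (d i)) F) i).comp π
  have hπis : ∀ i, Function.Surjective (πi i) := by
    intro i X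
    obtain ⟨a, ha⟩ := hπs (Pi.single i X)
    refine ⟨a, ?_⟩
    change π a i = X
    rw [ha, Pi.single_eq_same]
  apply hJn
  have h1 : Ideal.Quotient.mkₐ F (Ring.jacobson (MonoidAlgebra F N)) u = 0 := by
    have h2 : π u = 0 := by
      funext i
      change πi i u = 0
      have := hd i
      have h3 := h _ (irr_of_mat (πi i) (hπis i))
      have h4 : ∀ a : MonoidAlgebra F N, hat (fun g => (πi i (MonoidAlgebra.single g 1)).trace) a =
          (πi i a).trace := by
        intro a
        induction a using MonoidAlgebra.induction_linear with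
        | zero => rw [map_zero, map_zero, Matrix.trace_zero]
        | add x y hx hy => rw [map_add, map_add, Matrix.trace_add, hx, hy]
        | single g c =>
          rw [hat_single]
          have h5 : (MonoidAlgebra.single g c : MonoidAlgebra F N) =
              c • MonoidAlgebra.single g 1 := by
            rw [MonoidAlgebra.smul_single, smul_eq_mul, mul_one]
          rw [h5, map_smul, Matrix.trace_smul, smul_eq_mul]
      have h5 : ∀ y : MonoidAlgebra F N, (πi i u * πi i y).trace = 0 := by
        intro y
        rw [← map_mul, ← h4]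
        exact hat_zero h3 y
      have h6 : ∀ Y : Matrix (Fin (d i)) (Fin (d i)) F, (πi i u * Y).trace = 0 := by
        intro Y
        obtain ⟨y, rfl⟩ := hπis i Y
        exact h5 y
      ext a b
      have h7 := h6 (Matrix.single b a 1)
      rw [Matrix.trace_mul_single, MulOpposite.op_one, one_smul] at h7
      exact h7
    have h3 : e (Ideal.Quotient.mkₐ F (Ring.jacobson (MonoidAlgebra F N)) u) = 0 := h2
    exact (map_eq_zero_iff e e.injective).1 h3
  exact Ideal.Quotient.eq_zero_iff_mem.1 h1

end

section ov

variable {F : Type} [Field F] [IsAlgClosed F] {G C : Type} [Group G] [Finite G] [Group C]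
  [Fintype C]

/-- the block `B'` of the wreath product lies over the power of the block `B` -/
def Over {F : Type} [Field F] {G C : Type} [Group G] [Group C] [Fintype C] (B : (G → F) → F)
    (B' : (RegularWreathProduct G C → F) → F) : Prop :=
  ∀ f : G → F, IsClassFun f → B' (wE G C f) = B f ^ Nat.card C

theorem ofF_map (f : G → F) [Fintype G] :
    MonoidAlgebra.mapDomainRingHom F (bse G C) (ofF (tens fun _ : C => f)) = ofF (wE G C f) := by
  have : Fintype (RegularWreathProduct G C) := Fintype.ofFinite _
  rw [ofF_sum, ofF_sum, map_sum]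
  have h1 : ∀ a : C → G, MonoidAlgebra.mapDomainRingHom F (bse G C)
      (MonoidAlgebra.single a ((tens fun _ : C => f) a)) =
      MonoidAlgebra.single (bse G C a) (wE G C f (bse G C a)) := by
    intro a
    rw [wE_bse]
    exact MonoidAlgebra.mapDomain_single
  rw [Finset.sum_congr rfl fun a _ => h1 a]
  refine Fintype.sum_of_injective (bse G C) bse_inj _ _ (fun s hs => ?_) fun a => rfl
  unfold wE
  rw [if_neg fun h => hs ((mem_bse s).2 h), MonoidAlgebra.single_zero]

/-- **The blocks which contribute lie over the power of the block.** -/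
theorem over_of_one (p : ℕ) [Fact p.Prime] [CharP F p] {B : (G → F) → F} {e : G → F} (he : IsClassFun e)
    (hB : ∀ φ : G → F, IsIrrTrace φ → (∀ x, ∑ᶠ g : G, e g * φ (g * x) = 0) ∨
      ∀ f : G → F, IsClassFun f → ∀ x, ∑ᶠ g : G, f g * φ (g * x) = B f * φ x)
    {B' : (RegularWreathProduct G C → F) → F} (hB' : IsBlock B') (h1 : B' (wE G C e) = 1) :
    Over B B' := by
  intro f hf
  have : Fintype G := Fintype.ofFinite _
  have hCn : Nat.card C = Fintype.card C := Nat.card_eq_fintype_card
  obtain ⟨c, hc⟩ : ∃ c : F, c = B f ^ Nat.card C := ⟨_, rfl⟩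
  have hcf : IsClassFun (wE G C f) := (wE_inz hf).conj
  have hce : IsClassFun (wE G C e) := (wE_inz he).conj
  -- the element of the group algebra of the base group
  have hcen : ofF (tens fun _ : C => e) ∈ Subring.center (MonoidAlgebra F (C → G)) :=
    (class_iff _).2 (cls_tens he)
  have hn : IsNilpotent ((ofF (tens fun _ : C => f) - algebraMap F _ c) *
      ofF (tens fun _ : C => e) : MonoidAlgebra F (C → G)) := by
    apply nilp
    intro φ hφ
    obtain ⟨θ, hθ, rfl⟩ := s_tensp p F C _ φ hφ
    by_cases hall : ∀ i, ∀ f : G → F, IsClassFun f → ∀ x,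
        ∑ᶠ g : G, f g * θ i (g * x) = B f * θ i x
    · -- the first factor acts as zero
      intro x
      rw [mul_assoc]
      refine hat_zero (fun y => ?_) _
      rw [sub_mul, map_sub, hat_act, act_tens]
      have h2 : ∏ i, ∑ᶠ g : G, f g * θ i (g * y i) = c * tens θ y := by
        rw [Finset.prod_congr rfl fun i _ => hall i f hf (y i), Finset.prod_mul_distrib,
          Finset.prod_const, Finset.card_univ, hc, hCn]
        rfl
      rw [h2, ← Algebra.smul_def, map_smul, hat_single, one_mul, smul_eq_mul, sub_self]
    · -- the second factor acts as zero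
      push Not at hall
      obtain ⟨i, f', hf', x', hx'⟩ := hall
      have h3 : ∀ x, ∑ᶠ g : G, e g * θ i (g * x) = 0 := by
        rcases hB _ (hθ i) with h | h
        · exact h
        · exact absurd (h f' hf' x') hx'
      intro x
      rw [Subring.mem_center_iff.1 hcen _, mul_assoc]
      refine hat_zero (fun y => ?_) _
      rw [hat_act, act_tens]
      exact Finset.prod_eq_zero (Finset.mem_univ i) (h3 _)
  have hn2 := hn.map (MonoidAlgebra.mapDomainRingHom F (bse G C))
  rw [map_mul, map_sub, ofF_map, ofF_map] at hn2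
  have h4 : MonoidAlgebra.mapDomainRingHom F (bse G C) (algebraMap F _ c) =
      (ofS c : Subring.center (MonoidAlgebra F (RegularWreathProduct G C))).1 := by
    have h5 : (algebraMap F (MonoidAlgebra F (C → G))) c = MonoidAlgebra.single 1 c := by
      rw [Algebra.algebraMap_eq_smul_one, MonoidAlgebra.one_def, MonoidAlgebra.smul_single,
        smul_eq_mul, mul_one]
    rw [h5]
    have h6 : MonoidAlgebra.mapDomainRingHom F (bse G C) (MonoidAlgebra.single 1 c) =
        MonoidAlgebra.single (bse G C 1) c := MonoidAlgebra.mapDomain_single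
    rw [h6, map_one]
    apply MonoidAlgebra.coeff_injective
    ext s
    rw [coeff_ofS, MonoidAlgebra.coeff_single, Finsupp.single_apply]
    by_cases hs : s = 1
    · rw [if_pos hs, if_pos hs.symm]
    · rw [if_neg hs, if_neg fun h => hs h.symm]
  rw [h4] at hn2
  have hn3 : IsNilpotent ((ofC (wE G C f) hcf - ofS c) * ofC (wE G C e) hce) := by
    obtain ⟨n, hn⟩ := hn2
    refine ⟨n, Subtype.ext ?_⟩
    exact hn
  have hn4 := hn3.map (toRH hB')
  rw [map_mul, map_sub, toRH_ofC, toRH_ofC, toRH_ofS, h1, mul_one] at hn4
  rw [← hc]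
  exact sub_eq_zero.1 hn4.eq_zero

end ov

end Pool.Agent.E8helper60.AW
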