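import Pool.Agent.E8helper60.AW.Main

/-!
# Uniqueness of the blocks over a power of a block
-/

set_option autoImplicit false
set_option linter.unusedSectionVars false

open scoped Classical

noncomputable section

namespace Pool.Agent.E8helper60.AW

open Pool.Agent.Y63.NV Pool.Agent.Y405.NV Pool.Agent.Y63.NV.B48B

variable {F : Type} [Field F] [IsAlgClosed F]

/-- `φ` lies in the block `B` -/
def InB {G : Type} [Group G] (B : (G → F) → F) (φ : G → F) : Prop :=
  ∀ f : G → F, IsClassFun f → ∀ x, ∑ᶠ g : G, f g * φ (g * x) = B f * φ x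

/-- `e` isolates the block `B` -/
structure Iso {G : Type} [Group G] (B : (G → F) → F) (e : G → F) : Prop where
  cls : IsClassFun e
  one : B e = 1
  act : ∀ φ : G → F, IsIrrTrace φ → (∀ x, ∑ᶠ g : G, e g * φ (g * x) = 0) ∨ InB B φ

section powers

variable {G ι : Type} [Group G] [Finite G] [Fintype ι]

/-- the value at a class function of a power of the group -/
def pv (B : (G → F) → F) (z : (ι → G) → F) : F :=
  ∑ᶠ C : ι → ConjClasses G, z (fun i => cout (C i)) * ∏ i, B (indr F (fun x : G => x) (C i))

theorem indr_cls (C : ConjClasses G) : IsClassFun (indr F (fun x : G => x) C) := by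
  intro g x
  unfold indr
  have h : ConjClasses.mk (g * x * g⁻¹) = ConjClasses.mk x := by
    rw [ConjClasses.mk_eq_mk_iff_isConj]
    exact (isConj_iff.2 ⟨g, rfl⟩).symm
  rw [h]

theorem act_gen (f θ : ι → G → F) (x : ι → G) :
    ∑ᶠ g : ι → G, tens f g * tens θ (g * x) = ∏ i, ∑ᶠ g : G, f i g * θ i (g * x i) := by
  have : Fintype G := Fintype.ofFinite _
  rw [finsum_eq_sum_of_fintype, Finset.prod_congr rfl fun i _ => finsum_eq_sum_of_fintype _]
  rw [Finset.prod_univ_sum, Fintype.piFinset_univ]
  refine Finset.sum_congr rfl fun g _ => ?_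
  unfold tens
  rw [← Finset.prod_mul_distrib]
  rfl

theorem act_pv {B : (G → F) → F} {θ : ι → G → F} (hθ : ∀ i, InB B (θ i)) {z : (ι → G) → F}
    (hz : IsClassFun z) (x : ι → G) :
    ∑ᶠ g : ι → G, z g * tens θ (g * x) = pv B z * tens θ x := by
  have : Fintype G := Fintype.ofFinite _
  have : Fintype (ConjClasses G) := Fintype.ofFinite _
  have h1 := cls_expand (fun (_ : ι) (x : G) => x) z hz (fun x => rfl)
  rw [finsum_eq_sum_of_fintype] at h1
  have h2 : ∀ g, z g = ∑ C : ι → ConjClasses G, z (fun i => cout (C i)) *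
      tens (fun i => indr F (fun x : G => x) (C i)) g := by
    intro g
    conv_lhs => rw [h1]
    rw [Finset.sum_apply]
    rfl
  unfold pv
  rw [finsum_eq_sum_of_fintype, finsum_eq_sum_of_fintype, Finset.sum_mul]
  calc ∑ g : ι → G, z g * tens θ (g * x)
      = ∑ g : ι → G, ∑ C : ι → ConjClasses G, z (fun i => cout (C i)) *
          (tens (fun i => indr F (fun x : G => x) (C i)) g * tens θ (g * x)) := by
        refine Finset.sum_congr rfl fun g _ => ?_
        rw [h2 g, Finset.sum_mul]
        exact Finset.sum_congr rfl fun C _ => by rw [mul_assoc]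
    _ = _ := by
        rw [Finset.sum_comm]
        refine Finset.sum_congr rfl fun C _ => ?_
        rw [← Finset.mul_sum]
        have h3 := act_gen (fun i => indr F (fun x : G => x) (C i)) θ x
        rw [finsum_eq_sum_of_fintype] at h3
        rw [h3, Finset.prod_congr rfl fun i _ => hθ i _ (indr_cls (C i)) (x i),
          Finset.prod_mul_distrib, mul_assoc]
        rfl

/-- the nilpotent elements -/
theorem nil_gen (p : ℕ) [Fact p.Prime] [CharP F p] {B : (G → F) → F} {e : G → F} (he : Iso B e)
    {z : (ι → G) → F} (hz : IsClassFun z) :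
    IsNilpotent ((ofF z - algebraMap F _ (pv B z)) *
      ofF (tens fun _ : ι => e) : MonoidAlgebra F (ι → G)) := by
  have : Fintype G := Fintype.ofFinite _
  have hcen : ofF (tens fun _ : ι => e) ∈ Subring.center (MonoidAlgebra F (ι → G)) :=
    (class_iff _).2 (cls_tens he.cls)
  apply nilp
  intro φ hφ
  obtain ⟨θ, hθ, rfl⟩ := s_tensp p F ι _ φ hφ
  by_cases hall : ∀ i, InB B (θ i)
  · intro x
    rw [mul_assoc]
    refine hat_zero (fun y => ?_) _
    rw [sub_mul, map_sub, hat_act, act_pv hall hz, ← Algebra.smul_def, map_smul, hat_single,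
      one_mul, smul_eq_mul, sub_self]
  · push Not at hall
    obtain ⟨i, hi⟩ := hall
    have h3 : ∀ x, ∑ᶠ g : G, e g * θ i (g * x) = 0 := by
      rcases he.act _ (hθ i) with h | h
      · exact h
      · exact absurd h hi
    intro x
    rw [Subring.mem_center_iff.1 hcen _, mul_assoc]
    refine hat_zero (fun y => ?_) _
    rw [hat_act, act_tens]
    exact Finset.prod_eq_zero (Finset.mem_univ i) (h3 _)

theorem alg_single {N : Type} [Group N] (c : F) :
    (algebraMap F (MonoidAlgebra F N)) c = MonoidAlgebra.single 1 c := by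
  rw [Algebra.algebraMap_eq_smul_one, MonoidAlgebra.one_def, MonoidAlgebra.smul_single,
    smul_eq_mul, mul_one]

theorem ofS_eq {N : Type} [Group N] [Finite N] (c : F) :
    (ofS c : Subring.center (MonoidAlgebra F N)).1 = MonoidAlgebra.single 1 c := by
  apply MonoidAlgebra.coeff_injective
  ext s
  rw [coeff_ofS, MonoidAlgebra.coeff_single, Finsupp.single_apply]
  by_cases hs : s = 1
  · rw [if_pos hs, if_pos hs.symm]
  · rw [if_neg hs, if_neg fun h => hs h.symm]

/-- blocks over a power of a block, for direct powers -/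
theorem pow_val (p : ℕ) [Fact p.Prime] [CharP F p] {B : (G → F) → F} {e : G → F} (he : Iso B e)
    {B' : ((ι → G) → F) → F} (hB' : IsBlock B') (h1 : B' (tens fun _ : ι => e) = 1)
    {z : (ι → G) → F} (hz : IsClassFun z) : B' z = pv B z := by
  have hn := nil_gen (ι := ι) p he hz
  rw [alg_single, ← ofS_eq] at hn
  have hce : IsClassFun (tens fun _ : ι => e) := cls_tens he.cls
  have hn3 : IsNilpotent ((ofC z hz - ofS (pv B z)) * ofC (tens fun _ : ι => e) hce) := by
    obtain ⟨n, hn⟩ := hn
    exact ⟨n, Subtype.ext hn⟩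
  have hn4 := hn3.map (toRH hB')
  rw [map_mul, map_sub, toRH_ofC, toRH_ofC, toRH_ofS, h1, mul_one] at hn4
  exact sub_eq_zero.1 hn4.eq_zero

end powers

end Pool.Agent.E8helper60.AW
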