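import Pool.Agent.E8helper60.AW.Ov

/-!
# Blocks of wreath products
-/

set_option autoImplicit false
set_option linter.unusedSectionVars false

open scoped Classical

noncomputable section

namespace Pool.Agent.E8helper60.AW

open Pool.Agent.Y63.NV Pool.Agent.Y405.NV Pool.Agent.Y63.NV.B48B
open Pool.Agent.Y63.AWC (IsIrreducibleCharacter pSubgroupSetoid numDefectZero numWeights
  numRegularClasses)

variable {F : Type} [Field F] [IsAlgClosed F]

section wreath

variable {G C : Type} [Group G] [Finite G] [Group C] [Fintype C]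

theorem ofF_map' [Fintype G] {z : RegularWreathProduct G C → F}
    (hz : ∀ x, x ∉ (bse G C).range → z x = 0) :
    MonoidAlgebra.mapDomainRingHom F (bse G C) (ofF fun a => z (bse G C a)) = ofF z := by
  have : Fintype (RegularWreathProduct G C) := Fintype.ofFinite _
  rw [ofF_sum, ofF_sum, map_sum]
  have h1 : ∀ a : C → G, MonoidAlgebra.mapDomainRingHom F (bse G C)
      (MonoidAlgebra.single a (z (bse G C a))) =
      MonoidAlgebra.single (bse G C a) (z (bse G C a)) := fun a => MonoidAlgebra.mapDomain_single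
  rw [Finset.sum_congr rfl fun a _ => h1 a]
  refine Fintype.sum_of_injective (bse G C) bse_inj _ _ (fun s hs => ?_) fun a => rfl
  rw [hz s hs, MonoidAlgebra.single_zero]

/-- values of the blocks over a power of a block, for wreath products -/
theorem wr_val (p : ℕ) [Fact p.Prime] [CharP F p] {B : (G → F) → F} {e : G → F} (he : Iso B e)
    {B' : (RegularWreathProduct G C → F) → F} (hB' : IsBlock B') (h1 : B' (wE G C e) = 1)
    {z : RegularWreathProduct G C → F} (hz : InZ (bse G C).range z) :
    B' z = pv B (fun a : C → G => z (bse G C a)) := by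
  have : Fintype G := Fintype.ofFinite _
  have hcl : IsClassFun (fun a : C → G => z (bse G C a)) := by
    intro g x
    change z (bse G C (g * x * g⁻¹)) = z (bse G C x)
    rw [map_mul, map_mul, map_inv]
    exact hz.conj _ _
  have hn := (nil_gen (ι := C) p he hcl).map (MonoidAlgebra.mapDomainRingHom F (bse G C))
  rw [map_mul, map_sub, ofF_map, ofF_map' hz.supp, alg_single] at hn
  have h6 : MonoidAlgebra.mapDomainRingHom F (bse G C)
      (MonoidAlgebra.single 1 (pv B (fun a : C → G => z (bse G C a)))) =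
      MonoidAlgebra.single (bse G C 1) (pv B (fun a : C → G => z (bse G C a))) :=
    MonoidAlgebra.mapDomain_single
  rw [h6, map_one, ← ofS_eq] at hn
  have hce : IsClassFun (wE G C e) := (wE_inz he.cls).conj
  have hzc : IsClassFun z := hz.conj
  have hn3 : IsNilpotent ((ofC z hzc - ofS (pv B (fun a : C → G => z (bse G C a)))) *
      ofC (wE G C e) hce) := by
    obtain ⟨n, hn⟩ := hn
    exact ⟨n, Subtype.ext hn⟩
  have hn4 := hn3.map (toRH hB')
  rw [map_mul, map_sub, toRH_ofC, toRH_ofC, toRH_ofS, h1, mul_one] at hn4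
  exact sub_eq_zero.1 hn4.eq_zero

/-- uniqueness for index `p` -/
theorem over_uniq (p : ℕ) [Fact p.Prime] [CharP F p] (hC : Nat.card C = p) {B : (G → F) → F}
    {e : G → F} (he : Iso B e) {B' B'' : (RegularWreathProduct G C → F) → F} (hB' : IsBlock B')
    (hB'' : IsBlock B'') (h1 : B' (wE G C e) = 1) (h2 : B'' (wE G C e) = 1)
    {f : RegularWreathProduct G C → F} (hf : IsClassFun f) : B' f = B'' f := by
  refine B286.frob p (G := (bse G C).range) (bse_card.trans hC) hB' hB'' (fun z hz => ?_) f hf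
  rw [wr_val p he hB' h1 hz, wr_val p he hB'' h2 hz]

end wreath

/-! ### All blocks contain irreducible traces -/

section all

variable {p : ℕ} [Fact p.Prime] [CharP F p] (red : integralClosure ℤ ℂ →+* F) {G : Type} [Group G]
  [Finite G]

theorem rs_mem {S : Finset (CF G F → F)}
    (hS : ∀ β ∈ S, ∃ B : (G → F) → F, IsBlock B ∧ rs B = β)
    (h7 : ∀ φ : G → F, IsIrrTrace φ → ∃ β ∈ S, ∀ (f : CF G F) (x : G),
      ∑ᶠ g : G, f.1 g * φ (g * x) = β f * φ x) {B : (G → F) → F} (hB : IsBlock B) : rs B ∈ S := by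
  have : Fintype G := Fintype.ofFinite _
  by_contra hcon
  obtain ⟨u, hu1, hu2⟩ := sep_blocks (insert (rs B) S) (by
    intro β hβ
    rcases Finset.mem_insert.1 hβ with rfl | h
    · exact ⟨B, hB, rfl⟩
    · exact hS β h) (rs B) (Finset.mem_insert_self _ _)
  have hn : IsNilpotent (ofF u.1) := by
    apply nilp
    intro φ hφ x
    obtain ⟨β, hβ, hβ2⟩ := h7 φ hφ
    rw [hat_act, hβ2 u x, hu2 β (Finset.mem_insert_of_mem hβ) (fun h => hcon (h ▸ hβ)), zero_mul]
  have hn3 : IsNilpotent (ofC u.1 u.2) := by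
    obtain ⟨n, hn⟩ := hn
    exact ⟨n, Subtype.ext hn⟩
  have hn4 := hn3.map (toRH hB)
  rw [toRH_ofC] at hn4
  have h1 : B u.1 = 1 := hu1
  rw [h1] at hn4
  exact one_ne_zero hn4.eq_zero

/-- the class of elements which isolates a block -/
theorem isolate' {B : (G → F) → F} (hB : IsBlock B) :
    ∃ e : G → F, ∃ h : CI p red e, Iso B e ∧ nl e = numIrrBlock B ∧
      (haveI : Fact (IsClassFun e) := ⟨h.cls⟩; nwt p red e 1 = numWt p red B) := by
  have hne : numIrrBlock B ≠ 0 := by
    intro h0
    obtain ⟨S, lβ, wβ, h1, h2, h3, h4, h5, h6, h7⟩ := decomp (p := p) red (G := G)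
    have hmem := rs_mem h1 h7 hB
    obtain ⟨u, hu1, hu2⟩ := sep_blocks S h1 (rs B) hmem
    have hn : IsNilpotent (ofF u.1) := by
      have : Fintype G := Fintype.ofFinite _
      apply nilp
      intro φ hφ x
      obtain ⟨β, hβ, hβ2⟩ := h7 φ hφ
      rw [hat_act, hβ2 u x]
      by_cases h : β = rs B
      · exfalso
        have hfin : Finite {φ : G → F // IsIrrTrace φ ∧
            ∀ f : G → F, IsClassFun f → ∀ x : G, ∑ᶠ g : G, f g * φ (g * x) = B f * φ x} := by
          have h8 := (Pool.Agent.Y914.NV.irr F G).1.to_subtype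
          exact Finite.of_injective (β := {φ : G → F | IsIrrTrace φ}) (fun φ => ⟨φ.1, φ.2.1⟩)
            fun φ φ' h => Subtype.ext (congrArg (fun t : {φ : G → F | IsIrrTrace φ} => t.1) h)
        unfold numIrrBlock at h0
        rcases Nat.card_eq_zero.1 h0 with h8 | h8
        · refine h8.false ⟨φ, hφ, fun f hf x => ?_⟩
          rw [hβ2 ⟨f, hf⟩ x, h]
          rfl
        · exact h8.not_finite hfin
      · rw [hu2 β hβ h, zero_mul]
    have hn3 : IsNilpotent (ofC u.1 u.2) := by
      obtain ⟨n, hn⟩ := hn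
      exact ⟨n, Subtype.ext hn⟩
    have hn4 := hn3.map (toRH hB)
    rw [toRH_ofC] at hn4
    have h8 : B u.1 = 1 := hu1
    rw [h8] at hn4
    exact one_ne_zero hn4.eq_zero
  rcases isolate (p := p) red B with ⟨h2, h3⟩ | ⟨e, he, h1, h2, h3, h4⟩
  · exact absurd h2 hne
  · refine ⟨e.1, he, ⟨e.2, h1, h4⟩, h2, ?_⟩
    have : Fact (IsClassFun e.1) := ⟨he.cls⟩
    rw [nwt_sum]
    exact h3

/-- **The exact formulas for the wreath product with the group of order `p`.** -/
theorem wreath_p {C : Type} [Group C] [Fintype C] (hC : Nat.card C = p) {B : (G → F) → F}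
    (hB : IsBlock B) : ∃ B' : (RegularWreathProduct G C → F) → F, IsBlock B' ∧ Over B B' ∧
      (∀ B'' : (RegularWreathProduct G C → F) → F, IsBlock B'' → Over B B'' →
        ∀ f : RegularWreathProduct G C → F, IsClassFun f → B'' f = B' f) ∧
      p * numIrrBlock B' = numIrrBlock B ^ p + (p - 1) * numIrrBlock B ∧
      p * numWt p red B' = numWt p red B ^ p + (p - 1) * numWt p red B := by
  have hp : p.Prime := Fact.out
  obtain ⟨e, he, hi, h1, h2⟩ := isolate' red hB
  have : Fact (IsClassFun e) := ⟨he.cls⟩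
  have : Fact (IsClassFun (wE G C e)) := ⟨(wE_inz he.cls).conj⟩
  have h3 := nl_wreath (C := C) he p hp hC
  have h4 := nwt_wreath (C := C) he p hp hC
  have hco : co p p = p - 1 := if_pos rfl
  rw [hco] at h3 h4
  obtain ⟨S, lβ, wβ, k1, k2, k3, k4, k5, k6, k7⟩ :=
    decomp (p := p) red (G := RegularWreathProduct G C)
  have hE : (⟨wE G C e, (wE_inz he.cls).conj⟩ : CF (RegularWreathProduct G C) F).1 = wE G C e := rfl
  -- existence
  have hne : nl (wE G C e) ≠ 0 := by
    intro h0
    rw [h0, mul_zero] at h3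
    have h5 : nl e = 0 := by
      have h6 := Nat.eq_zero_of_add_eq_zero_right h3.symm
      exact pow_eq_zero_iff hp.ne_zero |>.1 h6
    obtain ⟨x, hx⟩ : ∃ φ : G → F, IsIrrTrace φ ∧ InB B φ := by
      by_contra hcon
      push Not at hcon
      have : Fintype G := Fintype.ofFinite _
      have hn : IsNilpotent (ofF e) := by
        apply nilp
        intro φ hφ x
        rcases hi.act φ hφ with h | h
        · rw [hat_act, h]
        · exact absurd h (hcon φ hφ)
      have hn3 : IsNilpotent (ofC e he.cls) := by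
        obtain ⟨n, hn⟩ := hn
        exact ⟨n, Subtype.ext hn⟩
      have hn4 := hn3.map (toRH hB)
      rw [toRH_ofC, hi.one] at hn4
      exact one_ne_zero hn4.eq_zero
    have hf := LL_fin e
    unfold nl at h5
    rcases Nat.card_eq_zero.1 h5 with h8 | h8
    · refine h8.false ⟨x, hx.1, fun y => ?_⟩
      rw [hx.2 e he.cls y, hi.one, one_mul]
    · exact h8.not_finite hf
  have hex : ∃ β ∈ S, β ⟨wE G C e, (wE_inz he.cls).conj⟩ = 1 := by
    by_contra hcon
    push Not at hcon
    apply hne
    have h5 := k4 ⟨wE G C e, (wE_inz he.cls).conj⟩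
    rw [Finset.sum_congr rfl fun β hβ => if_neg (hcon β hβ), Finset.sum_const_zero] at h5
    exact h5
  obtain ⟨β, hβ, hβ1⟩ := hex
  obtain ⟨B', hB', rfl⟩ := k1 β hβ
  have hB1 : B' (wE G C e) = 1 := hβ1
  have huniq : ∀ B'' : (RegularWreathProduct G C → F) → F, IsBlock B'' → B'' (wE G C e) = 1 →
      ∀ f : RegularWreathProduct G C → F, IsClassFun f → B'' f = B' f :=
    fun B'' hB'' h f hf => over_uniq p hC hi hB'' hB' h hB1 hf
  have hsum : ∀ (a : (CF (RegularWreathProduct G C) F → F) → ℕ),
      (∑ β ∈ S, if β ⟨wE G C e, (wE_inz he.cls).conj⟩ = 1 then a β else 0) = a (rs B') := by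
    intro a
    rw [Finset.sum_eq_single (rs B')]
    · exact if_pos hB1
    · intro β hβ hne
      refine if_neg fun h => hne ?_
      obtain ⟨B'', hB'', rfl⟩ := k1 β hβ
      funext f
      exact huniq B'' hB'' h f.1 f.2
    · exact fun h => absurd hβ h
  refine ⟨B', hB', over_of_one p he.cls hi.act hB' hB1, fun B'' hB'' ho => ?_, ?_, ?_⟩
  · refine huniq B'' hB'' ?_
    rw [ho e he.cls, hi.one, one_pow]
  · have h5 := k4 ⟨wE G C e, (wE_inz he.cls).conj⟩
    rw [hsum lβ, ← (k3 B').1] at h5
    have h6 : nl (wE G C e) = numIrrBlock B' := h5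
    rw [← h6, ← h1]
    exact h3
  · have h5 := k5 ⟨wE G C e, (wE_inz he.cls).conj⟩
    rw [hsum wβ, ← (k3 B').2] at h5
    have h6 : nwt p red (wE G C e) 1 = numWt p red B' := by
      rw [nwt_sum]
      exact h5
    rw [← h6, ← h2]
    exact h4

end all

end Pool.Agent.E8helper60.AW
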