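import Pool.Agent.E8helper60.AW.Stm
import Pool.Agent.Y914.NV.Irr
import Pool.Agent.Y275.NV.Wed
import Pool.Agent.Y705.NV.Nil
import Pool.Agent.Y705.NV.Ppt
import Pool.Agent.Y77.NV.Base
import Pool.Agent.Helper884.IC.Compl

/-!
# Irreducible traces of direct products
-/

set_option autoImplicit false
set_option linter.unusedSectionVars false

open scoped Classical MonoidAlgebra
open Representation

noncomputable section

namespace Pool.Agent.E8helper60.AW

open Pool.Agent.Y63.NV

section mat

variable {F : Type} [Field F]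

/-- irreducible traces in matrix form -/
theorem mat_of_irr [IsAlgClosed F] {N : Type} [Group N] [Finite N] {φ : N → F}
    (h : IsIrrTrace φ) :
    ∃ (d : ℕ) (_ : NeZero d) (π : MonoidAlgebra F N →ₐ[F] Matrix (Fin d) (Fin d) F),
      Function.Surjective π ∧ ∀ g, φ g = (π (MonoidAlgebra.single g 1)).trace := by
  obtain ⟨V, i1, i2, i3, ρ, hρ, rfl⟩ := h
  have := hρ
  have hnt : Nontrivial V := IsSimpleModule.nontrivial (MonoidAlgebra F N) ρ.asModule
  have hd : Module.finrank F V ≠ 0 := Module.finrank_pos.ne'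
  refine ⟨Module.finrank F V, ⟨hd⟩,
    (LinearMap.toMatrixAlgEquiv (Module.finBasis F V)).toAlgHom.comp ρ.asAlgebraHom, ?_, ?_⟩
  · intro M
    obtain ⟨a, ha⟩ := Pool.Agent.Y914.NV.burn (F := F) (A := F[N]) (V := ρ.asModule)
      ((ρ.asModuleEquiv.symm : V →ₗ[F] ρ.asModule) ∘ₗ
        ((LinearMap.toMatrixAlgEquiv (Module.finBasis F V)).symm M : V →ₗ[F] V) ∘ₗ
        (ρ.asModuleEquiv : ρ.asModule →ₗ[F] V))
    refine ⟨a, ?_⟩
    have h1 : ρ.asAlgebraHom a = (LinearMap.toMatrixAlgEquiv (Module.finBasis F V)).symm M := by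
      ext w
      rw [Pool.Agent.Y914.NV.act, ha]
      simp
    change (LinearMap.toMatrixAlgEquiv (Module.finBasis F V)) (ρ.asAlgebraHom a) = M
    rw [h1, AlgEquiv.apply_symm_apply]
  · intro g
    change LinearMap.trace F V (ρ g) = ((LinearMap.toMatrixAlgEquiv (Module.finBasis F V))
      (ρ.asAlgebraHom (MonoidAlgebra.single g 1))).trace
    rw [asAlgebraHom_single, one_smul, LinearMap.trace_eq_matrix_trace F (Module.finBasis F V)]
    rfl

theorem irr_of_mat {N : Type} [Group N] {d : ℕ} [NeZero d]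
    (π : MonoidAlgebra F N →ₐ[F] Matrix (Fin d) (Fin d) F) (hπ : Function.Surjective π) :
    IsIrrTrace (fun g => (π (MonoidAlgebra.single g 1)).trace) := by
  refine ⟨Fin d → F, inferInstance, inferInstance, inferInstance, Pool.Agent.Y275.NV.rp π,
    Pool.Agent.Y275.NV.rp_irr π hπ, ?_⟩
  funext g
  rw [Pool.Agent.Y275.NV.rp_char]

variable {ι : Type} [Fintype ι] {d : ι → ℕ}

/-- the Kronecker product of matrices -/
def kron (M : ∀ i, Matrix (Fin (d i)) (Fin (d i)) F) :
    Matrix (∀ i, Fin (d i)) (∀ i, Fin (d i)) F := Matrix.of fun a b => ∏ i, M i (a i) (b i)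

theorem kron_apply (M : ∀ i, Matrix (Fin (d i)) (Fin (d i)) F) (a b : ∀ i, Fin (d i)) :
    kron M a b = ∏ i, M i (a i) (b i) := rfl

theorem kron_mul (M M' : ∀ i, Matrix (Fin (d i)) (Fin (d i)) F) :
    kron (fun i => M i * M' i) = kron M * kron M' := by
  ext a b
  rw [Matrix.mul_apply, kron_apply]
  simp_rw [Matrix.mul_apply, kron_apply]
  rw [Fintype.prod_sum]
  exact Finset.sum_congr rfl fun c _ => Finset.prod_mul_distrib

theorem kron_one : kron (fun i => (1 : Matrix (Fin (d i)) (Fin (d i)) F)) = 1 := by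
  ext a b
  rw [kron_apply, Matrix.one_apply]
  simp_rw [Matrix.one_apply]
  split_ifs with h
  · subst h
    exact Finset.prod_eq_one fun i _ => if_pos rfl
  · obtain ⟨i, hi⟩ := Function.ne_iff.1 h
    exact Finset.prod_eq_zero (Finset.mem_univ i) (if_neg hi)

theorem kron_trace (M : ∀ i, Matrix (Fin (d i)) (Fin (d i)) F) :
    (kron M).trace = ∏ i, (M i).trace := by
  unfold Matrix.trace
  rw [Fintype.prod_sum]
  rfl

theorem kron_single (a b : ∀ i, Fin (d i)) :
    kron (fun i => Matrix.single (a i) (b i) (1 : F)) = Matrix.single a b 1 := by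
  ext x y
  rw [kron_apply, Matrix.single_apply]
  simp_rw [Matrix.single_apply]
  split_ifs with h
  · obtain ⟨rfl, rfl⟩ := h
    exact Finset.prod_eq_one fun i _ => if_pos ⟨rfl, rfl⟩
  · rw [Finset.prod_eq_zero_iff]
    by_contra hcon
    push Not at hcon
    apply h
    constructor
    · funext i
      have := hcon i (Finset.mem_univ i)
      by_contra h2
      exact this (if_neg fun h3 => h2 h3.1)
    · funext i
      have := hcon i (Finset.mem_univ i)
      by_contra h2
      exact this (if_neg fun h3 => h2 h3.2)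

end mat

/-- TENS -/
theorem s_tens : S_TENS := by
  intro F _ _ ι _ K _ _ θ hθ
  have : ∀ i, Fintype (K i) := fun i => Fintype.ofFinite _
  choose d hd π hπ hθ2 using fun i => mat_of_irr (hθ i)
  let T : (∀ i, K i) →* Matrix (∀ i, Fin (d i)) (∀ i, Fin (d i)) F :=
    { toFun := fun x => kron fun i => π i (MonoidAlgebra.single (x i) 1)
      map_one' := by
        rw [← kron_one]
        congr 1
        funext i
        exact map_one (π i)
      map_mul' := fun x y => by
        rw [← kron_mul]
        congr 1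
        funext i
        rw [← map_mul, MonoidAlgebra.single_mul_single, one_mul, Pi.mul_apply] }
  let P0 : MonoidAlgebra F (∀ i, K i) →ₐ[F] Matrix (∀ i, Fin (d i)) (∀ i, Fin (d i)) F :=
    MonoidAlgebra.lift F _ _ T
  have hP0 : ∀ x, P0 (MonoidAlgebra.single x 1) = T x := by
    intro x
    change (MonoidAlgebra.lift F _ _ T) (MonoidAlgebra.single x 1) = T x
    rw [MonoidAlgebra.lift_single, one_smul]
  have hsurj : Function.Surjective P0 := by
    have hr : ∀ a b : ∀ i, Fin (d i), Matrix.single a b (1 : F) ∈ P0.range := by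
      intro a b
      choose y hy using fun i => hπ i (Matrix.single (a i) (b i) 1)
      choose c hc using fun i => Pool.Agent.Y914.NV.expand (y i)
      have h1 : Matrix.single a b (1 : F) = ∑ x : ∀ i, K i, (∏ i, c i (x i)) • T x := by
        rw [← kron_single]
        ext r s
        rw [Matrix.sum_apply, kron_apply]
        have h2 : ∀ i, Matrix.single (a i) (b i) (1 : F) =
            ∑ g, c i g • π i (MonoidAlgebra.single g 1) := by
          intro i
          rw [← hy i, hc i, map_sum]
          refine Finset.sum_congr rfl fun g _ => ?_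
          rw [← map_smul, MonoidAlgebra.smul_single, smul_eq_mul, mul_one]
        have h3 : ∀ i, Matrix.single (a i) (b i) (1 : F) (r i) (s i) =
            ∑ g, c i g * π i (MonoidAlgebra.single g 1) (r i) (s i) := by
          intro i
          rw [h2 i, Matrix.sum_apply]
          rfl
        rw [Finset.prod_congr rfl fun i _ => h3 i, Fintype.prod_sum]
        refine Finset.sum_congr rfl fun x _ => ?_
        rw [Finset.prod_mul_distrib]
        rfl
      rw [h1]
      refine Subalgebra.sum_mem _ fun x _ => Subalgebra.smul_mem _ ?_ _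
      rw [AlgHom.mem_range]
      exact ⟨MonoidAlgebra.single x 1, hP0 x⟩
    intro M
    have : M ∈ P0.range := by
      rw [Matrix.matrix_eq_sum_single M]
      refine Subalgebra.sum_mem _ fun a _ => Subalgebra.sum_mem _ fun b _ => ?_
      have h4 : Matrix.single a b (M a b) = M a b • Matrix.single a b (1 : F) := by
        rw [Matrix.smul_single, smul_eq_mul, mul_one]
      rw [h4]
      exact Subalgebra.smul_mem _ (hr a b) _
    exact this
  -- reindex
  let e : (∀ i, Fin (d i)) ≃ Fin (Fintype.card (∀ i, Fin (d i))) := Fintype.equivFin _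
  let P1 := (Matrix.reindexAlgEquiv F F e).toAlgHom.comp P0
  have hne : NeZero (Fintype.card (∀ i, Fin (d i))) := by
    refine ⟨?_⟩
    have : Nonempty (∀ i, Fin (d i)) := ⟨fun i => 0⟩
    exact Fintype.card_ne_zero
  have h5 := irr_of_mat P1 ((Matrix.reindexAlgEquiv F F e).surjective.comp hsurj)
  have h6 : (fun g => (P1 (MonoidAlgebra.single g 1)).trace) = tens θ := by
    funext x
    change ((Matrix.reindexAlgEquiv F F e) (P0 (MonoidAlgebra.single x 1))).trace = _
    rw [hP0]
    have h7 : ∀ M : Matrix (∀ i, Fin (d i)) (∀ i, Fin (d i)) F,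
        ((Matrix.reindexAlgEquiv F F e) M).trace = M.trace := by
      intro M
      unfold Matrix.trace
      exact Fintype.sum_equiv e.symm _ _ fun i => rfl
    rw [h7]
    change (kron fun i => π i (MonoidAlgebra.single (x i) 1)).trace = _
    rw [kron_trace]
    unfold tens
    exact Finset.prod_congr rfl fun i _ => (hθ2 i (x i)).symm
  rw [← h6]
  exact h5

/-- an element of the span of some of the irreducible traces is one of them -/
theorem mem_of_span {F : Type} [Field F] [IsAlgClosed F] {N : Type} [Group N] [Finite N]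
    {φ : N → F} (hφ : IsIrrTrace φ) (S : Set (N → F)) (hS : ∀ ψ ∈ S, IsIrrTrace ψ)
    (h : φ ∈ Submodule.span F S) : φ ∈ S := by
  have hli := (Pool.Agent.Y914.NV.irr F N).2
  by_contra hcon
  have h1 := hli.notMem_span_image (s := {ψ : {φ : N → F // IsIrrTrace φ} | ψ.1 ∈ S})
    (x := ⟨φ, hφ⟩) hcon
  apply h1
  have h2 : (fun φ : {φ : N → F // IsIrrTrace φ} => φ.1) ''
      {ψ : {φ : N → F // IsIrrTrace φ} | ψ.1 ∈ S} = S := by
    ext ψ
    constructor
    · rintro ⟨ψ', h3, rfl⟩
      exact h3
    · intro h3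
      exact ⟨⟨ψ, hS ψ h3⟩, h3, rfl⟩
  rw [h2]
  exact h

/-- products of combinations of irreducible traces -/
theorem tens_span {F : Type} [Field F] {ι : Type} [Fintype ι] {K : ι → Type}
    [∀ i, Group (K i)] (f : ∀ i, K i → F)
    (h : ∀ i, f i ∈ Submodule.span F {φ : K i → F | IsIrrTrace φ}) :
    tens f ∈ Submodule.span F {ψ : (∀ i, K i) → F | ∃ θ : ∀ i, K i → F,
      (∀ i, IsIrrTrace (θ i)) ∧ ψ = tens θ} := by
  have h1 : ∀ i, ∃ (s : Finset (K i → F)) (c : (K i → F) → F), (∀ φ ∈ s, IsIrrTrace φ) ∧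
      f i = fun x => ∑ φ ∈ s, c φ * φ x := by
    intro i
    obtain ⟨c, hc1, hc2⟩ := (Submodule.mem_span_set (R := F)).1 (h i)
    refine ⟨c.support, c, fun φ hφ => hc1 hφ, ?_⟩
    rw [← hc2]
    funext x
    unfold Finsupp.sum
    rw [Finset.sum_apply]
    rfl
  choose s c hs hc using h1
  have h2 : tens f = ∑ θ ∈ Fintype.piFinset s, (∏ i, c i (θ i)) • tens θ := by
    funext x
    rw [Finset.sum_apply]
    unfold tens
    rw [Finset.prod_congr rfl fun i _ => congrFun (hc i) (x i),
      Finset.prod_univ_sum s (fun i φ => c i φ * φ (x i))]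
    refine Finset.sum_congr rfl fun θ _ => ?_
    rw [Finset.prod_mul_distrib]
    rfl
  rw [h2]
  refine Submodule.sum_mem _ fun θ hθ => Submodule.smul_mem _ _ (Submodule.subset_span ?_)
  exact ⟨θ, fun i => hs i _ (Fintype.mem_piFinset.1 hθ i), rfl⟩

/-- `p'`-parts in direct products -/
theorem pp_pi (p : ℕ) [Fact p.Prime] {ι : Type} [Fintype ι] {K : ι → Type} [∀ i, Group (K i)]
    [∀ i, Finite (K i)] (x : ∀ i, K i) (i : ι) : pp p x i = pp p (x i) := by
  unfold pp
  change x i ^ pexp p (∀ i, K i) = x i ^ pexp p (K i)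
  refine Pool.Agent.Y77.NV.pow_congr (p := p) (x i) _ _ fun e m hd hm => ?_
  have h1 := Pool.Agent.Y77.NV.pexp_modEq p (K i) e m hd hm
  have h2 := Pool.Agent.Y77.NV.pexp_modEq p (∀ i, K i) e m (hd.trans (by
    rw [Nat.card_pi]
    exact Finset.dvd_prod_of_mem _ (Finset.mem_univ i))) hm
  exact ⟨h2.1.trans h1.1.symm, h2.2.trans h1.2.symm⟩

/-- a representative of a conjugacy class -/
def cout {K : Type} [Group K] (C : ConjClasses K) : K := Quotient.out C

theorem mk_cout {K : Type} [Group K] (C : ConjClasses K) : ConjClasses.mk (cout C) = C :=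
  Quotient.out_eq C

/-- the indicator function of the preimage of a class -/
def indr {K : Type} [Group K] (F : Type) [Field F] (r : K → K) (C : ConjClasses K) (x : K) : F :=
  if ConjClasses.mk (r x) = C then 1 else 0

/-- class functions on direct products are combinations of products of class functions -/
theorem cls_expand {F : Type} [Field F] {ι : Type} [Fintype ι] {K : ι → Type}
    [∀ i, Group (K i)] [∀ i, Finite (K i)] (r : ∀ i, K i → K i) (φ : (∀ i, K i) → F)
    (h1 : IsClassFun φ) (h2 : ∀ x : ∀ i, K i, φ (fun i => r i (x i)) = φ x) :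
    φ = ∑ᶠ C : ∀ i, ConjClasses (K i), φ (fun i => cout (C i)) •
      tens (fun i => indr F (r i) (C i)) := by
  have : ∀ i, Fintype (K i) := fun i => Fintype.ofFinite _
  rw [finsum_eq_sum_of_fintype]
  funext x
  rw [Finset.sum_apply, Finset.sum_eq_single (fun i => ConjClasses.mk (r i (x i)))]
  · rw [Pi.smul_apply, smul_eq_mul]
    have e0 : tens (fun i => indr F (r i) (ConjClasses.mk (r i (x i)))) x = 1 :=
      Finset.prod_eq_one fun i _ => if_pos rfl
    rw [e0, mul_one, ← h2 x]
    have h3 : ∀ i, ∃ g : K i, g * r i (x i) * g⁻¹ = cout (ConjClasses.mk (r i (x i))) := by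
      intro i
      have h4 : ConjClasses.mk (r i (x i)) = ConjClasses.mk (cout (ConjClasses.mk (r i (x i)))) :=
        (mk_cout _).symm
      rw [ConjClasses.mk_eq_mk_iff_isConj, isConj_iff] at h4
      exact h4
    choose g hg using h3
    have h5 := h1 g (fun i => r i (x i))
    rw [← h5]
    congr 1
    funext i
    exact hg i
  · intro C _ hC
    rw [Pi.smul_apply, smul_eq_mul]
    obtain ⟨i, hi⟩ := Function.ne_iff.1 hC
    have e0 : tens (fun i => indr F (r i) (C i)) x = 0 :=
      Finset.prod_eq_zero (Finset.mem_univ i) (if_neg (Ne.symm hi))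
    rw [e0, mul_zero]
  · intro h
    exact absurd (Finset.mem_univ _) h

/-- TENSP -/
theorem s_tensp : S_TENSP := by
  intro p _ F _ _ _ ι _ K _ _ φ hφ
  have : ∀ i, Fintype (K i) := fun i => Fintype.ofFinite _
  have hspan : S_SPAN := fun p _ F _ _ _ N _ _ f hf hf' =>
    Pool.Agent.Y275.NV.wed F N f hf (Pool.Agent.Y705.NV.nil p F N f hf hf')
  have hcl : IsClassFun φ := by
    obtain ⟨V, _, _, _, ρ, _, rfl⟩ := hφ
    exact fun g x => ρ.char_conj x g
  have hpp := Pool.Agent.Y705.NV.ppt p F (∀ i, K i) φ hφ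
  have h1 := cls_expand (fun i (x : K i) => pp p x) φ hcl (fun x => by
    rw [← hpp x]
    congr 1
    funext i
    exact (pp_pi p x i).symm)
  have h2 : φ ∈ Submodule.span F {ψ : (∀ i, K i) → F | ∃ θ : ∀ i, K i → F,
      (∀ i, IsIrrTrace (θ i)) ∧ ψ = tens θ} := by
    rw [h1, finsum_eq_sum_of_fintype]
    refine Submodule.sum_mem _ fun C _ => Submodule.smul_mem _ _ (tens_span _ fun i => ?_)
    refine hspan p F (K i) _ ?_ ?_
    · intro g x
      have : ConjClasses.mk (pp p (g * x * g⁻¹)) = ConjClasses.mk (pp p x) := by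
        rw [Pool.Agent.Y77.NV.pp_conj, ConjClasses.mk_eq_mk_iff_isConj, isConj_comm, isConj_iff]
        exact ⟨g, rfl⟩
      unfold indr
      rw [this]
    · intro x
      unfold indr
      beta_reduce
      rw [Pool.Agent.Y77.NV.pp_pp]
  exact mem_of_span hφ _ (by rintro ψ ⟨θ, hθ, rfl⟩; exact s_tens F ι K θ hθ) h2

/-- TENSC -/
theorem s_tensc : S_TENSC := by
  intro ι _ K _ _ φ hφ
  have : ∀ i, Fintype (K i) := fun i => Fintype.ofFinite _
  have hcl : IsClassFun φ := by
    obtain ⟨V, _, _, _, ρ, _, rfl⟩ := hφ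
    exact fun g x => ρ.char_conj x g
  have h1 := cls_expand (fun i (x : K i) => x) φ hcl (fun x => rfl)
  have h2 : φ ∈ Submodule.span ℂ {ψ : (∀ i, K i) → ℂ | ∃ θ : ∀ i, K i → ℂ,
      (∀ i, IsIrrTrace (θ i)) ∧ ψ = tens θ} := by
    rw [h1, finsum_eq_sum_of_fintype]
    refine Submodule.sum_mem _ fun C _ => Submodule.smul_mem _ _ (tens_span _ fun i => ?_)
    have h3 : Pool.Agent.Helper884.IC.IsClass (indr ℂ (fun x : K i => x) (C i)) := by
      intro x g
      have : ConjClasses.mk (g * x * g⁻¹) = ConjClasses.mk x := by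
        rw [ConjClasses.mk_eq_mk_iff_isConj, isConj_comm, isConj_iff]
        exact ⟨g, rfl⟩
      unfold indr
      rw [this]
    rw [Pool.Agent.Helper884.IC.expand _ h3]
    refine Submodule.sum_mem _ fun χ hχ => Submodule.smul_mem _ _ (Submodule.subset_span ?_)
    exact Pool.Agent.Helper884.IC.mem_Irr.1 hχ
  exact mem_of_span hφ _ (by rintro ψ ⟨θ, hθ, rfl⟩; exact s_tens ℂ ι K θ hθ) h2

end Pool.Agent.E8helper60.AW
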