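import Pool.Agent.E8helper60.AW.Tens
import Pool.Agent.E8helper60.AW.Tn

/-!
# Weights as pairs, and direct products
-/

set_option autoImplicit false
set_option linter.unusedSectionVars false

open scoped Classical

noncomputable section

namespace Pool.Agent.E8helper60.AW

open Pool.Agent.Y63.NV
open Pool.Agent.Y63.AWC (IsIrreducibleCharacter deg_nat one_ne deg_dvd)

variable {F : Type} [Field F]

/-- `(Q, χ)` is a weight of `G` (the character `χ` of the normaliser of `Q` is extended by zero)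
and the central character takes the value `c` at `z`. -/
structure IsPair (p : ℕ) (red : integralClosure ℤ ℂ →+* F) {G : Type} [Group G] (z : G → F) (c : F)
    (Q : Subgroup G) (χ : G → ℂ) : Prop where
  pg : IsPGroup p Q
  supp : ∀ x, x ∉ Subgroup.normalizer (Q : Set G) → χ x = 0
  wt : IsWt p (Q.subgroupOf (Subgroup.normalizer (Q : Set G)))
    (fun x : Subgroup.normalizer (Q : Set G) => χ x)
  cv : centralValue red (fun x : Subgroup.normalizer (Q : Set G) => χ x) (fun x => z x) = c

/-- a central element of the group algebra which acts as `0` or `1` on each irreducible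
representation and each weight -/
structure CI (p : ℕ) (red : integralClosure ℤ ℂ →+* F) {G : Type} [Group G] (e : G → F) :
    Prop where
  cls : IsClassFun e
  irr : ∀ φ : G → F, IsIrrTrace φ → (∀ x, ∑ᶠ g : G, e g * φ (g * x) = 0) ∨
    ∀ x, ∑ᶠ g : G, e g * φ (g * x) = φ x
  wt : ∀ (Q : Subgroup G) (χ : Subgroup.normalizer (Q : Set G) → ℂ), IsPGroup p Q →
    IsWt p (Q.subgroupOf (Subgroup.normalizer (Q : Set G))) χ →
    centralValue red χ (fun x => e x) = 0 ∨ centralValue red χ (fun x => e x) = 1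

/-- a general transfer lemma for surjections between the normalisers -/
theorem pair_transfer (p : ℕ) (red : integralClosure ℤ ℂ →+* F) {J K : Type} [Group J] [Group K]
    [Finite J] [Finite K] (π : J →* K) (hπ : Function.Bijective π) (S : Subgroup J) (T : Subgroup K)
    (hST : ∀ x, x ∈ S ↔ π x ∈ T) (χ : K → ℂ) (f : J → F) (g : K → F) (hf : IsClassFun f)
    (hfg : ∀ x, f x = g (π x)) :
    (IsWt p S (fun x => χ (π x)) ↔ IsWt p T χ) ∧ (IsIrreducibleCharacter χ →
      centralValue red (fun x => χ (π x)) f = centralValue red χ g) := by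
  have hS : S = T.comap π := by
    ext x
    exact hST x
  refine ⟨?_, fun h => ?_⟩
  · rw [hS]
    exact Pool.Agent.Y210.NV3.wt_iff π hπ.2 p T χ
  · rw [Pool.Agent.Y930.NV.inf F red J K π χ f hπ.2 h hf]
    congr 1
    funext y
    obtain ⟨x, rfl⟩ := hπ.2 y
    rw [finsum_eq_single _ x, if_pos rfl, hfg]
    intro x' hx'
    exact if_neg fun h => hx' (hπ.1 h)

/-- weights and isomorphisms -/
theorem pair_iso (p : ℕ) (red : integralClosure ℤ ℂ →+* F) {G H : Type} [Group G] [Group H]
    [Finite G] [Finite H] (α : G ≃* H) {z : H → F} (hz : IsClassFun z) {c : F} {Q : Subgroup H}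
    {χ : H → ℂ} (h : IsPair p red z c Q χ) :
    IsPair p red (fun x => z (α x)) c (Q.comap α.toMonoidHom) (fun x => χ (α x)) := by
  have hN := Subgroup.comap_normalizer_eq_of_le_range (f := α.toMonoidHom) (H := Q)
    (by rw [MonoidHom.range_eq_top.2 α.surjective]; exact le_top)
  have hmem : ∀ x : G, x ∈ Subgroup.normalizer ((Q.comap α.toMonoidHom : Subgroup G) : Set G) ↔
      α x ∈ Subgroup.normalizer (Q : Set H) := by
    intro x
    rw [← hN]
    rfl
  obtain ⟨π, hπ⟩ : ∃ π : Subgroup.normalizer ((Q.comap α.toMonoidHom : Subgroup G) : Set G) →*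
      Subgroup.normalizer (Q : Set H), ∀ x, ((π x : _) : H) = α x :=
    ⟨(α.toMonoidHom.comp (Subgroup.subtype _)).codRestrict _ fun x => (hmem x).1 x.2,
      fun x => rfl⟩
  have hπb : Function.Bijective π := by
    constructor
    · intro x y hxy
      have h1 := congrArg (fun t : Subgroup.normalizer (Q : Set H) => (t : H)) hxy
      simp only [hπ] at h1
      exact Subtype.ext (α.injective h1)
    · intro y
      obtain ⟨x, hx⟩ := α.surjective (y : H)
      exact ⟨⟨x, (hmem x).2 (by rw [hx]; exact y.2)⟩, Subtype.ext ((hπ _).trans hx)⟩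
  have hcl : IsClassFun (fun x : Subgroup.normalizer ((Q.comap α.toMonoidHom : Subgroup G) :
      Set G) => z (α x)) := by
    intro g x
    change z (α ((g * x * g⁻¹ : Subgroup.normalizer _) : G)) = z (α (x : G))
    have : ((g * x * g⁻¹ : Subgroup.normalizer ((Q.comap α.toMonoidHom : Subgroup G) : Set G)) :
      G) = g * x * (g : G)⁻¹ := rfl
    rw [this, map_mul, map_mul, map_inv]
    exact hz _ _
  have ht := pair_transfer p red π hπb
    ((Q.comap α.toMonoidHom).subgroupOf (Subgroup.normalizer _))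
    (Q.subgroupOf (Subgroup.normalizer (Q : Set H))) (by
      intro x
      rw [Subgroup.mem_subgroupOf, Subgroup.mem_subgroupOf, hπ]
      rfl) (fun x => χ x) (fun x => z (α x)) (fun x => z x) hcl (fun x => by rw [hπ])
  simp only [hπ] at ht
  exact ⟨h.pg.comap_of_injective α.toMonoidHom α.injective, fun x hx => h.supp _ fun h2 =>
    hx ((hmem x).2 h2), ht.1.2 h.wt, (ht.2 h.wt.irr).trans h.cv⟩

section prod

variable {ι : Type} [Fintype ι] {G : Type} [Group G] [Finite G]

theorem mulSingle_mem_sp {Q : ι → Subgroup G} {i : ι} {x : G} :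
    (Pi.mulSingle i x : ι → G) ∈ sp Q ↔ x ∈ Q i := by
  rw [mem_sp]
  constructor
  · intro h
    have := h i
    rwa [Pi.mulSingle_eq_same] at this
  · intro h k
    by_cases hk : k = i
    · subst hk; rw [Pi.mulSingle_eq_same]; exact h
    · rw [Pi.mulSingle_eq_of_ne hk]; exact (Q k).one_mem

theorem mem_norm_sp {Q : ι → Subgroup G} {x : ι → G} :
    x ∈ Subgroup.normalizer ((sp Q : Subgroup (ι → G)) : Set (ι → G)) ↔
      ∀ i, x i ∈ Subgroup.normalizer (Q i : Set G) := by
  constructor
  · intro h i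
    rw [Subgroup.mem_normalizer_iff] at h ⊢
    intro y
    rw [← mulSingle_mem_sp (Q := Q), h]
    have : x * Pi.mulSingle i y * x⁻¹ = Pi.mulSingle i (x i * y * (x i)⁻¹) := by
      funext k
      by_cases hk : k = i
      · subst hk
        simp
      · simp [Pi.mulSingle_eq_of_ne hk]
    rw [this, mulSingle_mem_sp]
  · intro h
    rw [Subgroup.mem_normalizer_iff]
    intro y
    rw [mem_sp, mem_sp]
    refine forall_congr' fun i => ?_
    exact Subgroup.mem_normalizer_iff.1 (h i) (y i)

theorem sp_inj {Q Q' : ι → Subgroup G} (h : sp Q = sp Q') : Q = Q' := by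
  funext i
  ext x
  rw [← mulSingle_mem_sp (Q := Q), ← mulSingle_mem_sp (Q := Q'), h]

/-- the normaliser of a product -/
def nrm (Q : ι → Subgroup G) : Subgroup.normalizer ((sp Q : Subgroup (ι → G)) : Set (ι → G)) →*
    (∀ i, Subgroup.normalizer (Q i : Set G)) where
  toFun x i := ⟨x.1 i, mem_norm_sp.1 x.2 i⟩
  map_one' := rfl
  map_mul' _ _ := rfl

theorem nrm_bij (Q : ι → Subgroup G) : Function.Bijective (nrm Q) := by
  constructor
  · intro x y h
    apply Subtype.ext
    funext i
    exact congrArg Subtype.val (congrFun h i)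
  · intro y
    exact ⟨⟨fun i => y i, mem_norm_sp.2 fun i => (y i).2⟩, rfl⟩

theorem card_norm_sp (Q : ι → Subgroup G) :
    Nat.card (Subgroup.normalizer ((sp Q : Subgroup (ι → G)) : Set (ι → G))) =
      ∏ i, Nat.card (Subgroup.normalizer (Q i : Set G)) := by
  rw [← Nat.card_pi]
  exact Nat.card_congr (Equiv.ofBijective _ (nrm_bij Q))

theorem cls_tens {e : G → F} (he : IsClassFun e) :
    IsClassFun (tens fun _ : ι => e) := by
  intro g x
  exact Finset.prod_congr rfl fun i _ => he (g i) (x i)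

/-- the two conditions for a product -/
theorem pair_core (p : ℕ) (red : integralClosure ℤ ℂ →+* F) {e : G → F} (he : IsClassFun e)
    (Q : ι → Subgroup G) (χ : ∀ i, Subgroup.normalizer (Q i : Set G) → ℂ) :
    (IsWt p ((sp Q).subgroupOf (Subgroup.normalizer ((sp Q : Subgroup (ι → G)) : Set (ι → G))))
        (fun x => tens χ (nrm Q x)) ↔
      IsWt p (sp fun i => (Q i).subgroupOf (Subgroup.normalizer (Q i : Set G))) (tens χ)) ∧
    (IsIrreducibleCharacter (tens χ) → centralValue red (fun x => tens χ (nrm Q x))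
      (fun x => (tens fun _ : ι => e) x) =
      centralValue red (tens χ) (tens fun i (x : Subgroup.normalizer (Q i : Set G)) => e x)) := by
  refine pair_transfer p red (nrm Q) (nrm_bij Q) _ _ (fun x => ?_) (tens χ) _ _ ?_ fun x => rfl
  · rw [Subgroup.mem_subgroupOf, mem_sp, mem_sp]
    exact Iff.rfl
  · intro g x
    exact Finset.prod_congr rfl fun i _ => he _ _

/-- the product of pairs -/
theorem pair_tens (p : ℕ) [Fact p.Prime] (red : integralClosure ℤ ℂ →+* F) {e : G → F} (he : IsClassFun e)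
    {Q : ι → Subgroup G} {χ : ι → G → ℂ} (h : ∀ i, IsPair p red e 1 (Q i) (χ i)) :
    IsPair p red (tens fun _ : ι => e) 1 (sp Q) (tens χ) := by
  have : ∀ i, Fintype (Subgroup.normalizer (Q i : Set G)) := fun i => Fintype.ofFinite _
  have hcore := pair_core p red he Q (fun i (x : Subgroup.normalizer (Q i : Set G)) => χ i x)
  have hirr : IsIrreducibleCharacter
      (tens fun i (x : Subgroup.normalizer (Q i : Set G)) => χ i x) :=
    s_tens ℂ ι _ _ fun i => (h i).wt.irr
  refine ⟨?_, ?_, ?_, ?_⟩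
  · intro x
    have h1 : ∀ i, ∃ k, (x : ι → G) i ^ p ^ k = 1 := by
      intro i
      obtain ⟨k, hk⟩ := (h i).pg ⟨x.1 i, mem_sp.1 x.2 i⟩
      exact ⟨k, congrArg Subtype.val hk⟩
    choose k hk using h1
    refine ⟨∑ i, k i, Subtype.ext (funext fun i => ?_)⟩
    change (x : ι → G) i ^ p ^ (∑ i, k i) = 1
    rw [← Finset.add_sum_erase _ _ (Finset.mem_univ i), pow_add, pow_mul, hk, one_pow]
  · intro x hx
    rw [mem_norm_sp] at hx
    push Not at hx
    obtain ⟨i, hi⟩ := hx
    exact Finset.prod_eq_zero (Finset.mem_univ i) ((h i).supp _ hi)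
  · refine hcore.1.2 ?_
    rw [wt_tens p _ (fun i => (h i).wt.irr) hirr]
    exact fun i => (h i).wt
  · refine (hcore.2 hirr).trans ?_
    rw [cv_tens red (fun i => (h i).wt.irr) hirr fun i => fun g x => he _ _]
    exact Finset.prod_eq_one fun i _ => (h i).cv

variable [IsAlgClosed F] {p : ℕ} [Fact p.Prime] [CharP F p]

/-- pairs for direct products are products -/
theorem pair_split (red : integralClosure ℤ ℂ →+* F) {e : G → F} (he : CI p red e)
    {R : Subgroup (ι → G)} {ψ : (ι → G) → ℂ} (h : IsPair p red (tens fun _ : ι => e) 1 R ψ) :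
    ∃ (Q : ι → Subgroup G) (χ : ι → G → ℂ), (∀ i, IsPair p red e 1 (Q i) (χ i)) ∧ R = sp Q ∧
      ψ = tens χ := by
  obtain ⟨Q, hQ⟩ : ∃ Q : ι → Subgroup G, Q = fun i => R.map (Pi.evalMonoidHom _ i) := ⟨_, rfl⟩
  have hRQ : R ≤ sp Q := by
    intro r hr
    rw [mem_sp]
    intro i
    rw [hQ]
    exact ⟨r, hr, rfl⟩
  have hQp : ∀ i, IsPGroup p (Q i) := by
    intro i
    rw [hQ]
    exact h.pg.map _
  have hspp : IsPGroup p (sp Q) := by
    intro x
    have h1 : ∀ i, ∃ k, (x : ι → G) i ^ p ^ k = 1 := by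
      intro i
      obtain ⟨k, hk⟩ := hQp i ⟨x.1 i, mem_sp.1 x.2 i⟩
      exact ⟨k, congrArg Subtype.val hk⟩
    choose k hk using h1
    refine ⟨∑ i, k i, Subtype.ext (funext fun i => ?_)⟩
    change (x : ι → G) i ^ p ^ (∑ i, k i) = 1
    rw [← Finset.add_sum_erase _ _ (Finset.mem_univ i), pow_add, pow_mul, hk, one_pow]
  have hR : R = sp Q := by
    by_contra hne
    have hnil : Group.IsNilpotent ↥(sp Q) := hspp.isNilpotent
    have hlt : R.subgroupOf (sp Q) < ⊤ := by
      rw [lt_top_iff_ne_top, Ne, Subgroup.subgroupOf_eq_top]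
      intro h2
      exact hne (le_antisymm hRQ h2)
    obtain ⟨x, hx1, hx2⟩ := SetLike.exists_of_lt
      (Group.normalizerCondition_of_isNilpotent (R.subgroupOf (sp Q)) hlt)
    rw [Subgroup.mem_normalizer_iff] at hx1
    have hxN : (x : ι → G) ∈ Subgroup.normalizer (R : Set (ι → G)) := by
      rw [Subgroup.mem_normalizer_iff]
      intro y
      constructor
      · intro hy
        exact (hx1 ⟨y, hRQ hy⟩).1 hy
      · intro hy
        have h3 : y ∈ sp Q := by
          have h4 : y = (x : ι → G)⁻¹ * ((x : ι → G) * y * (x : ι → G)⁻¹) * (x : ι → G) := by group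
          rw [h4]
          exact (sp Q).mul_mem ((sp Q).mul_mem ((sp Q).inv_mem x.2) (hRQ hy)) x.2
        exact (hx1 ⟨y, h3⟩).2 hy
    refine wtn p _ (R.subgroupOf (Subgroup.normalizer (R : Set (ι → G))))
      ((sp Q).subgroupOf (Subgroup.normalizer (R : Set (ι → G)))) _ inferInstance ⟨?_⟩ ?_ ?_ h.wt
    · intro n hn g
      rw [Subgroup.mem_subgroupOf, mem_sp] at hn ⊢
      intro i
      have h5 := hn i
      rw [hQ] at h5 ⊢
      obtain ⟨r, hr, hri⟩ := h5
      refine ⟨(g : ι → G) * r * (g : ι → G)⁻¹, (Subgroup.mem_normalizer_iff.1 g.2 r).1 hr, ?_⟩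
      change (g : ι → G) i * r i * ((g : ι → G) i)⁻¹ = (g : ι → G) i * (n : ι → G) i *
        ((g : ι → G) i)⁻¹
      have h6 : r i = (n : ι → G) i := hri
      rw [h6]
    · exact hspp.comap_of_injective (Subgroup.normalizer (R : Set (ι → G))).subtype
        Subtype.val_injective
    · rw [SetLike.lt_iff_le_and_exists]
      exact ⟨fun y hy => hRQ hy, ⟨x, hxN⟩, x.2, hx2⟩
  subst hR
  -- the character
  have : ∀ i, Fintype (Subgroup.normalizer (Q i : Set G)) := fun i => Fintype.ofFinite _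
  obtain ⟨ψ', hψ'⟩ : ∃ ψ' : (∀ i, Subgroup.normalizer (Q i : Set G)) → ℂ,
      ψ' = fun y => ψ (fun i => y i) := ⟨_, rfl⟩
  have hψ2 : ∀ x : Subgroup.normalizer ((sp Q : Subgroup (ι → G)) : Set (ι → G)),
      ψ x = ψ' (nrm Q x) := by
    intro x
    rw [hψ']
    rfl
  have hirr : IsIrreducibleCharacter ψ' := by
    have h1 := h.wt.irr
    have h2 : (fun x : Subgroup.normalizer ((sp Q : Subgroup (ι → G)) : Set (ι → G)) => ψ x) =
        fun x => ψ' (nrm Q x) := funext hψ2
    rw [h2] at h1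
    obtain ⟨χ', h3, h4⟩ := Pool.Agent.Y210.NV3.irr_desc (nrm Q) (nrm_bij Q).2 h1 (by
      intro q hq x
      have : q = 1 := (nrm_bij Q).1 (by rw [MonoidHom.mem_ker.1 hq, map_one])
      rw [this, one_mul])
    have h5 : ψ' = χ' := by
      funext y
      obtain ⟨x, rfl⟩ := (nrm_bij Q).2 y
      exact congrFun h4 x
    rw [h5]
    exact h3
  obtain ⟨θ, hθ, hθ2⟩ := s_tensc ι _ ψ' hirr
  have hirr2 : IsIrreducibleCharacter (tens θ) := by rw [← hθ2]; exact hirr
  obtain ⟨χ, hχ⟩ : ∃ χ : ι → G → ℂ, χ = fun i x =>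
      if hx : x ∈ Subgroup.normalizer (Q i : Set G) then θ i ⟨x, hx⟩ else 0 := ⟨_, rfl⟩
  have hχ1 : ∀ i (x : Subgroup.normalizer (Q i : Set G)), χ i x = θ i x := by
    intro i x
    rw [hχ]
    exact dif_pos x.2
  have hχ0 : ∀ i x, x ∉ Subgroup.normalizer (Q i : Set G) → χ i x = 0 := by
    intro i x hx
    rw [hχ]
    exact dif_neg hx
  have hψχ : ψ = tens χ := by
    funext x
    by_cases hx : x ∈ Subgroup.normalizer ((sp Q : Subgroup (ι → G)) : Set (ι → G))
    · have h1 := hψ2 ⟨x, hx⟩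
      rw [hθ2] at h1
      change ψ x = _
      refine h1.trans ?_
      unfold tens
      refine Finset.prod_congr rfl fun i _ => ?_
      exact (hχ1 i (nrm Q ⟨x, hx⟩ i)).symm
    · rw [h.supp x hx]
      rw [mem_norm_sp] at hx
      push Not at hx
      obtain ⟨i, hi⟩ := hx
      exact (Finset.prod_eq_zero (Finset.mem_univ i) (hχ0 i _ hi)).symm
  have hcore := pair_core p red he.cls Q θ
  have heq : (fun x : Subgroup.normalizer ((sp Q : Subgroup (ι → G)) : Set (ι → G)) => ψ x) =
      fun x => tens θ (nrm Q x) := by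
    funext x
    rw [hψ2, hθ2]
  have hwt := h.wt
  rw [heq, hcore.1, wt_tens p _ hθ hirr2] at hwt
  have hcv := h.cv
  rw [heq, hcore.2 hirr2, cv_tens red hθ hirr2 fun i => fun g x => he.cls _ _] at hcv
  have h01 : ∀ i, centralValue red (θ i) (fun x => e x) = 0 ∨
      centralValue red (θ i) (fun x => e x) = 1 := fun i => he.wt _ _ (hQp i) (hwt i)
  have h1 : ∀ i, centralValue red (θ i) (fun x => e x) = 1 := by
    intro i
    rcases h01 i with h2 | h2
    · exfalso
      rw [Finset.prod_eq_zero (Finset.mem_univ i) h2] at hcv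
      exact zero_ne_one hcv
    · exact h2
  refine ⟨Q, χ, fun i => ⟨hQp i, hχ0 i, ?_, ?_⟩, rfl, hψχ⟩
  · have : (fun x : Subgroup.normalizer (Q i : Set G) => χ i x) = θ i := funext (hχ1 i)
    rw [this]
    exact hwt i
  · have : (fun x : Subgroup.normalizer (Q i : Set G) => χ i x) = θ i := funext (hχ1 i)
    rw [this]
    exact h1 i

/-- uniqueness -/
theorem pair_inj (red : integralClosure ℤ ℂ →+* F) {e : G → F} {Q Q' : ι → Subgroup G}
    {χ χ' : ι → G → ℂ} (h : ∀ i, IsPair p red e 1 (Q i) (χ i))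
    (h' : ∀ i, IsPair p red e 1 (Q' i) (χ' i)) (h1 : sp Q = sp Q') (h2 : tens χ = tens χ') :
    Q = Q' ∧ χ = χ' := by
  have hQ := sp_inj h1
  subst hQ
  refine ⟨rfl, ?_⟩
  have hne : ∀ (χ : ι → G → ℂ), (∀ i, IsPair p red e 1 (Q i) (χ i)) → ∀ i, χ i 1 ≠ 0 := by
    intro χ h i
    have : Fintype (Subgroup.normalizer (Q i : Set G)) := Fintype.ofFinite _
    have h0 : Pool.Agent.Helper884.IC.IsIrrChar
        (fun x : Subgroup.normalizer (Q i : Set G) => χ i x) := (h i).wt.irr
    have h1 := one_ne h0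
    exact h1
  have hval : ∀ (χ : ι → G → ℂ) (i : ι) (x : G), tens χ (Pi.mulSingle i x) =
      χ i x * ∏ k ∈ Finset.univ.erase i, χ k 1 := by
    intro χ i x
    unfold tens
    rw [← Finset.mul_prod_erase _ _ (Finset.mem_univ i), Pi.mulSingle_eq_same]
    congr 1
    refine Finset.prod_congr rfl fun k hk => ?_
    rw [Pi.mulSingle_eq_of_ne (Finset.ne_of_mem_erase hk)]
  funext i
  have ha : ∏ k ∈ Finset.univ.erase i, χ k 1 ≠ 0 :=
    Finset.prod_ne_zero_iff.2 fun k _ => hne χ h k
  have h3 : ∀ x, χ i x = (∏ k ∈ Finset.univ.erase i, χ' k 1) *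
      (∏ k ∈ Finset.univ.erase i, χ k 1)⁻¹ * χ' i x := by
    intro x
    have h4 : tens χ (Pi.mulSingle i x) = tens χ' (Pi.mulSingle i x) := by rw [h2]
    rw [hval, hval] at h4
    field_simp
    rw [h4]
    ring
  have h5 : (fun x : Subgroup.normalizer (Q i : Set G) => χ i x) ∈
      ({(fun x : Subgroup.normalizer (Q i : Set G) => χ' i x)} : Set _) := by
    refine mem_of_span (F := ℂ) (h i).wt.irr _ ?_ ?_
    · intro ψ hψ
      rw [Set.mem_singleton_iff] at hψ
      rw [hψ]
      exact (h' i).wt.irr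
    · rw [Submodule.mem_span_singleton]
      refine ⟨(∏ k ∈ Finset.univ.erase i, χ' k 1) * (∏ k ∈ Finset.univ.erase i, χ k 1)⁻¹, ?_⟩
      funext x
      exact (h3 x).symm
  rw [Set.mem_singleton_iff] at h5
  funext x
  by_cases hx : x ∈ Subgroup.normalizer (Q i : Set G)
  · exact congrFun h5 ⟨x, hx⟩
  · rw [(h i).supp x hx, (h' i).supp x hx]

end prod

end Pool.Agent.E8helper60.AW
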