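import Pool.Agent.E8helper60.AW.Pair

/-!
# Sums over weights
-/

set_option autoImplicit false
set_option linter.unusedSectionVars false

open scoped Classical

noncomputable section

namespace Pool.Agent.E8helper60.AW

open Pool.Agent.Y63.NV Pool.Agent.Y487.NV
open Pool.Agent.Y63.AWC (IsIrreducibleCharacter deg_nat one_ne deg_dvd)

/-! ### Orbits -/

section orbits

variable {G X : Type} [Group G] [Finite G] [Fintype X] [MulAction G X]

/-- the sum over one orbit -/
theorem orb_sum (c : Quotient (MulAction.orbitRel G X)) :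
    ∑ x : X, (if (Quotient.mk (MulAction.orbitRel G X) x) = c then
      Nat.card (MulAction.stabilizer G x) else 0) = Nat.card G := by
  have : Fintype G := Fintype.ofFinite _
  obtain ⟨x₀, rfl⟩ := Quotient.exists_rep c
  have h1 : ∀ x : X, (Quotient.mk (MulAction.orbitRel G X) x) =
      (Quotient.mk (MulAction.orbitRel G X) x₀) ↔ x ∈ MulAction.orbit G x₀ := by
    intro x
    rw [Quotient.eq]
    exact MulAction.orbitRel_apply
  rw [← Finset.sum_filter, Finset.sum_congr rfl (g := fun _ =>
    Nat.card (MulAction.stabilizer G x₀))]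
  · rw [Finset.sum_const, smul_eq_mul]
    have h2 := MulAction.card_orbit_mul_card_stabilizer_eq_card_group G x₀
    rw [← Nat.card_eq_fintype_card, ← Nat.card_eq_fintype_card, ← Nat.card_eq_fintype_card] at h2
    rw [← h2]
    congr 1
    rw [Nat.card_eq_fintype_card, ← Set.toFinset_card]
    congr 1
    ext x
    rw [Finset.mem_filter, Set.mem_toFinset, h1]
    simp
  · intro x hx
    rw [Finset.mem_filter, h1] at hx
    exact Nat.card_congr (MulAction.stabilizerEquivStabilizerOfOrbitRel
      (MulAction.orbitRel_apply.2 hx.2)).toEquiv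

/-- the total sum -/
theorem orb_total : ∑ x : X, Nat.card (MulAction.stabilizer G x) =
    Nat.card (Quotient (MulAction.orbitRel G X)) * Nat.card G := by
  have : Fintype (Quotient (MulAction.orbitRel G X)) := Fintype.ofFinite _
  have h1 : ∀ x : X, Nat.card (MulAction.stabilizer G x) =
      ∑ c : Quotient (MulAction.orbitRel G X), if (Quotient.mk (MulAction.orbitRel G X) x) = c then
        Nat.card (MulAction.stabilizer G x) else 0 := by
    intro x
    rw [Finset.sum_ite_eq, if_pos (Finset.mem_univ _)]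
  rw [Finset.sum_congr rfl fun x _ => h1 x, Finset.sum_comm,
    Finset.sum_congr rfl fun c _ => orb_sum c, Finset.sum_const, smul_eq_mul, Finset.card_univ,
    Nat.card_eq_fintype_card (α := Quotient (MulAction.orbitRel G X))]

/-- tuples in one orbit -/
theorem orb_tuples {C : Type} [Fintype C] [Nonempty C] :
    ∑ x : C → X, (if ∀ i j, (Quotient.mk (MulAction.orbitRel G X) (x i)) =
      (Quotient.mk (MulAction.orbitRel G X) (x j)) then
        ∏ i, Nat.card (MulAction.stabilizer G (x i)) else 0) =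
    Nat.card (Quotient (MulAction.orbitRel G X)) * Nat.card G ^ Fintype.card C := by
  have : Fintype (Quotient (MulAction.orbitRel G X)) := Fintype.ofFinite _
  have h1 : ∀ x : C → X, (if ∀ i j, (Quotient.mk (MulAction.orbitRel G X) (x i)) =
      (Quotient.mk (MulAction.orbitRel G X) (x j)) then
        ∏ i, Nat.card (MulAction.stabilizer G (x i)) else 0) =
      ∑ c : Quotient (MulAction.orbitRel G X), ∏ i,
        if (Quotient.mk (MulAction.orbitRel G X) (x i)) = c then
        Nat.card (MulAction.stabilizer G (x i)) else 0 := by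
    intro x
    obtain ⟨i₀⟩ := (inferInstance : Nonempty C)
    rw [Finset.sum_eq_single (Quotient.mk (MulAction.orbitRel G X) (x i₀))]
    · split_ifs with h
      · exact Finset.prod_congr rfl fun i _ => by rw [if_pos (h i i₀)]
      · push Not at h
        obtain ⟨i, k, hik⟩ := h
        symm
        rw [Finset.prod_eq_zero_iff]
        by_cases h3 : (Quotient.mk (MulAction.orbitRel G X) (x i)) =
          (Quotient.mk (MulAction.orbitRel G X) (x i₀))
        · refine ⟨k, Finset.mem_univ _, if_neg fun h4 => hik ?_⟩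
          rw [h3, h4]
        · exact ⟨i, Finset.mem_univ _, if_neg h3⟩
    · intro c _ hc
      exact Finset.prod_eq_zero (Finset.mem_univ i₀) (if_neg fun h => hc h.symm)
    · intro h
      exact absurd (Finset.mem_univ _) h
  rw [Finset.sum_congr rfl fun x _ => h1 x, Finset.sum_comm]
  have h2 : ∀ c : Quotient (MulAction.orbitRel G X), ∑ x : C → X, ∏ i,
      (if (Quotient.mk (MulAction.orbitRel G X) (x i)) = c then
        Nat.card (MulAction.stabilizer G (x i)) else 0) = Nat.card G ^ Fintype.card C := by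
    intro c
    have h3 := Finset.prod_univ_sum (fun _ : C => (Finset.univ : Finset X))
      (fun _ x => if (Quotient.mk (MulAction.orbitRel G X) x) = c then
        Nat.card (MulAction.stabilizer G x) else 0)
    rw [Fintype.piFinset_univ] at h3
    rw [← h3, Finset.prod_congr rfl fun i _ => orb_sum c, Finset.prod_const, Finset.card_univ]
  rw [Finset.sum_congr rfl fun c _ => h2 c, Finset.sum_const, smul_eq_mul, Finset.card_univ,
    Nat.card_eq_fintype_card (α := Quotient (MulAction.orbitRel G X))]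

end orbits

/-! ### The weights -/

variable {F : Type} [Field F] {G : Type} [Group G] [Finite G]

/-- the weights -/
def PP (p : ℕ) (red : integralClosure ℤ ℂ →+* F) {G : Type} [Group G] (z : G → F) (c : F) : Type :=
  {ω : Subgroup G × (G → ℂ) // IsPair p red z c ω.1 ω.2}

/-- pairs with a fixed subgroup -/
def fixEquiv (p : ℕ) (red : integralClosure ℤ ℂ →+* F) (z : G → F) (c : F) (Q : Subgroup G)
    (hQ : IsPGroup p Q) (R : (Subgroup.normalizer (Q : Set G) → ℂ) → Prop) :
    {χ : G → ℂ // IsPair p red z c Q χ ∧ R (fun x => χ x)} ≃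
    {χ : Subgroup.normalizer (Q : Set G) → ℂ //
      (IsWt p (Q.subgroupOf (Subgroup.normalizer (Q : Set G))) χ ∧
        centralValue red χ (fun x => z x) = c) ∧ R χ} where
  toFun χ := ⟨fun x => χ.1 x, ⟨χ.2.1.wt, χ.2.1.cv⟩, χ.2.2⟩
  invFun χ := ⟨fun x => if hx : x ∈ Subgroup.normalizer (Q : Set G) then χ.1 ⟨x, hx⟩ else 0, by
    have h : (fun x : Subgroup.normalizer (Q : Set G) =>
        if hx : (x : G) ∈ Subgroup.normalizer (Q : Set G) then χ.1 ⟨x, hx⟩ else 0) = χ.1 := by
      funext x
      rw [dif_pos x.2]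
    refine ⟨⟨hQ, fun x hx => dif_neg hx, ?_, ?_⟩, ?_⟩
    · rw [h]; exact χ.2.1.1
    · rw [h]; exact χ.2.1.2
    · rw [h]; exact χ.2.2⟩
  left_inv χ := by
    apply Subtype.ext
    funext x
    by_cases hx : x ∈ Subgroup.normalizer (Q : Set G)
    · exact dif_pos hx
    · rw [χ.2.1.supp x hx]
      exact dif_neg hx
  right_inv χ := by
    apply Subtype.ext
    funext x
    exact dif_pos x.2

theorem fin_char (H : Type) [Group H] [Finite H] : {χ : H → ℂ | IsIrreducibleCharacter χ}.Finite :=
  (Pool.Agent.Y914.NV.irr ℂ H).1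

instance fin_fix (p : ℕ) (red : integralClosure ℤ ℂ →+* F) (z : G → F) (c : F) (Q : Subgroup G) :
    Finite {χ : G → ℂ // IsPair p red z c Q χ} := by
  have h1 := (fin_char (Subgroup.normalizer (Q : Set G))).to_subtype
  refine Finite.of_injective (β := {χ : Subgroup.normalizer (Q : Set G) → ℂ |
    IsIrreducibleCharacter χ}) (fun χ => ⟨fun x => χ.1 x, χ.2.wt.irr⟩) ?_
  intro χ χ' h
  apply Subtype.ext
  funext x
  by_cases hx : x ∈ Subgroup.normalizer (Q : Set G)
  · exact congrFun (congrArg Subtype.val h) ⟨x, hx⟩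
  · rw [χ.2.supp x hx, χ'.2.supp x hx]

/-- the weights and the fibres -/
def sigEquiv (p : ℕ) (red : integralClosure ℤ ℂ →+* F) (z : G → F) (c : F) :
    (Σ Q : Subgroup G, {χ : G → ℂ // IsPair p red z c Q χ}) ≃ PP p red z c where
  toFun x := ⟨(x.1, x.2.1), x.2.2⟩
  invFun x := ⟨x.1.1, x.1.2, x.2⟩
  left_inv _ := rfl
  right_inv _ := rfl

instance fin_PP (p : ℕ) (red : integralClosure ℤ ℂ →+* F) (z : G → F) (c : F) :
    Finite (PP p red z c) :=
  Finite.of_equiv _ (sigEquiv p red z c)

/-- sums over subgroups are sums over the weights -/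
theorem psum_gen (p : ℕ) (red : integralClosure ℤ ℂ →+* F) (z : G → F) (c : F)
    (R : ∀ Q : Subgroup G, (Subgroup.normalizer (Q : Set G) → ℂ) → Prop) [Fintype (PP p red z c)] :
    (∑ᶠ Q : Subgroup G, if IsPGroup p Q then Nat.card (Subgroup.normalizer (Q : Set G)) *
      Nat.card {χ : Subgroup.normalizer (Q : Set G) → ℂ //
        (IsWt p (Q.subgroupOf (Subgroup.normalizer (Q : Set G))) χ ∧
        centralValue red χ (fun x => z x) = c) ∧ R Q χ} else 0) =
    ∑ ω : PP p red z c, if R ω.1.1 (fun x => ω.1.2 x) then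
      Nat.card (Subgroup.normalizer (ω.1.1 : Set G)) else 0 := by
  have : Fintype (Subgroup G) := Fintype.ofFinite _
  have : ∀ Q : Subgroup G, Fintype {χ : G → ℂ // IsPair p red z c Q χ} :=
    fun Q => Fintype.ofFinite _
  rw [finsum_eq_sum_of_fintype]
  rw [← Equiv.sum_comp (sigEquiv p red z c), Fintype.sum_sigma]
  refine Finset.sum_congr rfl fun Q _ => ?_
  change _ = ∑ χ : {χ : G → ℂ // IsPair p red z c Q χ}, if R Q (fun x => χ.1 x) then
    Nat.card (Subgroup.normalizer (Q : Set G)) else 0
  by_cases hQ : IsPGroup p Q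
  · rw [if_pos hQ, ← Nat.card_congr (fixEquiv p red z c Q hQ (R Q)), ← Finset.sum_filter]
    rw [Finset.sum_const, smul_eq_mul, mul_comm]
    congr 1
    rw [← Fintype.card_subtype, ← Nat.card_eq_fintype_card]
    refine Nat.card_congr ⟨fun x => ⟨⟨x.1, x.2.1⟩, x.2.2⟩, fun x => ⟨x.1.1, x.1.2, x.2⟩,
      fun _ => rfl, fun _ => rfl⟩
  · rw [if_neg hQ]
    symm
    refine Finset.sum_eq_zero fun χ _ => ?_
    exact absurd χ.2.pg hQ

theorem wtot_eq (p : ℕ) (red : integralClosure ℤ ℂ →+* F) (z : G → F) (c : F)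
    [Fintype (PP p red z c)] :
    wtot p red z c = ∑ ω : PP p red z c, Nat.card (Subgroup.normalizer (ω.1.1 : Set G)) := by
  have h := psum_gen p red z c (fun _ _ => True)
  simp only [if_true, and_true] at h
  rw [← h]
  rfl

/-! ### The action -/

section action

variable {p : ℕ} {red : integralClosure ℤ ℂ →+* F} {z : G → F} {c : F}

theorem pair_conj (hz : IsClassFun z) {Q : Subgroup G} {χ : G → ℂ}
    (h : IsPair p red z c Q χ) (g : G) :
    IsPair p red z c (Q.comap (MulAut.conj g⁻¹).toMonoidHom) (fun x => χ (g⁻¹ * x * g)) := by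
  have h1 := pair_iso p red (MulAut.conj g⁻¹) hz h
  simp only [MulAut.conj_apply, inv_inv] at h1
  have h2 : (fun x => z (g⁻¹ * x * g)) = z := by
    funext x
    have := hz g⁻¹ x
    rwa [inv_inv] at this
  rw [h2] at h1
  exact h1

instance actP [hz : Fact (IsClassFun z)] : MulAction G (PP p red z c) where
  smul g ω := ⟨(ω.1.1.comap (MulAut.conj g⁻¹).toMonoidHom, fun x => ω.1.2 (g⁻¹ * x * g)),
    pair_conj hz.out ω.2 g⟩
  one_smul ω := by
    apply Subtype.ext
    apply Prod.ext
    · ext x
      change (MulAut.conj (1 : G)⁻¹) x ∈ ω.1.1 ↔ _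
      simp
    · funext x
      change ω.1.2 ((1 : G)⁻¹ * x * 1) = _
      simp
  mul_smul g h ω := by
    apply Subtype.ext
    apply Prod.ext
    · ext x
      change (MulAut.conj (g * h)⁻¹) x ∈ ω.1.1 ↔
        (MulAut.conj h⁻¹) ((MulAut.conj g⁻¹) x) ∈ ω.1.1
      simp only [MulAut.conj_apply, mul_inv_rev, inv_inv, mul_assoc]
    · funext x
      change ω.1.2 ((g * h)⁻¹ * x * (g * h)) = ω.1.2 (h⁻¹ * (g⁻¹ * x * g) * h)
      simp only [mul_inv_rev, mul_assoc]

theorem smul_fst [Fact (IsClassFun z)] (g : G) (ω : PP p red z c) (x : G) :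
    x ∈ (g • ω).1.1 ↔ g⁻¹ * x * g ∈ ω.1.1 := by
  change (MulAut.conj g⁻¹) x ∈ ω.1.1 ↔ _
  simp only [MulAut.conj_apply, inv_inv]

theorem smul_snd [Fact (IsClassFun z)] (g : G) (ω : PP p red z c) (x : G) :
    (g • ω).1.2 x = ω.1.2 (g⁻¹ * x * g) := rfl

theorem stab_eq [Fact (IsClassFun z)] (ω : PP p red z c) :
    MulAction.stabilizer G ω = Subgroup.normalizer (ω.1.1 : Set G) := by
  ext g
  rw [MulAction.mem_stabilizer_iff]
  constructor
  · intro h
    have h1 : g⁻¹ ∈ Subgroup.normalizer (ω.1.1 : Set G) := by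
      rw [Subgroup.mem_normalizer_iff]
      intro x
      rw [inv_inv]
      have h2 := smul_fst g ω x
      rw [h] at h2
      exact h2
    exact inv_inv g ▸ Subgroup.inv_mem _ h1
  · intro h
    have h1 : ∀ x, g⁻¹ * x * g ∈ ω.1.1 ↔ x ∈ ω.1.1 := by
      intro x
      have h2 := Subgroup.mem_normalizer_iff.1 (Subgroup.inv_mem _ h) x
      rw [inv_inv] at h2
      exact h2.symm
    apply Subtype.ext
    apply Prod.ext
    · ext x
      rw [smul_fst, h1]
    · funext x
      rw [smul_snd]
      by_cases hx : x ∈ Subgroup.normalizer (ω.1.1 : Set G)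
      · have : Fintype (Subgroup.normalizer (ω.1.1 : Set G)) := Fintype.ofFinite _
        have h0 : Pool.Agent.Helper884.IC.IsIrrChar
          (fun x : Subgroup.normalizer (ω.1.1 : Set G) => ω.1.2 x) := ω.2.wt.irr
        have h2 := h0.isClass ⟨x, hx⟩ (⟨g, h⟩⁻¹)
        have h3 : ((⟨g, h⟩⁻¹ * ⟨x, hx⟩ * (⟨g, h⟩⁻¹)⁻¹ :
          Subgroup.normalizer (ω.1.1 : Set G)) : G) = g⁻¹ * x * g := by
          rw [inv_inv]
          rfl
        rw [← h3]
        exact h2
      · rw [ω.2.supp x hx, ω.2.supp]
        intro h4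
        apply hx
        have h5 := (Subgroup.normalizer (ω.1.1 : Set G)).mul_mem
          ((Subgroup.normalizer (ω.1.1 : Set G)).mul_mem h h4) (Subgroup.inv_mem _ h)
        have h6 : g * (g⁻¹ * x * g) * g⁻¹ = x := by group
        rwa [h6] at h5

/-- the number of classes of weights -/
def nwt (p : ℕ) (red : integralClosure ℤ ℂ →+* F) (z : G → F) (c : F) [Fact (IsClassFun z)] : ℕ :=
  Nat.card (Quotient (MulAction.orbitRel G (PP p red z c)))

theorem wtot_nwt [Fact (IsClassFun z)] :
    wtot p red z c = nwt p red z c * Nat.card G := by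
  have : Fintype (PP p red z c) := Fintype.ofFinite _
  rw [wtot_eq, nwt, ← orb_total]
  exact Finset.sum_congr rfl fun ω _ => by rw [stab_eq]

end action

end Pool.Agent.E8helper60.AW
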