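import Pool.Agent.E8helper60.AW.Appr
import Pool.Agent.Y63.NV.Bawc

/-!
# The final parts: formulas, families, reduced groups, principal blocks
-/

set_option autoImplicit false
set_option linter.unusedSectionVars false

open scoped Classical

noncomputable section

namespace Pool.Agent.E8helper60.AW

open Pool.Agent.Y63.NV Pool.Agent.Y405.NV Pool.Agent.Y63.NV.B48B
open Pool.Agent.Y63.AWC (IsIrreducibleCharacter pSubgroupSetoid numDefectZero numWeights
  numRegularClasses)

/-! ### Reduced groups -/

theorem reduced_wr (p q : ℕ) [hp : Fact p.Prime] (hq : q.Prime) (hqp : q ≠ p) (C : Type) [Group C]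
    [Finite C] (hC : Nat.card C = q) (G : Type) [Group G] [Finite G] (hG : Reduced p G) :
    Reduced p (RegularWreathProduct G C) := by
  have : Fintype C := Fintype.ofFinite _
  have hidx : (bse G C).range.index = q := bse_card.trans hC
  constructor
  · intro N hN hi
    -- the coordinates are contained in `N`
    have h1 : ∀ (i : C) (g : G), bse G C (Pi.mulSingle i g) ∈ N := by
      intro i
      obtain ⟨f, hf⟩ : ∃ f : G →* RegularWreathProduct G C, ∀ g, f g = bse G C (Pi.mulSingle i g) :=
        ⟨(bse G C).comp (MonoidHom.mulSingle (fun _ : C => G) i), fun g => rfl⟩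
      have h2 : (N.comap f).index ∣ p := by
        rw [Subgroup.index_comap, ← hi]
        exact Subgroup.relIndex_dvd_index_of_normal N f.range
      have h3 : N.comap f = ⊤ := by
        rcases (Nat.dvd_prime hp.out).1 h2 with h | h
        · exact Subgroup.index_eq_one.1 h
        · exact absurd h (hG.perfect _ (hN.comap f))
      intro g
      have h4 : g ∈ N.comap f := by rw [h3]; trivial
      rw [← hf]
      exact h4
    have h2 : (bse G C).range ≤ N := by
      rintro _ ⟨x, rfl⟩
      have h3 : x ∈ N.comap (bse G C) :=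
        Subgroup.pi_mem_of_mulSingle_mem x fun i => h1 i (x i)
      exact h3
    have h3 := Subgroup.index_dvd_of_le h2
    rw [hi, hidx] at h3
    rcases (Nat.dvd_prime hq).1 h3 with h | h
    · exact hp.out.one_lt.ne' h
    · exact hqp h.symm
  · intro M hM hMp
    -- the intersection with the base group is trivial
    have h1 : ∀ x : C → G, bse G C x ∈ M → x = 1 := by
      intro x hx
      funext i
      have h2 : ((M.comap (bse G C)).map (Pi.evalMonoidHom (fun _ : C => G) i)) = ⊥ := by
        refine hG.radical _ ?_ ?_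
        · exact (hM.comap _).map _ (fun g => ⟨fun _ => g, rfl⟩)
        · exact (hMp.comap_of_injective _ bse_inj).map _
      have h3 : x i ∈ ((M.comap (bse G C)).map (Pi.evalMonoidHom (fun _ : C => G) i)) :=
        ⟨x, hx, rfl⟩
      rw [h2, Subgroup.mem_bot] at h3
      exact h3
    rw [Subgroup.eq_bot_iff_forall]
    intro m hm
    obtain ⟨k, hk⟩ := hMp ⟨m, hm⟩
    have hk' : m ^ p ^ k = 1 := congrArg Subtype.val hk
    -- the image in `C` is trivial
    have h2 : m.right = 1 := by
      have h3 : orderOf m.right ∣ p ^ k := by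
        apply orderOf_dvd_of_pow_eq_one
        rw [← pow_right, hk']
        rfl
      have h4 : orderOf m.right ∣ q := hC ▸ orderOf_dvd_natCard _
      have h5 : Nat.Coprime (p ^ k) q :=
        Nat.Coprime.pow_left k ((Nat.coprime_primes hp.out hq).2 (Ne.symm hqp))
      exact orderOf_eq_one_iff.1 (Nat.eq_one_of_dvd_coprimes h5 h3 h4)
    obtain ⟨x, rfl⟩ := (mem_bse m).2 h2
    rw [h1 x hm, map_one]

variable {F : Type} [Field F] [IsAlgClosed F] {p : ℕ} [Fact p.Prime] [CharP F p]
  (red : integralClosure ℤ ℂ →+* F)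

/-! ### The formulas -/

/-- **The exact formulas.** -/
theorem formula (q : ℕ) (hq : q.Prime) {C : Type} [Group C] [Fintype C] (hC : Nat.card C = q)
    {G : Type} [Group G] [Finite G] {B : (G → F) → F} (hB : IsBlock B) :
    ∃ S : Finset ((RegularWreathProduct G C → F) → F), (∀ B' ∈ S, IsBlock B' ∧ Over B B') ∧
      (∀ B'' : (RegularWreathProduct G C → F) → F, IsBlock B'' → Over B B'' →
        ∃! B', B' ∈ S ∧ ∀ f : RegularWreathProduct G C → F, IsClassFun f → B'' f = B' f) ∧
      q * ∑ B' ∈ S, numIrrBlock B' = numIrrBlock B ^ q + co p q * numIrrBlock B ∧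
      q * ∑ B' ∈ S, numWt p red B' = numWt p red B ^ q + co p q * numWt p red B := by
  obtain ⟨e, he, hi, h1, h2⟩ := isolate' red hB
  have : Fact (IsClassFun e) := ⟨he.cls⟩
  have : Fact (IsClassFun (wE G C e)) := ⟨(wE_inz he.cls).conj⟩
  have h3 := nl_wreath (C := C) he q hq hC
  have h4 := nwt_wreath (C := C) he q hq hC
  obtain ⟨S, lβ, wβ, k1, k2, k3, k4, k5, k6, k7⟩ :=
    decomp (p := p) red (G := RegularWreathProduct G C)
  obtain ⟨E, hE⟩ : ∃ E : CF (RegularWreathProduct G C) F, E.1 = wE G C e :=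
    ⟨⟨wE G C e, (wE_inz he.cls).conj⟩, rfl⟩
  have hrep : ∀ β : CF (RegularWreathProduct G C) F → F, ∃ B' : (RegularWreathProduct G C → F) → F,
      β ∈ S → IsBlock B' ∧ rs B' = β := by
    intro β
    by_cases h : β ∈ S
    · obtain ⟨B', h5, h6⟩ := k1 β h
      exact ⟨B', fun _ => ⟨h5, h6⟩⟩
    · exact ⟨0, fun h' => absurd h' h⟩
  choose r hr using hrep
  have hval : ∀ β ∈ S, r β (wE G C e) = β E := by
    intro β hβ
    have h5 := congrFun (hr β hβ).2 E
    rw [← h5, ← hE]
    rfl
  have hinj : Set.InjOn r (S.filter fun β => β E = 1) := by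
    intro β hβ β' hβ' h
    have h5 := (Finset.mem_filter.1 hβ).1
    have h6 := (Finset.mem_filter.1 hβ').1
    rw [← (hr β h5).2, ← (hr β' h6).2, h]
  refine ⟨(S.filter fun β => β E = 1).image r, ?_, ?_, ?_, ?_⟩
  · intro B' hB'
    obtain ⟨β, hβ, rfl⟩ := Finset.mem_image.1 hB'
    obtain ⟨h5, h6⟩ := Finset.mem_filter.1 hβ
    refine ⟨(hr β h5).1, over_of_one p he.cls hi.act (hr β h5).1 ?_⟩
    rw [hval β h5, h6]
  · intro B'' hB'' ho
    have h5 : rs B'' ∈ S := rs_mem k1 k7 hB''
    have h6 : rs B'' E = 1 := by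
      change B'' E.1 = 1
      rw [hE, ho e he.cls, hi.one, one_pow]
    refine ⟨r (rs B''), ⟨Finset.mem_image_of_mem r (Finset.mem_filter.2 ⟨h5, h6⟩),
      fun f hf => ?_⟩, ?_⟩
    · exact (congrFun (hr _ h5).2 ⟨f, hf⟩).symm
    · rintro B' ⟨hB', hf⟩
      obtain ⟨β, hβ, rfl⟩ := Finset.mem_image.1 hB'
      congr 1
      rw [← (hr β (Finset.mem_filter.1 hβ).1).2]
      funext f
      exact (hf f.1 f.2).symm
  · rw [Finset.sum_image hinj, ← h1, ← h3]
    congr 1
    have h5 := k4 E
    rw [hE] at h5
    rw [h5, Finset.sum_filter]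
    refine Finset.sum_congr rfl fun β hβ => ?_
    split_ifs
    · rw [(k3 _).1, (hr β hβ).2]
    · rfl
  · rw [Finset.sum_image hinj, ← h2, ← h4]
    congr 1
    have h5 := k5 E
    have h6 : nwt p red (wE G C e) 1 = ∑ β ∈ S, if β E = 1 then wβ β else 0 := by
      rw [nwt_sum, ← h5, hE]
    rw [h6, Finset.sum_filter]
    refine Finset.sum_congr rfl fun β hβ => ?_
    split_ifs
    · rw [(k3 _).2, (hr β hβ).2]
    · rfl

/-! ### Families of blocks -/

/-- the closure of a family of blocks under wreath products -/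
def WrClosed {F : Type} [Field F] (C : Type) [Group C] [Fintype C]
    (Y : ∀ (G : Type) [Group G], ((G → F) → F) → Prop) : Prop :=
  ∀ (G : Type) [Group G] [Finite G] (B : (G → F) → F), IsBlock B → Y G B →
    ∀ B' : (RegularWreathProduct G C → F) → F, IsBlock B' → Over B B' →
      Y (RegularWreathProduct G C) B'

theorem card_wr (q : ℕ) (hq : q.Prime) (C : Type) [Group C] [Fintype C] (hC : Nat.card C = q)
    (G : Type) [Group G] [Finite G] : Nat.card G + 1 ≤ Nat.card (RegularWreathProduct G C) := by
  rw [RegularWreathProduct.card, hC]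
  have h1 : 1 ≤ Nat.card G := Nat.card_pos
  have h2 : Nat.card G ≤ Nat.card G ^ q := Nat.le_self_pow hq.ne_zero _
  have h3 : 2 ≤ q := hq.two_le
  nlinarith

/-- **Families of blocks: congruences for wreath products.** -/
theorem fam2 (q : ℕ) (hq : q.Prime) (C : Type) [Group C] [Fintype C] (hC : Nat.card C = q)
    (m : ℕ) (hqm : q ∣ m) (N : ℕ) (Y : ∀ (G : Type) [Group G], ((G → F) → F) → Prop)
    (hY : WrClosed C Y) :
    (∀ (G : Type) [Group G] [Finite G] (B : (G → F) → F), IsBlock B → Y G B →
      numIrrBlock B = numWt p red B) ↔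
    ∀ (G : Type) [Group G] [Finite G] (B : (G → F) → F), N ≤ Nat.card G → IsBlock B → Y G B →
      ∀ B' : (RegularWreathProduct G C → F) → F, IsBlock B' → Over B B' →
        numIrrBlock B' ≡ numWt p red B' [MOD m] := by
  constructor
  · intro h G _ _ B _ hB hYB B' hB' ho
    rw [h _ B' hB' (hY G B hB hYB B' hB' ho)]
  · intro h
    have h1 : ∀ k : ℕ, ∀ (G : Type) [Group G] [Finite G] (B : (G → F) → F), N ≤ Nat.card G →
        IsBlock B → Y G B → ∀ B' : (RegularWreathProduct G C → F) → F, IsBlock B' → Over B B' →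
          numIrrBlock B' ≡ numWt p red B' [MOD q ^ k] := by
      intro k
      induction k with
      | zero =>
        intro G _ _ B _ _ _ B' _ _
        rw [pow_zero]
        exact Nat.modEq_one
      | succ k ih =>
        intro G _ _ B hN hB hYB B' hB' ho
        refine step (p := p) red q hq C hC k B' ((h G B hN hB hYB B' hB' ho).of_dvd hqm)
          fun B'' hB'' ho' => ?_
        exact ih _ B' (hN.trans ((Nat.le_succ _).trans (card_wr q hq C hC G))) hB'
          (hY G B hB hYB B' hB' ho) B'' hB'' ho'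
    have h2 : ∀ d : ℕ, ∀ (G : Type) [Group G] [Finite G] (B : (G → F) → F), N ≤ Nat.card G + d →
        IsBlock B → Y G B → numIrrBlock B = numWt p red B := by
      intro d
      induction d with
      | zero =>
        intro G _ _ B hN hB hYB
        exact step_eq (p := p) red q hq C hC B hB fun B' hB' ho =>
          eq_of_modEq_pow hq fun k => h1 k G B hN hB hYB B' hB' ho
      | succ d ih =>
        intro G _ _ B hN hB hYB
        refine step_eq (p := p) red q hq C hC B hB fun B' hB' ho => ?_
        refine ih _ B' ?_ hB' (hY G B hB hYB B' hB' ho)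
        have := card_wr q hq C hC G
        omega
    intro G _ _ B hB hYB
    exact h2 N G B (by omega) hB hYB

/-- **Reduced groups.** -/
theorem reduced_cong (q : ℕ) (hq : q.Prime) (hqp : q ≠ p) (C : Type) [Group C] [Fintype C]
    (hC : Nat.card C = q) (m : ℕ) (hqm : q ∣ m) (N : ℕ) (X : ∀ (G : Type) [Group G], Prop)
    (hX : Closed p X) (hwr : ∀ (G : Type) [Group G] [Finite G], X G →
      X (RegularWreathProduct G C)) :
    (∀ (G : Type) [Group G] [Finite G], X G → BAWC p red G) ↔
    ∀ (G : Type) [Group G] [Finite G], N ≤ Nat.card G → X G → Reduced p G →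
      ∀ B : (G → F) → F, IsBlock B → ∀ B' : (RegularWreathProduct G C → F) → F, IsBlock B' →
        Over B B' → numIrrBlock B' ≡ numWt p red B' [MOD m] := by
  have hfam := fam2 (p := p) red q hq C hC m hqm N
    (fun (G : Type) [Group G] (_ : (G → F) → F) => X G ∧ Reduced p G) (by
      rintro G _ _ B _ ⟨h1, h2⟩ B' _ _
      exact ⟨hwr G h1, reduced_wr p q hq hqp C hC G h2⟩)
  constructor
  · intro h G _ _ _ hXG hR B hB B' hB' ho
    have h1 := h _ (hwr G hXG)
    rw [bawc_def] at h1
    rw [h1 B' hB']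
  · intro h
    have h1 := hfam.2 fun G _ _ B hN hB hY B' hB' ho => h G hN hY.1 hY.2 B hB B' hB' ho
    have h2 := (bawc_strong red X hX).1 (fun H _ _ hH hR => by
      rw [bawc_def]
      exact fun B hB => h1 H B hB ⟨hH, hR⟩)
    intro G _ _ hG
    refine h2 G ⊤ ?_ (pgroup_top p G)
    exact hX.iso _ _ hG ⟨Subgroup.topEquiv.symm⟩

/-- **Principal blocks.** -/
theorem prin_cong2 (C : Type) [Group C] [Fintype C] (hC : Nat.card C = p) (m : ℕ) (hpm : p ∣ m)
    (N : ℕ) (X : ∀ (G : Type) [Group G], Prop)
    (hX : ∀ (G : Type) [Group G] [Finite G], X G → X (RegularWreathProduct G C)) :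
    (∀ (G : Type) [Group G] [Finite G], X G →
      numIrrBlock (prin F G) = numWt p red (prin F G)) ↔
    ∀ (G : Type) [Group G] [Finite G], N ≤ Nat.card G → X G →
      numIrrBlock (prin F (RegularWreathProduct G C)) ≡
        numWt p red (prin F (RegularWreathProduct G C)) [MOD m] := by
  have hp : p.Prime := Fact.out
  have hov : ∀ (G : Type) [Group G] [Finite G] (B : (G → F) → F),
      (∀ f : G → F, IsClassFun f → B f = prin F G f) →
      ∀ B' : (RegularWreathProduct G C → F) → F, IsBlock B' → Over B B' →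
        ∀ f : RegularWreathProduct G C → F, IsClassFun f → B' f = prin F _ f := by
    intro G _ _ B hp B' hB' ho f hf
    obtain ⟨B₁, hB₁, -, huniq, -, -⟩ := wreath_p (p := p) red hC (prin_block (F := F) (G := G))
    rw [huniq B' hB' (fun f hf => (ho f hf).trans (by rw [hp f hf])) f hf,
      huniq _ prin_block prin_over f hf]
  have h := fam2 (p := p) red p hp C hC m hpm N
    (fun (G : Type) [Group G] (B : (G → F) → F) => X G ∧ ∀ f : G → F, IsClassFun f →
      B f = prin F G f) (by
    rintro G _ _ B hB ⟨hXG, hp⟩ B' hB' ho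
    exact ⟨hX G hXG, hov G B hp B' hB' ho⟩)
  constructor
  · intro h1 G _ _ hN hXG
    rw [h1 _ (hX G hXG)]
  · intro h1 G _ _ hXG
    refine h.2 (fun G _ _ B hN hB hY B' hB' ho => ?_) G (prin F G) prin_block
      ⟨hXG, fun f _ => rfl⟩
    have h2 := num_congr (p := p) red (hov G B hY.2 B' hB' ho)
    rw [h2.1, h2.2]
    exact h1 G hN hY.1

end Pool.Agent.E8helper60.AW
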