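import Pool.Agent.Y63.NV.Stm4

/-!
# Wreath products and the blockwise Alperin weight conjecture: statements of some parts
-/

set_option autoImplicit false

open scoped Classical

noncomputable section

namespace Pool.Agent.E8helper60.AW

open Pool.Agent.Y63.NV

/-- the tensor product of functions -/
def tens {ι : Type} [Fintype ι] {K : ι → Type} {F : Type} [Field F] (θ : ∀ i, K i → F) :
    (∀ i, K i) → F := fun x => ∏ i, θ i (x i)

/-- TENS: tensor products of irreducible traces are irreducible -/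
def S_TENS : Prop := ∀ (F : Type) [Field F] [IsAlgClosed F] (ι : Type) [Fintype ι] (K : ι → Type)
  [∀ i, Group (K i)] [∀ i, Finite (K i)] (θ : ∀ i, K i → F), (∀ i, IsIrrTrace (θ i)) →
    IsIrrTrace (tens θ)

/-- TENSP: all irreducible traces of a direct product are tensor products, in characteristic `p` -/
def S_TENSP : Prop := ∀ (p : ℕ) [Fact p.Prime] (F : Type) [Field F] [IsAlgClosed F] [CharP F p]
  (ι : Type) [Fintype ι] (K : ι → Type) [∀ i, Group (K i)] [∀ i, Finite (K i)]
  (φ : (∀ i, K i) → F), IsIrrTrace φ →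
    ∃ θ : ∀ i, K i → F, (∀ i, IsIrrTrace (θ i)) ∧ φ = tens θ

/-- TENSC: the same for complex characters -/
def S_TENSC : Prop := ∀ (ι : Type) [Fintype ι] (K : ι → Type) [∀ i, Group (K i)]
  [∀ i, Finite (K i)] (φ : (∀ i, K i) → ℂ), IsIrrTrace φ →
    ∃ θ : ∀ i, K i → ℂ, (∀ i, IsIrrTrace (θ i)) ∧ φ = tens θ

/-- CLIFQ: defect zero characters over a normal subgroup of prime index `q ≠ p` -/
def S_CLIFQ : Prop := ∀ (p q : ℕ) [Fact p.Prime] [Fact q.Prime] (F : Type) [Field F] [CharP F p]
  (red : integralClosure ℤ ℂ →+* F) (Y : Type) [Group Y] [Finite Y] (X : Subgroup Y)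
  [X.Normal] (z : Y → F) (c : F), q ≠ p → Nat.card (Y ⧸ X) = q → InZ X z →
    q * Nw p red (⊥ : Subgroup Y) z c =
      Nw p red (⊥ : Subgroup X) (fun x => z x) c + (q ^ 2 - 1) * numInvDzL p red X z c

end Pool.Agent.E8helper60.AW
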