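import Pool.Agent.E8helper60.AW.Glob

/-!
# Central characters and weights of direct products
-/

set_option autoImplicit false
set_option linter.unusedSectionVars false

open scoped Classical

noncomputable section

namespace Pool.Agent.E8helper60.AW

open Pool.Agent.Y63.NV Pool.Agent.Y930.NV
open Pool.Agent.Y63.AWC (IsIrreducibleCharacter deg_nat one_ne deg_dvd)

section cvt

variable {F : Type} [Field F] (red : integralClosure ℤ ℂ →+* F)

/-- linearity of the reduced central character -/
theorem cv_lin {J : Type} [Group J] [Fintype J] {χ : J → ℂ} (h : IsIrreducibleCharacter χ)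
    {κ : Type} [Fintype κ] (a : κ → F) (n : κ → J → ℤ) (hn : ∀ k, Cf (n k)) :
    centralValue red χ (fun g => ∑ k, a k * ((n k g : ℤ) : F)) =
      ∑ k, a k * R red χ (n k) := by
  rw [centralValue_eq red h]
  simp_rw [Finset.sum_mul]
  rw [Finset.sum_comm]
  refine Finset.sum_congr rfl fun k _ => ?_
  rw [R_expand red h (hn k), Finset.mul_sum]
  exact Finset.sum_congr rfl fun C _ => by ring

variable {ι : Type} [Fintype ι] {K : ι → Type} [∀ i, Group (K i)] [∀ i, Fintype (K i)]

theorem om_tens (χ : ∀ i, K i → ℂ) (f : ∀ i, K i → ℂ) :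
    om (tens χ) (fun x => ∏ i, f i (x i)) = ∏ i, om (χ i) (f i) := by
  unfold om tens
  rw [Finset.prod_div_distrib, Fintype.prod_sum]
  congr 1
  refine Finset.sum_congr rfl fun x _ => ?_
  rw [Finset.prod_mul_distrib]

theorem redC_prod (a : ι → ℂ) (ha : ∀ i, IsIntegral ℤ (a i)) :
    redC red (∏ i, a i) = ∏ i, redC red (a i) := by
  have h : ∀ s : Finset ι, IsIntegral ℤ (∏ i ∈ s, a i) ∧
      redC red (∏ i ∈ s, a i) = ∏ i ∈ s, redC red (a i) := by
    intro s
    induction s using Finset.induction_on with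
    | empty =>
      refine ⟨?_, ?_⟩
      · rw [Finset.prod_empty]; exact isIntegral_one
      · rw [Finset.prod_empty, Finset.prod_empty, redC_one]
    | insert i s his ih =>
      rw [Finset.prod_insert his, Finset.prod_insert his]
      exact ⟨(ha i).mul ih.1, by rw [redC_mul red (ha i) ih.1, ih.2]⟩
  exact (h Finset.univ).2

theorem cf_tens {A : Type} [CommRing A] {f : ∀ i, K i → A} (hf : ∀ i, Cf (f i)) :
    Cf (fun x : ∀ i, K i => ∏ i, f i (x i)) := by
  intro g x
  refine Finset.prod_congr rfl fun i _ => ?_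
  exact hf i (g i) (x i)

/-- the reduced central character of a tensor product -/
theorem cv_tens {χ : ∀ i, K i → ℂ} (h : ∀ i, IsIrreducibleCharacter (χ i))
    (ht : IsIrreducibleCharacter (tens χ)) {f : ∀ i, K i → F} (hf : ∀ i, IsClassFun (f i)) :
    centralValue red (tens χ) (tens f) = ∏ i, centralValue red (χ i) (f i) := by
  have h1 : tens f = fun x : ∀ i, K i => ∑ C : ∀ i, ConjClasses (K i),
      (∏ i, f i (C i).out) * ((∏ i, ind ℤ (C i) (x i) : ℤ) : F) := by
    funext x
    unfold tens
    have h2 : ∀ i, f i (x i) = ∑ C : ConjClasses (K i), f i C.out * ((ind ℤ C (x i) : ℤ) : F) := by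
      intro i
      rw [Cf_expand (hf i : Cf (f i)) (x i)]
      refine Finset.sum_congr rfl fun C _ => ?_
      congr 1
      unfold ind
      split_ifs <;> simp
    rw [Finset.prod_congr rfl fun i _ => h2 i, Fintype.prod_sum]
    refine Finset.sum_congr rfl fun C _ => ?_
    rw [Finset.prod_mul_distrib]
    push_cast
    rfl
  rw [h1]
  refine (cv_lin red ht (κ := ∀ i, ConjClasses (K i)) (fun C => ∏ i, f i (C i).out)
    (fun C x => ∏ i, ind ℤ (C i) (x i)) (fun C => cf_tens fun i => Cf_ind ℤ (C i))).trans ?_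
  have h3 : ∀ C : ∀ i, ConjClasses (K i), R red (tens χ) (fun x => ∏ i, ind ℤ (C i) (x i)) =
      ∏ i, R red (χ i) (ind ℤ (C i)) := by
    intro C
    unfold R
    rw [← redC_prod red _ fun i => om_int (h i) (Cf_ind ℤ (C i)), ← om_tens]
    congr 2
    funext x
    push_cast
    rfl
  simp_rw [h3, ← Finset.prod_mul_distrib]
  rw [← Fintype.prod_sum (fun i (C : ConjClasses (K i)) => f i C.out * R red (χ i) (ind ℤ C))]
  exact Finset.prod_congr rfl fun i _ => (centralValue_eq red (h i) (f i)).symm

end cvt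

section wt

variable {ι : Type} [Fintype ι] {K : ι → Type} [∀ i, Group (K i)] [∀ i, Finite (K i)]

/-- the product of subgroups -/
abbrev sp (Q : ∀ i, Subgroup (K i)) : Subgroup (∀ i, K i) := Subgroup.pi Set.univ Q

theorem mem_sp {Q : ∀ i, Subgroup (K i)} {x : ∀ i, K i} : x ∈ sp Q ↔ ∀ i, x i ∈ Q i := by
  rw [Subgroup.mem_pi]
  exact ⟨fun h i => h i trivial, fun h i _ => h i⟩

theorem card_sp (Q : ∀ i, Subgroup (K i)) : Nat.card (sp Q) = ∏ i, Nat.card (Q i) := by
  rw [← Nat.card_pi]
  exact Nat.card_congr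
    { toFun := fun x i => ⟨x.1 i, mem_sp.1 x.2 i⟩
      invFun := fun x => ⟨fun i => x i, mem_sp.2 fun i => (x i).2⟩
      left_inv := fun x => rfl
      right_inv := fun x => rfl }

/-- the inequality for the degrees of inflated characters -/
theorem fac_le_of_inflated (p : ℕ) {H : Type} [Group H] [Finite H] (Q : Subgroup H) [Q.Normal]
    {χ : H → ℂ} (h : IsIrreducibleCharacter χ) (hi : ∀ q ∈ Q, ∀ x, χ (q * x) = χ x) {n : ℕ}
    (hn : χ 1 = n) :
    n.factorization p + (Nat.card Q).factorization p ≤ (Nat.card H).factorization p := by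
  obtain ⟨χ', h1, h2⟩ := Pool.Agent.Y210.NV3.irr_desc (QuotientGroup.mk' Q)
    (QuotientGroup.mk'_surjective Q) h (by rw [QuotientGroup.ker_mk']; exact hi)
  have : Fintype (H ⧸ Q) := Fintype.ofFinite _
  have h3 : χ' 1 = (n : ℂ) := by
    rw [← hn, h2]
    change χ' 1 = χ' (QuotientGroup.mk' Q 1)
    rw [map_one]
  have h4 := deg_dvd (h1 : Pool.Agent.Helper884.IC.IsIrrChar χ') h3
  have h5 := Subgroup.card_eq_card_quotient_mul_card_subgroup Q
  have hn0 : n ≠ 0 := by
    rintro rfl
    exact one_ne (h : Pool.Agent.Helper884.IC.IsIrrChar χ) (by simpa using hn)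
  rw [h5, Nat.factorization_mul Nat.card_pos.ne' Nat.card_pos.ne', Finsupp.add_apply]
  exact Nat.add_le_add_right ((Nat.factorization_le_iff_dvd hn0 Nat.card_pos.ne').2 h4 p) _

theorem fac_prod (p : ℕ) (n : ι → ℕ) (hn : ∀ i, n i ≠ 0) :
    (∏ i, n i).factorization p = ∑ i, (n i).factorization p := by
  rw [Nat.factorization_prod (fun i _ => hn i), Finsupp.finsetSum_apply]

/-- weights of direct products -/
theorem wt_tens (p : ℕ) (Q : ∀ i, Subgroup (K i)) [∀ i, (Q i).Normal] {χ : ∀ i, K i → ℂ}
    (h : ∀ i, IsIrreducibleCharacter (χ i)) (ht : IsIrreducibleCharacter (tens χ)) :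
    IsWt p (sp Q) (tens χ) ↔ ∀ i, IsWt p (Q i) (χ i) := by
  have hdeg : ∀ i, ∃ n : ℕ, 0 < n ∧ χ i 1 = (n : ℂ) := by
    intro i
    exact deg_nat (h i : Pool.Agent.Helper884.IC.IsIrrChar (χ i))
  choose n hn0 hn using hdeg
  have hN : tens χ 1 = ((∏ i, n i : ℕ) : ℂ) := by
    unfold tens
    push_cast
    exact Finset.prod_congr rfl fun i _ => hn i
  have hinf : (∀ q ∈ sp Q, ∀ x, tens χ (q * x) = tens χ x) ↔
      ∀ i, ∀ q ∈ Q i, ∀ x, χ i (q * x) = χ i x := by
    constructor
    · intro H i q hq x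
      have h1 := H (Pi.mulSingle i q) (mem_sp.2 fun k => by
        by_cases hk : k = i
        · subst hk; rw [Pi.mulSingle_eq_same]; exact hq
        · rw [Pi.mulSingle_eq_of_ne hk]; exact (Q k).one_mem) (Pi.mulSingle i x)
      unfold tens at h1
      have e1 : ∀ y : K i, ∏ k, χ k ((Pi.mulSingle i y : ∀ k, K k) k) =
          χ i y * ∏ k ∈ Finset.univ.erase i, χ k 1 := by
        intro y
        rw [← Finset.mul_prod_erase _ _ (Finset.mem_univ i), Pi.mulSingle_eq_same]
        congr 1
        refine Finset.prod_congr rfl fun k hk => ?_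
        rw [Pi.mulSingle_eq_of_ne (Finset.ne_of_mem_erase hk)]
      rw [← Pi.mulSingle_mul, e1, e1] at h1
      refine mul_right_cancel₀ ?_ h1
      rw [Finset.prod_ne_zero_iff]
      intro k _
      rw [hn k]
      exact_mod_cast (hn0 k).ne'
    · intro H q hq x
      refine Finset.prod_congr rfl fun i _ => ?_
      exact H i _ (mem_sp.1 hq i) _
  have hcardA : Nat.card (∀ i, K i) = ∏ i, Nat.card (K i) := Nat.card_pi
  have hfac : (∏ i, n i).factorization p + (Nat.card (sp Q)).factorization p =
      ∑ i, ((n i).factorization p + (Nat.card (Q i)).factorization p) := by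
    rw [card_sp, fac_prod p n fun i => (hn0 i).ne', fac_prod p _ fun i => Nat.card_pos.ne',
      Finset.sum_add_distrib]
  have hfac2 : (Nat.card (∀ i, K i)).factorization p = ∑ i, (Nat.card (K i)).factorization p := by
    rw [hcardA, fac_prod p _ fun i => Nat.card_pos.ne']
  constructor
  · intro H i
    have hi := hinf.1 H.inflated
    obtain ⟨m, hm, hm2⟩ := H.defectZero
    have hmn : m = ∏ i, n i := by exact_mod_cast hm.symm.trans hN
    rw [hmn, hfac, hfac2] at hm2
    have hle : ∀ i ∈ Finset.univ, (n i).factorization p + (Nat.card (Q i)).factorization p ≤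
        (Nat.card (K i)).factorization p := fun i _ =>
      fac_le_of_inflated p (Q i) (h i) (hi i) (hn i)
    have heq := (Finset.sum_eq_sum_iff_of_le hle).1 hm2 i (Finset.mem_univ i)
    exact ⟨h i, hi i, n i, hn i, heq⟩
  · intro H
    refine ⟨ht, hinf.2 fun i => (H i).inflated, ∏ i, n i, hN, ?_⟩
    rw [hfac, hfac2]
    refine Finset.sum_congr rfl fun i _ => ?_
    obtain ⟨m, hm, hm2⟩ := (H i).defectZero
    have : m = n i := by exact_mod_cast hm.symm.trans (hn i)
    rw [← this, hm2]

end wt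

end Pool.Agent.E8helper60.AW
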