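import Pool.Agent.E8helper60.AW.Red

/-!
# The final parts: total numbers, principal blocks and powers
-/

set_option autoImplicit false
set_option linter.unusedSectionVars false

open scoped Classical

noncomputable section

namespace Pool.Agent.E8helper60.AW

open Pool.Agent.Y63.NV Pool.Agent.Y405.NV Pool.Agent.Y63.NV.B48B
open Pool.Agent.Y63.AWC (IsIrreducibleCharacter pSubgroupSetoid numDefectZero numWeights
  numRegularClasses)

variable {F : Type} [Field F] [IsAlgClosed F] {p : ℕ} [Fact p.Prime] [CharP F p]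
  (red : integralClosure ℤ ℂ →+* F)

/-- the formula, with the number of the blocks for index `p` -/
theorem formula' (q : ℕ) (hq : q.Prime) {C : Type} [Group C] [Fintype C] (hC : Nat.card C = q)
    {G : Type} [Group G] [Finite G] {B : (G → F) → F} (hB : IsBlock B) :
    ∃ S : Finset ((RegularWreathProduct G C → F) → F), (∀ B' ∈ S, IsBlock B' ∧ Over B B') ∧
      (∀ B'' : (RegularWreathProduct G C → F) → F, IsBlock B'' → Over B B'' →
        ∃! B', B' ∈ S ∧ ∀ f : RegularWreathProduct G C → F, IsClassFun f → B'' f = B' f) ∧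
      (q = p → S.card = 1) ∧
      q * ∑ B' ∈ S, numIrrBlock B' = numIrrBlock B ^ q + co p q * numIrrBlock B ∧
      q * ∑ B' ∈ S, numWt p red B' = numWt p red B ^ q + co p q * numWt p red B := by
  obtain ⟨S, h1, h2, h3, h4⟩ := formula (p := p) red q hq hC hB
  refine ⟨S, h1, h2, fun hqp => ?_, h3, h4⟩
  subst hqp
  obtain ⟨B₁, hB₁, ho₁, huniq, -, -⟩ := wreath_p (p := q) red hC hB
  obtain ⟨B₂, ⟨hB₂, -⟩, hu⟩ := h2 B₁ hB₁ ho₁
  rw [Finset.card_eq_one]
  refine ⟨B₂, Finset.eq_singleton_iff_unique_mem.2 ⟨hB₂, fun B' hB' => ?_⟩⟩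
  exact hu B' ⟨hB', fun f hf => (huniq B' (h1 B' hB').1 (h1 B' hB').2 f hf).symm⟩

/-! ### The total numbers -/

include red in
/-- **The total numbers: congruences for wreath products.** -/
theorem tot2 (q : ℕ) (hq : q.Prime) (C : Type) [Group C] [Fintype C] (hC : Nat.card C = q)
    (m : ℕ) (hqm : q ∣ m) (N : ℕ) (X : ∀ (G : Type) [Group G], Prop)
    (hX : ∀ (G : Type) [Group G] [Finite G], X G → X (RegularWreathProduct G C)) :
    (∀ (G : Type) [Group G] [Finite G], X G → numRegularClasses p G = numWeights p G) ↔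
    ∀ (G : Type) [Group G] [Finite G], N ≤ Nat.card G → X G →
      numRegularClasses p (RegularWreathProduct G C) ≡
        numWeights p (RegularWreathProduct G C) [MOD m] := by
  constructor
  · intro h G _ _ _ hXG
    rw [h _ (hX G hXG)]
  · intro h
    have h1 : ∀ k : ℕ, ∀ (G : Type) [Group G] [Finite G], N ≤ Nat.card G → X G →
        numRegularClasses p (RegularWreathProduct G C) ≡
          numWeights p (RegularWreathProduct G C) [MOD q ^ k] := by
      intro k
      induction k with
      | zero =>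
        intro G _ _ _ _
        rw [pow_zero]
        exact Nat.modEq_one
      | succ k ih =>
        intro G _ _ hN hXG
        exact step_tot (p := p) red q hq C hC k ((h G hN hXG).of_dvd hqm)
          (ih _ (hN.trans ((Nat.le_succ _).trans (card_wr q hq C hC G))) (hX G hXG))
    have h2 : ∀ d : ℕ, ∀ (G : Type) [Group G] [Finite G], N ≤ Nat.card G + d →
        X G → numRegularClasses p G = numWeights p G := by
      intro d
      induction d with
      | zero =>
        intro G _ _ hN hXG
        exact tot_step_eq (p := p) red q hq C hC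
          (eq_of_modEq_pow hq fun k => h1 k G hN hXG)
      | succ d ih =>
        intro G _ _ hN hXG
        refine tot_step_eq (p := p) red q hq C hC ?_
        refine ih _ ?_ (hX G hXG)
        have := card_wr q hq C hC G
        omega
    intro G _ _ hXG
    exact h2 N G (by omega) hXG

/-- infinitely many powers of each group of the class belong to the class -/
def PowClosedG (X : ∀ (G : Type) [Group G], Prop) : Prop :=
  ∀ (G : Type) [Group G] [Finite G], X G → ∀ n₀ : ℕ, ∃ n, n₀ ≤ n ∧ X (Fin n → G)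

theorem tens_unit {G ι : Type} [Group G] [Fintype ι] (i : DecidableEq (ι → G)) :
    (tens fun _ : ι => (Pi.single 1 1 : G → F)) = @Pi.single (ι → G) (fun _ => F) _ i 1 1 := by
  funext x
  unfold tens
  by_cases hx : x = 1
  · subst hx
    rw [Pi.single_eq_same]
    exact Finset.prod_eq_one fun i _ => Pi.single_eq_same _ _
  · rw [Pi.single_eq_of_ne hx]
    obtain ⟨i, hi⟩ := Function.ne_iff.1 hx
    exact Finset.prod_eq_zero (Finset.mem_univ i) (Pi.single_eq_of_ne hi _)

include red in
theorem tot_pow (G : Type) [Group G] [Finite G] (n : ℕ) :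
    numRegularClasses p (Fin n → G) = numRegularClasses p G ^ n ∧
      numWeights p (Fin n → G) = numWeights p G ^ n := by
  have h1 := nl_pow (ι := Fin n) (unit_ci (p := p) red (G := G))
  have : Fact (IsClassFun (tens fun _ : Fin n => (Pi.single 1 1 : G → F))) :=
    ⟨cls_tens unit_cls⟩
  have h2 := nwt_pow (ι := Fin n) red (unit_ci (p := p) red (G := G))
  have h3 := tens_unit (F := F) (G := G) (ι := Fin n) (fun a b => Classical.propDecidable (a = b))
  simp only [h3] at h1 h2
  rw [nl_unit (p := p), nl_unit (p := p), Fintype.card_fin] at h1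
  rw [nwt_unit, nwt_unit, Fintype.card_fin] at h2
  exact ⟨h1, h2⟩

include red in
/-- **The total numbers: approximate inequalities.** -/
theorem tot_approx (X : ∀ (G : Type) [Group G], Prop) (hX : PowClosedG X) :
    ((∀ (G : Type) [Group G] [Finite G], X G → numRegularClasses p G ≤ numWeights p G) ↔
    ∀ ε : ℝ, 0 < ε → ∃ C : ℝ, ∀ (G : Type) [Group G] [Finite G], X G →
      (numRegularClasses p G : ℝ) ≤ C * (Nat.card G : ℝ) ^ ε * numWeights p G) ∧
    ((∀ (G : Type) [Group G] [Finite G], X G → numWeights p G ≤ numRegularClasses p G) ↔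
    ∀ ε : ℝ, 0 < ε → ∃ C : ℝ, ∀ (G : Type) [Group G] [Finite G], X G →
      (numWeights p G : ℝ) ≤ C * (Nat.card G : ℝ) ^ ε * numRegularClasses p G) := by
  have hp : p.Prime := Fact.out
  have hone : ∀ (G : Type) [Group G] [Finite G] (ε : ℝ), 0 < ε → (1 : ℝ) ≤ (Nat.card G : ℝ) ^ ε := by
    intro G _ _ ε hε
    refine Real.one_le_rpow ?_ hε.le
    exact_mod_cast one_le_cardG G
  refine ⟨⟨fun h ε hε => ⟨1, fun G _ _ hXG => ?_⟩, fun h G _ _ hXG => ?_⟩,
    ⟨fun h ε hε => ⟨1, fun G _ _ hXG => ?_⟩, fun h G _ _ hXG => ?_⟩⟩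
  · have h1 : (numRegularClasses p G : ℝ) ≤ numWeights p G := by exact_mod_cast h G hXG
    rw [one_mul]
    exact h1.trans (le_mul_of_one_le_left (Nat.cast_nonneg _) (hone G ε hε))
  · refine lim_le _ _ (Nat.card G) (one_le_cardG G) fun ε hε => ?_
    obtain ⟨C, hC⟩ := h ε hε
    refine ⟨C, fun n₀ => ?_⟩
    obtain ⟨n, hn, hn2⟩ := hX G hXG n₀
    refine ⟨n, hn, ?_⟩
    have h3 := hC (Fin n → G) hn2
    rw [(tot_pow (p := p) red G n).1, (tot_pow (p := p) red G n).2, card_powF] at h3
    push_cast at h3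
    exact h3
  · have h1 : (numWeights p G : ℝ) ≤ numRegularClasses p G := by exact_mod_cast h G hXG
    rw [one_mul]
    exact h1.trans (le_mul_of_one_le_left (Nat.cast_nonneg _) (hone G ε hε))
  · refine lim_le _ _ (Nat.card G) (one_le_cardG G) fun ε hε => ?_
    obtain ⟨C, hC⟩ := h ε hε
    refine ⟨C, fun n₀ => ?_⟩
    obtain ⟨n, hn, hn2⟩ := hX G hXG n₀
    refine ⟨n, hn, ?_⟩
    have h3 := hC (Fin n → G) hn2
    rw [(tot_pow (p := p) red G n).1, (tot_pow (p := p) red G n).2, card_powF] at h3
    push_cast at h3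
    exact h3

/-! ### Principal blocks and powers -/

theorem prin_pow {G ι : Type} [Group G] [Finite G] [Fintype ι] (f : G → F) :
    prin F (ι → G) (tens fun _ : ι => f) = prin F G f ^ Fintype.card ι := by
  have : Fintype G := Fintype.ofFinite _
  unfold prin
  rw [finsum_eq_sum_of_fintype, finsum_eq_sum_of_fintype]
  unfold tens
  have h3 := Finset.prod_univ_sum (fun _ : ι => (Finset.univ : Finset G)) (fun _ x => f x)
  rw [Fintype.piFinset_univ] at h3
  rw [← h3, Finset.prod_const, Finset.card_univ]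

theorem prin_powclosed (p : ℕ) [Fact p.Prime] [CharP F p] (X : ∀ (G : Type) [Group G], Prop)
    (hX : PowClosedG X) :
    PowClosed (fun (G : Type) [Group G] (B : (G → F) → F) => X G ∧ ∀ f : G → F, IsClassFun f →
      B f = prin F G f) := by
  rintro G _ _ B hB ⟨hXG, hp⟩ n₀
  obtain ⟨n, hn, hn2⟩ := hX G hXG n₀
  refine ⟨n, hn, fun B' hB' ho => ⟨hn2, fun f hf => ?_⟩⟩
  obtain ⟨red⟩ := exists_red p F
  obtain ⟨e, he, hi, -, -⟩ := isolate' (p := p) red (prin_block (F := F) (G := G))
  have h1 : B' (tens fun _ : Fin n => e) = 1 := by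
    rw [ho e he.cls, hp e he.cls, hi.one, one_pow]
  have h2 : prin F (Fin n → G) (tens fun _ : Fin n => e) = 1 := by
    rw [prin_pow, hi.one, one_pow]
  rw [pow_val p hi hB' h1 hf, pow_val p hi prin_block h2 hf]

/-- **Principal blocks: approximate inequalities.** -/
theorem prin_approx (X : ∀ (G : Type) [Group G], Prop) (hX : PowClosedG X) :
    ((∀ (G : Type) [Group G] [Finite G], X G →
      numIrrBlock (prin F G) ≤ numWt p red (prin F G)) ↔
    ∀ ε : ℝ, 0 < ε → ∃ C : ℝ, ∀ (G : Type) [Group G] [Finite G], X G →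
      (numIrrBlock (prin F G) : ℝ) ≤ C * (Nat.card G : ℝ) ^ ε * numWt p red (prin F G)) ∧
    ((∀ (G : Type) [Group G] [Finite G], X G →
      numWt p red (prin F G) ≤ numIrrBlock (prin F G)) ↔
    ∀ ε : ℝ, 0 < ε → ∃ C : ℝ, ∀ (G : Type) [Group G] [Finite G], X G →
      (numWt p red (prin F G) : ℝ) ≤ C * (Nat.card G : ℝ) ^ ε * numIrrBlock (prin F G)) := by
  have h1 := fam_le (p := p) red _ (prin_powclosed (F := F) p X hX)
  have h2 := fam_ge (p := p) red _ (prin_powclosed (F := F) p X hX)
  constructor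
  · constructor
    · intro h
      have h3 := h1.1 fun G _ _ B hB hY => by
        have h4 := num_congr (p := p) red hY.2
        rw [h4.1, h4.2]
        exact h G hY.1
      intro ε hε
      obtain ⟨C, hC⟩ := h3 ε hε
      exact ⟨C, fun G _ _ hXG => hC G (prin F G) prin_block ⟨hXG, fun f _ => rfl⟩⟩
    · intro h G _ _ hXG
      refine h1.2 (fun ε hε => ?_) G (prin F G) prin_block ⟨hXG, fun f _ => rfl⟩
      obtain ⟨C, hC⟩ := h ε hε
      refine ⟨C, fun G _ _ B hB hY => ?_⟩
      have h4 := num_congr (p := p) red hY.2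
      rw [h4.1, h4.2]
      exact hC G hY.1
  · constructor
    · intro h
      have h3 := h2.1 fun G _ _ B hB hY => by
        have h4 := num_congr (p := p) red hY.2
        rw [h4.1, h4.2]
        exact h G hY.1
      intro ε hε
      obtain ⟨C, hC⟩ := h3 ε hε
      exact ⟨C, fun G _ _ hXG => hC G (prin F G) prin_block ⟨hXG, fun f _ => rfl⟩⟩
    · intro h G _ _ hXG
      refine h2.2 (fun ε hε => ?_) G (prin F G) prin_block ⟨hXG, fun f _ => rfl⟩
      obtain ⟨C, hC⟩ := h ε hε
      refine ⟨C, fun G _ _ B hB hY => ?_⟩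
      have h4 := num_congr (p := p) red hY.2
      rw [h4.1, h4.2]
      exact hC G hY.1

end Pool.Agent.E8helper60.AW
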