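import Pool.Agent.E8helper60.AW.Psum

/-!
# Weights of wreath products with a group of prime order
-/

set_option autoImplicit false
set_option linter.unusedSectionVars false

open scoped Classical

noncomputable section

namespace Pool.Agent.E8helper60.AW

open Pool.Agent.Y63.NV Pool.Agent.Y487.NV
open Pool.Agent.Y63.AWC (IsIrreducibleCharacter deg_nat one_ne deg_dvd)

/-! ### Products of weights -/

section prod

variable {F : Type} [Field F] [IsAlgClosed F] {G : Type} [Group G] [Finite G] {ι : Type}
  [Fintype ι] {p : ℕ} [Fact p.Prime] [CharP F p] {red : integralClosure ℤ ℂ →+* F} {e : G → F}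

/-- the product of weights -/
def prodMap (he : IsClassFun e) (x : ι → PP p red e 1) :
    PP p red (tens fun _ : ι => e) 1 :=
  ⟨(sp fun i => (x i).1.1, tens fun i => (x i).1.2), pair_tens p red he fun i => (x i).2⟩

theorem prodMap_inj (he : CI p red e) :
    Function.Injective (prodMap (ι := ι) (p := p) (red := red) he.cls) := by
  intro x y hxy
  have h1 : sp (fun i => (x i).1.1) = sp fun i => (y i).1.1 :=
    congrArg (fun t : PP p red (tens fun _ : ι => e) 1 => t.1.1) hxy
  have h2 : tens (fun i => (x i).1.2) = tens fun i => (y i).1.2 :=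
    congrArg (fun t : PP p red (tens fun _ : ι => e) 1 => t.1.2) hxy
  obtain ⟨h3, h4⟩ := pair_inj red (fun i => (x i).2) (fun i => (y i).2) h1 h2
  funext i
  apply Subtype.ext
  apply Prod.ext
  · exact congrFun h3 i
  · exact congrFun h4 i

theorem prodMap_bij (he : CI p red e) :
    Function.Bijective (prodMap (ι := ι) (p := p) (red := red) he.cls) := by
  refine ⟨prodMap_inj he, ?_⟩
  rintro ⟨⟨R, ψ⟩, h⟩
  obtain ⟨Q, χ, h1, h2, h3⟩ := pair_split red he h
  refine ⟨fun i => ⟨(Q i, χ i), h1 i⟩, ?_⟩
  apply Subtype.ext
  apply Prod.ext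
  · exact h2.symm
  · exact h3.symm

/-- sums over the weights of a product -/
theorem prod_sum (he : CI p red e) [Fintype (PP p red e 1)]
    [Fintype (PP p red (tens fun _ : ι => e) 1)] (R : PP p red (tens fun _ : ι => e) 1 → Prop) :
    ∑ ω : PP p red (tens fun _ : ι => e) 1,
      (if R ω then Nat.card (Subgroup.normalizer (ω.1.1 : Set (ι → G))) else 0) =
    ∑ x : ι → PP p red e 1, if R (prodMap he.cls x) then
      ∏ i, Nat.card (Subgroup.normalizer ((x i).1.1 : Set G)) else 0 := by
  rw [← Equiv.sum_comp (Equiv.ofBijective _ (prodMap_bij (ι := ι) he))]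
  refine Finset.sum_congr rfl fun x _ => ?_
  rw [Equiv.ofBijective_apply]
  have h1 : Nat.card (Subgroup.normalizer (((prodMap he.cls x).1.1 : Subgroup (ι → G)) :
    Set (ι → G))) = ∏ i, Nat.card (Subgroup.normalizer ((x i).1.1 : Set G)) := card_norm_sp _
  rw [h1]

theorem wtot_pow (he : CI p red e) :
    wtot p red (tens fun _ : ι => e) 1 = wtot p red e 1 ^ Fintype.card ι := by
  have : Fintype (PP p red e 1) := Fintype.ofFinite _
  have : Fintype (PP p red (tens fun _ : ι => e) 1) := Fintype.ofFinite _
  have h := prod_sum (ι := ι) he (fun _ => True)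
  simp only [if_true] at h
  rw [wtot_eq, h, wtot_eq]
  have h3 := Finset.prod_univ_sum (fun _ : ι => (Finset.univ : Finset (PP p red e 1)))
    (fun _ x => Nat.card (Subgroup.normalizer (x.1.1 : Set G)))
  rw [Fintype.piFinset_univ] at h3
  rw [← h3, Finset.prod_const, Finset.card_univ]

end prod

/-! ### The wreath product -/

section wreath

variable {G C : Type} [Group G] [Group C]

/-- the embedding of the base group -/
def bse (G C : Type) [Group G] [Group C] : (C → G) →* RegularWreathProduct G C where
  toFun x := ⟨x, 1⟩
  map_one' := rfl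
  map_mul' x y := by
    apply RegularWreathProduct.ext
    · funext i
      simp
    · simp

@[simp] theorem bse_left (x : C → G) : (bse G C x).left = x := rfl

@[simp] theorem bse_right (x : C → G) : (bse G C x).right = 1 := rfl

theorem bse_inj : Function.Injective (bse G C) := fun x y h =>
  congrArg RegularWreathProduct.left h

theorem mem_bse (s : RegularWreathProduct G C) : s ∈ (bse G C).range ↔ s.right = 1 := by
  constructor
  · rintro ⟨x, rfl⟩
    rfl
  · intro h
    exact ⟨s.left, RegularWreathProduct.ext rfl h.symm⟩

theorem bse_ker : (bse G C).range = (RegularWreathProduct.rightHom (D := G) (Q := C)).ker := by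
  ext s
  rw [mem_bse, MonoidHom.mem_ker]
  rfl

instance bse_normal : (bse G C).range.Normal := by
  rw [bse_ker]
  infer_instance

theorem bse_card [Finite C] :
    Nat.card (RegularWreathProduct G C ⧸ (bse G C).range) = Nat.card C := by
  rw [bse_ker]
  exact Nat.card_congr (QuotientGroup.quotientKerEquivOfSurjective
    (RegularWreathProduct.rightHom (D := G) (Q := C)) fun c => ⟨⟨1, c⟩, rfl⟩).toEquiv

theorem conj_bse (s : RegularWreathProduct G C) (a b : C → G) :
    bse G C b = s * bse G C a * s⁻¹ ↔
      ∀ i, b i = s.left i * a (s.right⁻¹ * i) * (s.left i)⁻¹ := by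
  constructor
  · intro h i
    have h1 := congrFun (congrArg RegularWreathProduct.left h) i
    simpa [mul_assoc] using h1
  · intro h
    apply RegularWreathProduct.ext
    · funext i
      simp [h i, mul_assoc]
    · simp

variable {F : Type} [Field F]

/-- the element of the group algebra of the wreath product -/
def wE (G C : Type) [Group G] [Group C] [Fintype C] {F : Type} [Field F] (e : G → F) :
    RegularWreathProduct G C → F :=
  fun s => if s.right = 1 then ∏ i, e (s.left i) else 0

theorem wE_bse [Fintype C] (e : G → F) (x : C → G) :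
    wE G C e (bse G C x) = (tens fun _ : C => e) x := if_pos rfl

theorem wE_inz [Fintype C] {e : G → F} (he : IsClassFun e) : InZ (bse G C).range (wE G C e) := by
  constructor
  · intro s t
    by_cases ht : t.right = 1
    · obtain ⟨a, rfl⟩ := (mem_bse t).2 ht
      have h1 := (conj_bse s a (fun i => s.left i * a (s.right⁻¹ * i) * (s.left i)⁻¹)).2
        fun i => rfl
      rw [← h1, wE_bse, wE_bse]
      unfold tens
      rw [Finset.prod_congr rfl fun i _ => he (s.left i) (a (s.right⁻¹ * i))]
      exact Fintype.prod_equiv (Equiv.mulLeft s.right⁻¹) _ _ fun i => rfl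
    · unfold wE
      rw [if_neg ht, if_neg]
      rw [RegularWreathProduct.mul_right, RegularWreathProduct.mul_right,
        RegularWreathProduct.inv_right]
      intro h
      apply ht
      have h2 : s.right⁻¹ * (s.right * t.right * s.right⁻¹) * s.right = t.right := by group
      rw [← h2, h]
      simp
  · intro t ht
    unfold wE
    rw [if_neg]
    exact fun h => ht ((mem_bse t).2 h)

end wreath

section wpart

variable {F : Type} [Field F] [IsAlgClosed F] {G C : Type} [Group G] [Finite G] [Group C]
  [Fintype C] {p : ℕ} [Fact p.Prime] [CharP F p] {red : integralClosure ℤ ℂ →+* F} {e : G → F}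

/-- a product of weights is fixed from outside if and only if its factors are conjugate -/
theorem fixed_iff (he : CI p red e) [Fact (IsClassFun e)] (hC : (Nat.card C).Prime)
    (x : C → PP p red e 1) :
    FixedOut (bse G C) (prodMap he.cls x).1.1 (fun t => (prodMap he.cls x).1.2 t) ↔
      ∀ i k, (Quotient.mk (MulAction.orbitRel G (PP p red e 1)) (x i)) =
        (Quotient.mk (MulAction.orbitRel G (PP p red e 1)) (x k)) := by
  have hkey : ∀ (s : RegularWreathProduct G C) (a b : C → G), bse G C b = s * bse G C a * s⁻¹ →
      (b ∈ (prodMap he.cls fun i => s.left i • x (s.right⁻¹ * i)).1.1 ↔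
        a ∈ (prodMap he.cls x).1.1) ∧
      (prodMap he.cls fun i => s.left i • x (s.right⁻¹ * i)).1.2 b =
        (prodMap he.cls x).1.2 a := by
    intro s a b h
    rw [conj_bse] at h
    have h1 : ∀ i, (s.left i)⁻¹ * b i * s.left i = a (s.right⁻¹ * i) := by
      intro i
      rw [h]
      group
    constructor
    · change b ∈ sp _ ↔ a ∈ sp _
      rw [mem_sp, mem_sp]
      constructor
      · intro h2 i
        have h3 := h2 (s.right * i)
        rw [smul_fst, h1, inv_mul_cancel_left] at h3
        exact h3
      · intro h2 i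
        rw [smul_fst, h1]
        exact h2 _
    · change tens _ b = tens _ a
      unfold tens
      simp only [smul_snd, h1]
      exact Fintype.prod_equiv (Equiv.mulLeft s.right⁻¹) _ _ fun i => rfl
  -- the element
  have hfix : FixedOut (bse G C) (prodMap he.cls x).1.1 (fun t => (prodMap he.cls x).1.2 t) ↔
      ∃ s : RegularWreathProduct G C, s.right ≠ 1 ∧ ∀ i, s.left i • x (s.right⁻¹ * i) = x i := by
    constructor
    · rintro ⟨s, hs1, hs2, hs3⟩
      refine ⟨s, fun h => hs1 ((mem_bse s).2 h), ?_⟩
      have h1 : prodMap he.cls (fun i => s.left i • x (s.right⁻¹ * i)) = prodMap he.cls x := by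
        have hex : ∀ b : C → G, ∃ a : C → G, bse G C b = s * bse G C a * s⁻¹ := by
          intro b
          refine ⟨fun i => (s.left (s.right * i))⁻¹ * b (s.right * i) * s.left (s.right * i), ?_⟩
          rw [conj_bse]
          intro i
          rw [mul_inv_cancel_left]
          group
        have hQ : (prodMap he.cls (fun i => s.left i • x (s.right⁻¹ * i))).1.1 =
            (prodMap he.cls x).1.1 := by
          ext b
          obtain ⟨a, ha⟩ := hex b
          rw [(hkey s a b ha).1]
          exact hs2 a b ha
        apply Subtype.ext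
        apply Prod.ext
        · exact hQ
        · funext b
          by_cases hb : b ∈ Subgroup.normalizer (((prodMap he.cls x).1.1 : Subgroup (C → G)) :
              Set (C → G))
          · obtain ⟨a, ha⟩ := hex b
            rw [(hkey s a b ha).2]
            have haN : a ∈ Subgroup.normalizer (((prodMap he.cls x).1.1 : Subgroup (C → G)) :
              Set (C → G)) := by
              rw [Subgroup.mem_normalizer_iff] at hb ⊢
              intro t
              obtain ⟨t', ht'⟩ : ∃ t' : C → G, bse G C t' = s * bse G C t * s⁻¹ :=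
                (mem_bse _).2 (by simp)
              have h5 : bse G C (b * t' * b⁻¹) = s * bse G C (a * t * a⁻¹) * s⁻¹ := by
                rw [map_mul, map_mul, map_inv, map_mul, map_mul, map_inv, ha, ht']
                group
              rw [hs2 t t' ht', hb t', hs2 _ _ h5]
            exact (hs3 ⟨a, haN⟩ ⟨b, hb⟩ ha).symm
          · rw [(prodMap he.cls x).2.supp b hb]
            refine (prodMap he.cls fun i => s.left i • x (s.right⁻¹ * i)).2.supp b ?_
            rw [hQ]
            exact hb
      exact fun i => congrFun (prodMap_inj he h1) i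
    · rintro ⟨s, hs1, hs2⟩
      have h1 : prodMap he.cls (fun i => s.left i • x (s.right⁻¹ * i)) = prodMap he.cls x :=
        congrArg _ (funext hs2)
      refine ⟨s, fun h => hs1 ((mem_bse s).1 h), fun a b hab => ?_, fun a b hab => ?_⟩
      · have h2 := (hkey s a b hab).1
        rw [h1] at h2
        exact h2.symm
      · have h2 := (hkey s a b hab).2
        rw [h1] at h2
        exact h2
  rw [hfix]
  have hCF : Fact (Nat.card C).Prime := ⟨hC⟩
  constructor
  · rintro ⟨s, hs1, hs2⟩
    obtain ⟨f, hf⟩ : ∃ f : C → Quotient (MulAction.orbitRel G (PP p red e 1)),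
      ∀ i, f i = Quotient.mk (MulAction.orbitRel G (PP p red e 1)) (x i) := ⟨_, fun _ => rfl⟩
    have h1 : ∀ i, f (s.right * i) = f i := by
      intro i
      rw [hf, hf]
      refine Quotient.sound (MulAction.orbitRel_apply.2 ⟨s.left (s.right * i), ?_⟩)
      have h2 := hs2 (s.right * i)
      rw [inv_mul_cancel_left] at h2
      exact h2
    obtain ⟨S, hS⟩ : ∃ S : Subgroup C, ∀ d, d ∈ S ↔ ∀ i, f (d * i) = f i :=
      ⟨{ carrier := {d | ∀ i, f (d * i) = f i}
         one_mem' := fun i => by rw [one_mul]
         mul_mem' := fun {a b} ha hb i => by rw [mul_assoc, ha, hb]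
         inv_mem' := fun {a} ha i => by
          have := ha (a⁻¹ * i)
          rw [mul_inv_cancel_left] at this
          exact this.symm }, fun _ => Iff.rfl⟩
    have hST : S = ⊤ := by
      rcases S.eq_bot_or_eq_top_of_prime_card with h | h
      · exfalso
        have h2 : s.right ∈ S := (hS _).2 h1
        rw [h, Subgroup.mem_bot] at h2
        exact hs1 h2
      · exact h
    intro i k
    have h2 : i * k⁻¹ ∈ S := by rw [hST]; trivial
    have h3 := (hS _).1 h2 k
    rw [inv_mul_cancel_right] at h3
    rw [← hf, ← hf]
    exact h3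
  · intro h
    have hCn : Nontrivial C := Finite.one_lt_card_iff_nontrivial.1 hC.one_lt
    obtain ⟨c, hc⟩ := exists_ne (1 : C)
    have h2 : ∀ i, ∃ g : G, g • x (c⁻¹ * i) = x i := by
      intro i
      have h3 := Quotient.exact (h i (c⁻¹ * i))
      exact MulAction.orbitRel_apply.1 h3
    choose σ hσ using h2
    exact ⟨⟨σ, c⟩, hc, hσ⟩

/-- the part from the fixed weights -/
theorem winv_eq (he : CI p red e) [Fact (IsClassFun e)] (hC : (Nat.card C).Prime) :
    winvtot p red (bse G C) (wE G C e) 1 = nwt p red e 1 * Nat.card G ^ Nat.card C := by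
  have : Fintype (PP p red e 1) := Fintype.ofFinite _
  have : Fintype (PP p red (tens fun _ : C => e) 1) := Fintype.ofFinite _
  have hCn : Nonempty C := ⟨1⟩
  have h1 := psum_gen p red (tens fun _ : C => e) 1 (fun Q χ => FixedOut (bse G C) Q χ)
  have h2 : winvtot p red (bse G C) (wE G C e) 1 =
    ∑ᶠ Q : Subgroup (C → G), if IsPGroup p Q then Nat.card (Subgroup.normalizer (Q : Set (C → G))) *
      Nat.card {χ : Subgroup.normalizer (Q : Set (C → G)) → ℂ //
        (IsWt p (Q.subgroupOf (Subgroup.normalizer (Q : Set (C → G)))) χ ∧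
        centralValue red χ (fun x => (tens fun _ : C => e) x) = 1) ∧
        FixedOut (bse G C) Q χ} else 0 := by
    unfold winvtot winv
    refine finsum_congr fun Q => ?_
    simp only [wE_bse]
  rw [h2, h1, prod_sum he (fun ω => FixedOut (bse G C) ω.1.1 (fun t => ω.1.2 t))]
  rw [nwt, Nat.card_eq_fintype_card (α := C), ← orb_tuples (G := G) (X := PP p red e 1) (C := C)]
  refine Finset.sum_congr rfl fun x _ => ?_
  have h3 := fixed_iff (red := red) he hC x
  by_cases h4 : FixedOut (bse G C) (prodMap he.cls x).1.1 (fun t => (prodMap he.cls x).1.2 t)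
  · rw [if_pos h4, if_pos (h3.1 h4)]
    exact Finset.prod_congr rfl fun i _ => by rw [stab_eq]
  · rw [if_neg h4, if_neg fun h5 => h4 (h3.2 h5)]

/-- **Weights of wreath products.** -/
theorem nwt_wreath (he : CI p red e) [Fact (IsClassFun e)] [Fact (IsClassFun (wE G C e))]
    (q : ℕ) (hq : q.Prime) (hC : Nat.card C = q) :
    q * nwt p red (wE G C e) 1 = nwt p red e 1 ^ q + co p q * nwt p red e 1 := by
  have hqF : Fact q.Prime := ⟨hq⟩
  have h1 := wtot_index p q red (bse G C) bse_inj bse_normal (wE G C e) 1 (wE_inz he.cls)
    (bse_card.trans hC)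
  rw [wtot_nwt, winv_eq he (hC ▸ hq), RegularWreathProduct.card, hC] at h1
  have h2 : wtot p red (fun a : C → G => wE G C e (bse G C a)) 1 =
      (nwt p red e 1 * Nat.card G) ^ q := by
    have h3 : (fun a : C → G => wE G C e (bse G C a)) = tens fun _ : C => e :=
      funext fun a => wE_bse e a
    rw [h3, wtot_pow he, wtot_nwt, ← Nat.card_eq_fintype_card, hC]
  rw [h2] at h1
  have h3 : 0 < Nat.card G ^ q := Nat.pow_pos Nat.card_pos
  refine Nat.eq_of_mul_eq_mul_right h3 ?_
  rw [mul_pow] at h1
  linear_combination h1

end wpart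

end Pool.Agent.E8helper60.AW
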